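import Mathlib

/-!
Basic facts on binary linear codes: local codes, codimension, duality, Gilbert-Varshamov.
-/

open Finset Module

namespace Pool.Agent.P.MP_55663b_lc

/-- The field with two elements. -/
abbrev F : Type := ZMod 2

/-- Words all of whose local views lie in the code `T`. -/
def localCode {ι V Q : Type} (σ : V → Q → ι) (T : Submodule F (Q → F)) :
    Submodule F (ι → F) :=
  ⨅ v, T.comap (LinearMap.funLeft F F (σ v))

theorem mem_localCode {ι V Q : Type} {σ : V → Q → ι} {T : Submodule F (Q → F)} {x : ι → F} :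
    x ∈ localCode σ T ↔ ∀ v, (fun q => x (σ v q)) ∈ T := by
  simp only [localCode, Submodule.mem_iInf, Submodule.mem_comap]
  rfl

/-- The code has codimension at most `k`. -/
def Cod {ι : Type} [Fintype ι] (C : Submodule F (ι → F)) (k : ℕ) : Prop :=
  Fintype.card ι ≤ finrank F C + k

/-- The code has relative distance at least `1 / r`. -/
def Dist {ι : Type} [Fintype ι] (C : Submodule F (ι → F)) (r : ℕ) : Prop :=
  ∀ c ∈ C, c ≠ 0 → Fintype.card ι ≤ r * hammingNorm c

theorem Dist.mono {ι : Type} [Fintype ι] {C : Submodule F (ι → F)} {r s : ℕ} (h : Dist C r)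
    (hrs : r ≤ s) : Dist C s := fun c hc h0 =>
  (h c hc h0).trans (Nat.mul_le_mul_right _ hrs)

theorem Dist.le_of_ne {ι : Type} [Fintype ι] {C : Submodule F (ι → F)} {r : ℕ} (h : Dist C r)
    {x y : ι → F} (hx : x ∈ C) (hy : y ∈ C) (hxy : x ≠ y) :
    Fintype.card ι ≤ r * #{i | x i ≠ y i} := by
  have := h (x - y) (C.sub_mem hx hy) (sub_ne_zero.2 hxy)
  simpa only [hammingNorm, Pi.sub_apply, sub_ne_zero] using this

theorem Cod.localCode {ι V Q : Type} [Fintype ι] [Fintype V] [Fintype Q] (σ : V → Q → ι)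
    {T : Submodule F (Q → F)} {k : ℕ} (h : Cod T k) :
    Cod (localCode σ T) (Fintype.card V * k) := by
  let π : (ι → F) →ₗ[F] (V → (Q → F) ⧸ T) :=
    LinearMap.pi fun v => T.mkQ ∘ₗ LinearMap.funLeft F F (σ v)
  have hker : LinearMap.ker π = Pool.Agent.P.MP_55663b_lc.localCode σ T := by
    ext x
    rw [mem_localCode, LinearMap.mem_ker, funext_iff]
    simp only [π, LinearMap.pi_apply, LinearMap.comp_apply, Submodule.mkQ_apply, Pi.zero_apply,
      Submodule.Quotient.mk_eq_zero]
    rfl
  have h1 := LinearMap.finrank_range_add_finrank_ker π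
  have h2 := Submodule.finrank_le (LinearMap.range π)
  have h3 := Submodule.finrank_quotient_add_finrank T
  rw [Module.finrank_pi_fintype] at h2
  simp only [Finset.sum_const, Finset.card_univ, smul_eq_mul] at h2
  rw [hker, Module.finrank_fintype_fun_eq_card] at h1
  rw [Module.finrank_fintype_fun_eq_card] at h3
  unfold Cod at *
  have h4 : finrank F ((Q → F) ⧸ T) ≤ k := by omega
  have h5 := Nat.mul_le_mul_left (Fintype.card V) h4
  omega

theorem Cod.inf {ι : Type} [Fintype ι] {S T : Submodule F (ι → F)} {k l : ℕ} (hS : Cod S k)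
    (hT : Cod T l) : Cod (S ⊓ T) (k + l) := by
  have h1 := Submodule.finrank_sup_add_finrank_inf_eq S T
  have h2 := Submodule.finrank_le (S ⊔ T)
  rw [Module.finrank_fintype_fun_eq_card] at h2
  unfold Cod at *
  omega

theorem exists_dual_check {Q : Type} [Fintype Q] {T : Submodule F (Q → F)} {x : Q → F}
    (hx : x ∉ T) : ∃ h : Q → F, (∀ c ∈ T, ∑ q, h q * c q = 0) ∧ ∑ q, h q * x q ≠ 0 := by
  classical
  obtain ⟨f, hf1, hf2⟩ := Submodule.exists_dual_map_eq_bot_of_notMem hx inferInstance
  have e : ∀ c : Q → F, ∑ q, (f fun j => if q = j then 1 else 0) * c q = f c := by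
    intro c
    rw [LinearMap.pi_apply_eq_sum_univ f c]
    exact Finset.sum_congr rfl fun q _ => by rw [smul_eq_mul, mul_comm]
  refine ⟨fun q => f fun j => if q = j then 1 else 0, fun c hc => ?_, by rw [e]; exact hf1⟩
  rw [e]
  have : f c ∈ T.map f := Submodule.mem_map_of_mem hc
  rw [hf2] at this
  exact this

theorem F_cases (a : F) : a = 0 ∨ a = 1 := by
  revert a; decide

theorem ball_bound (ι : Type) [Fintype ι] [DecidableEq ι] (w : ℕ) (hw : 448 * w ≤ Fintype.card ι) :
    #{x : ι → F | hammingNorm x ≤ w} ^ 64 ≤ 2 ^ (2 * Fintype.card ι) := by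
  set n := Fintype.card ι with hn
  have h1 : ∑ x : ι → F, ∏ i, (if x i = 0 then 128 else 1 : ℕ) = 129 ^ n := by
    have := Finset.prod_univ_sum (fun _ : ι => (Finset.univ : Finset F))
      (fun _ b => (if b = 0 then 128 else 1 : ℕ))
    rw [Fintype.piFinset_univ] at this
    rw [← this]
    have e : ∑ b : F, (if b = 0 then 128 else 1 : ℕ) = 129 := by decide
    simp only [e, Finset.prod_const, Finset.card_univ, hn]
  have h2 : ∀ x : ι → F, hammingNorm x ≤ w →
      128 ^ (n - w) ≤ ∏ i, (if x i = 0 then 128 else 1 : ℕ) := by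
    intro x hx
    rw [Finset.prod_ite, Finset.prod_const, Finset.prod_const_one, mul_one]
    refine Nat.pow_le_pow_right (by norm_num) ?_
    have := Finset.card_filter_add_card_filter_not (s := Finset.univ) (fun i => x i = 0)
    rw [Finset.card_univ] at this
    unfold hammingNorm at hx
    simp only [ne_eq] at hx
    omega
  have h3 : #{x : ι → F | hammingNorm x ≤ w} * 128 ^ (n - w) ≤ 129 ^ n := by
    rw [← h1, ← smul_eq_mul, ← Finset.sum_const]
    refine le_trans (Finset.sum_le_sum fun x hx => h2 x (Finset.mem_filter.1 hx).2) ?_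
    exact Finset.sum_le_sum_of_subset (Finset.filter_subset _ _)
  set B := #{x : ι → F | hammingNorm x ≤ w}
  have h4 : (129 : ℕ) ^ 64 ≤ 2 * 128 ^ 64 := by norm_num
  have h5 : B ^ 64 * 128 ^ (64 * (n - w)) ≤ 2 ^ n * 128 ^ (64 * w) * 128 ^ (64 * (n - w)) := by
    calc B ^ 64 * 128 ^ (64 * (n - w)) = (B * 128 ^ (n - w)) ^ 64 := by
          rw [mul_pow, ← pow_mul, mul_comm (n - w)]
      _ ≤ (129 ^ n) ^ 64 := Nat.pow_le_pow_left h3 _
      _ = (129 ^ 64) ^ n := by rw [← pow_mul, ← pow_mul, mul_comm]
      _ ≤ (2 * 128 ^ 64) ^ n := Nat.pow_le_pow_left h4 _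
      _ = 2 ^ n * 128 ^ (64 * w + 64 * (n - w)) := by
          rw [mul_pow, ← pow_mul]
          congr 2
          omega
      _ = _ := by rw [pow_add, mul_assoc]
  have h6 := Nat.le_of_mul_le_mul_right h5 (by positivity)
  refine h6.trans ?_
  rw [two_mul, pow_add]
  refine Nat.mul_le_mul_left _ ?_
  rw [show (128 : ℕ) = 2 ^ 7 by norm_num, ← pow_mul]
  exact Nat.pow_le_pow_right (by norm_num) (by omega)

/-- Gilbert-Varshamov. -/
theorem exists_gv (ι : Type) [Fintype ι] :
    ∃ (C : Submodule F (ι → F)) (k : ℕ), Cod C k ∧ 32 * k ≤ Fintype.card ι ∧ Dist C 448 := by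
  classical
  set n := Fintype.card ι with hn
  set w := n / 448 with hw
  let P : Submodule F (ι → F) → Prop := fun C => ∀ c ∈ C, c ≠ 0 → w < hammingNorm c
  obtain ⟨C, hC, hmax⟩ := Set.Finite.exists_maximalFor (fun C : Submodule F (ι → F) => finrank F C)
    {C | P C} (Set.toFinite _) ⟨⊥, fun c hc h0 => absurd ((Submodule.mem_bot F).1 hc) h0⟩
  have hcover : ∀ v : ι → F, ∃ c ∈ C, hammingNorm (v + c) ≤ w := by
    intro v
    by_contra hv
    push Not at hv
    have hvC : v ∉ C := by
      intro h
      have := hv v h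
      have e : v + v = 0 := by ext i; exact CharTwo.add_self_eq_zero _
      rw [e, hammingNorm_zero] at this
      omega
    have hP : P (C ⊔ Submodule.span F {v}) := by
      intro c hc h0
      obtain ⟨y, hy, z, hz, rfl⟩ := Submodule.mem_sup.1 hc
      obtain ⟨a, rfl⟩ := Submodule.mem_span_singleton.1 hz
      rcases F_cases a with rfl | rfl
      · rw [zero_smul, add_zero] at h0 ⊢
        exact hC y hy h0
      · rw [one_smul, add_comm]
        exact hv y hy
    have hlt : C < C ⊔ Submodule.span F {v} := by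
      refine lt_of_le_of_ne le_sup_left fun h => hvC ?_
      rw [h]
      exact Submodule.mem_sup_right (Submodule.mem_span_singleton_self v)
    have h1 := Submodule.finrank_lt_finrank_of_lt hlt
    have h2 := hmax hP h1.le
    exact absurd h2 (not_le.2 h1)
  have hball := ball_bound ι w (by omega)
  set Ball : Finset (ι → F) := {x : ι → F | hammingNorm x ≤ w} with hBall
  have hcount : 2 ^ n ≤ 2 ^ finrank F C * #Ball := by
    have h1 : Fintype.card (ι → F) ≤ Fintype.card (C × Ball) := by
      refine Fintype.card_le_of_surjective (fun p => p.2.1 + p.1.1) fun v => ?_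
      obtain ⟨c, hc, hvc⟩ := hcover v
      refine ⟨(⟨c, hc⟩, ⟨v + c, by simpa [hBall] using hvc⟩), ?_⟩
      ext i
      simp only [Pi.add_apply, add_assoc, CharTwo.add_self_eq_zero, add_zero]
    rw [Fintype.card_prod, Module.card_eq_pow_finrank (K := F) (V := C), Fintype.card_fun,
      ZMod.card, Fintype.card_coe] at h1
    exact h1
  have hle : finrank F C ≤ n := by
    have := Submodule.finrank_le C
    rwa [Module.finrank_fintype_fun_eq_card] at this
  refine ⟨C, n - finrank F C, by unfold Cod; omega, ?_, fun c hc h0 => ?_⟩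
  · have h1 : 2 ^ (n - finrank F C) ≤ #Ball := by
      have : 2 ^ n = 2 ^ finrank F C * 2 ^ (n - finrank F C) := by
        rw [← pow_add]; congr 1; omega
      rw [this] at hcount
      exact Nat.le_of_mul_le_mul_left hcount (by positivity)
    have h2 := (Nat.pow_le_pow_left h1 64).trans hball
    rw [← pow_mul] at h2
    have := (Nat.pow_le_pow_iff_right (by norm_num)).1 h2
    omega
  · have := hC c hc h0
    omega

/-- The tensor product of two codes. -/
def tens {A B : Type} (CA : Submodule F (A → F)) (CB : Submodule F (B → F)) :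
    Submodule F (A × B → F) :=
  localCode (fun a b => (a, b)) CB ⊓ localCode (fun b a => (a, b)) CA

theorem mem_tens {A B : Type} {CA : Submodule F (A → F)} {CB : Submodule F (B → F)}
    {x : A × B → F} :
    x ∈ tens CA CB ↔ (∀ a, (fun b => x (a, b)) ∈ CB) ∧ ∀ b, (fun a => x (a, b)) ∈ CA := by
  simp only [tens, Submodule.mem_inf, mem_localCode]

/-- Agreement testability of the tensor product. -/
def Agree {A B : Type} [Fintype A] [Fintype B] [DecidableEq A] [DecidableEq B]
    (CA : Submodule F (A → F)) (CB : Submodule F (B → F)) (K : ℕ) : Prop :=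
  ∀ X Y : A × B → F, (∀ a, (fun b => X (a, b)) ∈ CB) → (∀ b, (fun a => Y (a, b)) ∈ CA) →
    ∃ W ∈ tens CA CB,
      Fintype.card B * #{a | (fun b => W (a, b)) ≠ fun b => X (a, b)} +
        Fintype.card A * #{b | (fun a => W (a, b)) ≠ fun a => Y (a, b)} ≤ K * #{p | X p ≠ Y p}

/-- Preimages under maps with bounded fibres. -/
theorem card_preimage_le {X Y : Type} [Fintype X] [DecidableEq Y] (f : X → Y) (L : ℕ)
    (hf : ∀ y, #{x | f x = y} ≤ L) (S : Finset Y) : #{x | f x ∈ S} ≤ L * #S := by
  refine Finset.card_le_mul_card_image_of_maps_to (f := f) (fun x hx => (mem_filter.1 hx).2) L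
    fun y _ => le_trans (Finset.card_le_card fun x hx => ?_) (hf y)
  simp only [mem_filter, mem_univ, true_and] at hx ⊢
  exact hx.2

end Pool.Agent.P.MP_55663b_lc
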