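import Mathlib
import Pool.Agent.P.MP_55663b_lc.Codes

/-!
Counting dual words of weight at most three in codes whose coordinates carry signatures.
-/

open Finset Module

namespace Pool.Agent.P.MP_55663b_lc

open Classical in
/-- Nonzero dual words of weight at most three. -/
noncomputable def lowDual {κ : Type} [Fintype κ] (C : Submodule F (κ → F)) : Finset (κ → F) :=
  {u | (∀ c ∈ C, ∑ i, u i * c i = 0) ∧ 0 < hammingNorm u ∧ hammingNorm u ≤ 3}

open Classical in
/-- Nonzero dual words of weight at most three that reject `w`. -/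
noncomputable def violDual {κ : Type} [Fintype κ] (C : Submodule F (κ → F)) (w : κ → F) :
    Finset (κ → F) :=
  {u | (∀ c ∈ C, ∑ i, u i * c i = 0) ∧ 0 < hammingNorm u ∧ hammingNorm u ≤ 3 ∧
    ∑ i, u i * w i ≠ 0}

theorem key_le {κ X : Type} [Fintype κ] [Fintype X] (C : Submodule F (κ → F))
    (kx ky kz : X → κ) (e : X → F) (hinj : Function.Injective kx) (hy : ∀ x, kx x ≠ ky x)
    (hz : ∀ x, kx x ≠ kz x) (hC : ∀ c ∈ C, ∀ x, c (kx x) + c (ky x) + e x * c (kz x) = 0)
    (w : κ → F) :
    #{x | w (kx x) + w (ky x) + e x * w (kz x) ≠ 0} ≤ 3 * #(violDual C w) := by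
  classical
  let u : X → κ → F := fun x =>
    Pi.single (kx x) 1 + Pi.single (ky x) 1 + Pi.single (kz x) (e x)
  have hu : ∀ x (v : κ → F), ∑ i, u x i * v i = v (kx x) + v (ky x) + e x * v (kz x) := by
    intro x v
    simp [u, add_mul, Finset.sum_add_distrib, Pi.single_apply]
  have hk : ∀ x, u x (kx x) ≠ 0 := by
    intro x
    simp [u, Pi.single_eq_of_ne (hy x), Pi.single_eq_of_ne (hz x)]
  have hw : ∀ x, hammingNorm (u x) ≤ 3 := by
    intro x
    refine le_trans (card_le_card (t := {kx x, ky x, kz x}) fun i hi => ?_) card_le_three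
    by_contra hcon
    simp only [mem_insert, mem_singleton, not_or] at hcon
    apply (mem_filter.1 hi).2
    simp [u, Pi.single_eq_of_ne hcon.1, Pi.single_eq_of_ne hcon.2.1,
      Pi.single_eq_of_ne hcon.2.2]
  refine card_le_mul_card_image_of_maps_to (f := u) (fun x hx => ?_) 3 fun v hv => ?_
  · simp only [violDual, mem_filter, mem_univ, true_and]
    refine ⟨fun c hc => by rw [hu]; exact hC c hc x, ?_, hw x, by rw [hu]; exact (mem_filter.1 hx).2⟩
    exact hammingNorm_pos_iff.2 (Function.ne_iff.2 ⟨kx x, hk x⟩)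
  · simp only [violDual, mem_filter, mem_univ, true_and] at hv
    refine le_trans ?_ hv.2.2.1
    refine card_le_card_of_injOn kx (fun x hx => ?_) hinj.injOn
    have := (mem_filter.1 (mem_coe.1 hx)).2
    refine mem_coe.2 (mem_filter.2 ⟨mem_univ _, ?_⟩)
    rw [← this]
    exact hk x

theorem sum_supp {κ : Type} [Fintype κ] (u f : κ → F) :
    ∑ i, u i * f i = ∑ i ∈ univ.filter (fun i => u i ≠ 0), f i := by
  rw [Finset.sum_filter]
  refine Finset.sum_congr rfl fun i _ => ?_
  rcases F_cases (u i) with h | h <;> simp [h]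

theorem F_add_eq_zero {a b : F} : a + b = 0 ↔ a = b := by
  revert a b; decide

theorem F_ext {a b : F} : (a ≠ 0 ↔ b ≠ 0) → a = b := by
  revert a b; decide

theorem count_lowDual {κ I E : Type} [Fintype κ] [Fintype I] (C : Submodule F (Bool × κ → F))
    (l : I → E → F) (hl : ∀ s : I → F, (∀ c, ∑ a, s a * l a c = 0) → s = 0)
    (arb : κ → E → F) (sig : κ → I → F) (hsig : ∀ x, sig x ≠ 0) {Dg R : ℕ}
    (hD : ∀ a, #{x | sig x a ≠ 0} ≤ Dg) (hR : ∀ x, #{a | sig x a ≠ 0} ≤ R)
    (hC : ∀ (ε : Bool) (c : E),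
      (fun y : Bool × κ => if y.1 = ε then arb y.2 c else ∑ a, sig y.2 a * l a c) ∈ C) :
    #(lowDual C) ≤ (1 + 2 * Dg + 6 * R * Dg * (2 * Dg)) * Fintype.card (Bool × κ) := by
  classical
  let fn : Bool → Bool × κ → E → F := fun ε y c =>
    if y.1 = ε then arb y.2 c else ∑ a, sig y.2 a * l a c
  have hinj : ∀ s s' : I → F, (∀ c, ∑ a, s a * l a c = ∑ a, s' a * l a c) → s = s' := by
    intro s s' h
    refine sub_eq_zero.1 (hl _ fun c => ?_)
    simp only [Pi.sub_apply, sub_mul, Finset.sum_sub_distrib, h, sub_self]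
  have hD2 : ∀ a, #{y : Bool × κ | sig y.2 a ≠ 0} ≤ 2 * Dg := by
    intro a
    refine le_trans (card_le_card (t := univ ×ˢ univ.filter fun x => sig x a ≠ 0) fun y hy => ?_) ?_
    · exact mem_product.2 ⟨mem_univ _, mem_filter.2 ⟨mem_univ _, (mem_filter.1 hy).2⟩⟩
    · rw [card_product, card_univ, Fintype.card_bool]
      exact Nat.mul_le_mul_left _ (hD a)
  -- the last element is determined up to bounded ambiguity
  let Last : (Bool → E → F) → Finset (Bool × κ) := fun g =>
    {z | ∀ c, ∑ a, sig z.2 a * l a c = g z.1 c}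
  have hLast : ∀ g, #(Last g) ≤ 2 * Dg := by
    intro g
    have h1 : ∀ ε, #{x : κ | ∀ c, ∑ a, sig x a * l a c = g ε c} ≤ Dg := by
      intro ε
      rcases Finset.eq_empty_or_nonempty
        (univ.filter fun x : κ => ∀ c, ∑ a, sig x a * l a c = g ε c) with h | ⟨x0, hx0⟩
      · rw [h]; simp
      · obtain ⟨a, ha⟩ := Function.ne_iff.1 (hsig x0)
        refine le_trans (card_le_card fun x hx => mem_filter.2 ⟨mem_univ _, ?_⟩) (hD a)
        rw [hinj (sig x) (sig x0) fun c =>
          ((mem_filter.1 hx).2 c).trans ((mem_filter.1 hx0).2 c).symm]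
        exact ha
    have h2 : #(Last g) = ∑ ε, #{x : κ | ∀ c, ∑ a, sig x a * l a c = g ε c} := by
      simp only [Last, card_filter, Fintype.sum_prod_type]
    rw [h2, Fintype.sum_bool, two_mul]
    exact Nat.add_le_add (h1 _) (h1 _)
  -- the second element
  have hch : ∀ x : κ, ∃ s : I → F, #{a | s a ≠ 0} ≤ 2 * R ∧
      ∀ s' : I → F, #{a | s' a ≠ 0} ≤ 2 * R → (∀ c, arb x c = ∑ a, s' a * l a c) → s' = s := by
    intro x
    by_cases h : ∃ s : I → F, #{a | s a ≠ 0} ≤ 2 * R ∧ ∀ c, arb x c = ∑ a, s a * l a c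
    · obtain ⟨s, hs1, hs2⟩ := h
      exact ⟨s, hs1, fun s' _ hs' => hinj _ _ fun c => (hs' c).symm.trans (hs2 c)⟩
    · exact ⟨0, by simp, fun s' h1 h2 => absurd ⟨s', h1, h2⟩ h⟩
  choose sa hsa1 hsa2 using hch
  let Near : Bool × κ → Finset (Bool × κ) := fun y =>
    ((univ.filter fun a => sig y.2 a ≠ 0) ∪ (univ.filter fun a => sa y.2 a ≠ 0)).biUnion
      fun a => univ.filter fun y' => sig y'.2 a ≠ 0
  have hNear : ∀ y, #(Near y) ≤ 6 * R * Dg := by
    intro y
    refine le_trans (card_biUnion_le_card_mul _ _ (2 * Dg) fun a _ => hD2 a) ?_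
    have h1 := card_union_le (univ.filter fun a => sig y.2 a ≠ 0) (univ.filter fun a => sa y.2 a ≠ 0)
    have h2 := hR y.2
    have h3 := hsa1 y.2
    calc _ ≤ (3 * R) * (2 * Dg) := Nat.mul_le_mul_right _ (by omega)
      _ = _ := by ring
  have hfn1 : ∀ z c, fn (!z.1) z c = ∑ a, sig z.2 a * l a c := by
    intro z c; simp [fn]
  have hnear3 : ∀ x x' z : Bool × κ, x.1 = x'.1 →
      (∀ ε c, fn ε x c + fn ε x' c + fn ε z c = 0) → x' ∈ Near x ∨ z ∈ Near x ∨ x ∈ Near z := by
    intro x x' z hxx hrel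
    obtain ⟨a, ha⟩ := Function.ne_iff.1 (hsig x.2)
    by_cases h1 : sig x'.2 a = 0
    swap
    · exact Or.inl (mem_biUnion.2 ⟨a, mem_union_left _ (mem_filter.2 ⟨mem_univ _, ha⟩),
        mem_filter.2 ⟨mem_univ _, h1⟩⟩)
    have hrel' : ∀ c, fn (!x.1) z c = ∑ a, (sig x.2 + sig x'.2) a * l a c := by
      intro c
      have := hrel (!x.1) c
      rw [hfn1, hxx, hfn1, F_add_eq_zero, ← hxx] at this
      rw [← this]
      simp only [Pi.add_apply, add_mul, Finset.sum_add_distrib]
    have hsa : (sig x.2 + sig x'.2) a ≠ 0 := by simpa [h1] using ha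
    by_cases h2 : z.1 = x.1
    · right; left
      rw [← h2] at hrel'
      simp only [hfn1] at hrel'
      refine mem_biUnion.2 ⟨a, mem_union_left _ (mem_filter.2 ⟨mem_univ _, ha⟩),
        mem_filter.2 ⟨mem_univ _, ?_⟩⟩
      rw [hinj _ _ hrel']
      exact hsa
    · right; right
      have h3 : z.1 = !x.1 := by
        revert h2
        cases z.1 <;> cases x.1 <;> simp
      simp only [fn, if_pos h3] at hrel'
      have h4 : #{b | (sig x.2 + sig x'.2) b ≠ 0} ≤ 2 * R := by
        refine le_trans (card_le_card (t := (univ.filter fun b => sig x.2 b ≠ 0) ∪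
          (univ.filter fun b => sig x'.2 b ≠ 0)) fun b hb => ?_) ((card_union_le _ _).trans ?_)
        · by_contra hcon
          simp only [mem_union, mem_filter, mem_univ, true_and, not_or, not_not] at hcon
          apply (mem_filter.1 hb).2
          simp [hcon.1, hcon.2]
        · have := hR x.2
          have := hR x'.2
          omega
      refine mem_biUnion.2 ⟨a, mem_union_right _ (mem_filter.2 ⟨mem_univ _, ?_⟩),
        mem_filter.2 ⟨mem_univ _, ha⟩⟩
      rw [← hsa2 z.2 _ h4 hrel']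
      exact hsa
  let S1 : Finset (Finset (Bool × κ)) := univ.image fun y => {y}
  let S2 : Finset (Finset (Bool × κ)) :=
    univ.biUnion fun y => (Last fun ε c => fn (!ε) y c).image fun z => {y, z}
  let S3 : Finset (Finset (Bool × κ)) :=
    univ.biUnion fun y => (Near y).biUnion fun y' =>
      (Last fun ε c => fn (!ε) y c + fn (!ε) y' c).image fun z => {y, y', z}
  have hS3 : ∀ y y' z, y' ∈ Near y → (∀ ε c, fn ε y c + fn ε y' c + fn ε z c = 0) →
      ({y, y', z} : Finset (Bool × κ)) ∈ S3 := by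
    intro y y' z h1 h2
    refine mem_biUnion.2 ⟨y, mem_univ _, mem_biUnion.2 ⟨y', h1, mem_image.2 ⟨z, ?_, rfl⟩⟩⟩
    refine mem_filter.2 ⟨mem_univ _, fun c => ?_⟩
    rw [← hfn1]
    exact (F_add_eq_zero.1 (h2 _ c)).symm
  have hS3' : ∀ x x' z : Bool × κ, x.1 = x'.1 →
      (∀ ε c, fn ε x c + fn ε x' c + fn ε z c = 0) → ({x, x', z} : Finset (Bool × κ)) ∈ S3 := by
    intro x x' z h1 h2
    rcases hnear3 x x' z h1 h2 with h | h | h
    · exact hS3 _ _ _ h h2
    · rw [pair_comm x' z]
      exact hS3 _ _ _ h fun ε c => by rw [← h2 ε c]; ring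
    · rw [pair_comm x' z, insert_comm]
      exact hS3 _ _ _ h fun ε c => by rw [← h2 ε c]; ring
  have hmaps : ∀ u ∈ lowDual C, (univ.filter fun y => u y ≠ 0) ∈ S1 ∪ S2 ∪ S3 := by
    intro u hu
    simp only [lowDual, mem_filter, mem_univ, true_and] at hu
    obtain ⟨h1, h2, h3⟩ := hu
    have hrel : ∀ ε c, ∑ y ∈ univ.filter (fun y => u y ≠ 0), fn ε y c = 0 := fun ε c => by
      rw [← sum_supp]; exact h1 _ (hC ε c)
    have hcard : #(univ.filter fun y => u y ≠ 0) = 1 ∨ #(univ.filter fun y => u y ≠ 0) = 2 ∨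
        #(univ.filter fun y => u y ≠ 0) = 3 := by
      unfold hammingNorm at h2 h3
      omega
    rcases hcard with h | h | h
    · obtain ⟨y, hy⟩ := card_eq_one.1 h
      exact mem_union_left _ (mem_union_left _ (mem_image.2 ⟨y, mem_univ _, hy.symm⟩))
    · obtain ⟨y, z, hyz, hU⟩ := card_eq_two.1 h
      rw [hU] at hrel ⊢
      refine mem_union_left _ (mem_union_right _ (mem_biUnion.2 ⟨y, mem_univ _,
        mem_image.2 ⟨z, mem_filter.2 ⟨mem_univ _, fun c => ?_⟩, rfl⟩⟩))
      have := hrel (!z.1) c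
      rw [sum_pair hyz, F_add_eq_zero, hfn1] at this
      exact this.symm
    · obtain ⟨x, y, z, hxy, hxz, hyz, hU⟩ := card_eq_three.1 h
      rw [hU] at hrel ⊢
      have hrel' : ∀ ε c, fn ε x c + fn ε y c + fn ε z c = 0 := by
        intro ε c
        have := hrel ε c
        rwa [sum_insert (by simp [hxy, hxz]), sum_pair hyz, ← add_assoc] at this
      refine mem_union_right _ ?_
      by_cases e1 : x.1 = y.1
      · exact hS3' _ _ _ e1 hrel'
      · by_cases e2 : x.1 = z.1
        · rw [pair_comm y z]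
          exact hS3' _ _ _ e2 fun ε c => by rw [← hrel' ε c]; ring
        · have e3 : y.1 = z.1 := by
            revert e1 e2
            cases x.1 <;> cases y.1 <;> cases z.1 <;> simp
          rw [insert_comm, pair_comm x z]
          exact hS3' _ _ _ e3 fun ε c => by rw [← hrel' ε c]; ring
  have hcount : #(lowDual C) ≤ #(S1 ∪ S2 ∪ S3) := by
    refine card_le_card_of_injOn (fun u => univ.filter fun y => u y ≠ 0)
      (fun u hu => hmaps u hu) fun u _ u' _ h => ?_
    ext y
    have : y ∈ (univ.filter fun y => u y ≠ 0) ↔ y ∈ (univ.filter fun y => u' y ≠ 0) := by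
      simp only at h
      rw [h]
    simp only [mem_filter, mem_univ, true_and] at this
    exact F_ext this
  have c1 : #S1 ≤ Fintype.card (Bool × κ) := card_image_le
  have c2 : #S2 ≤ Fintype.card (Bool × κ) * (2 * Dg) :=
    card_biUnion_le_card_mul _ _ _ fun y _ =>
      card_image_le.trans (hLast fun ε c => fn (!ε) y c)
  have c3 : #S3 ≤ Fintype.card (Bool × κ) * (6 * R * Dg * (2 * Dg)) :=
    card_biUnion_le_card_mul _ _ _ fun y _ =>
      (card_biUnion_le_card_mul _ _ _ fun y' _ =>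
        card_image_le.trans (hLast fun ε c => fn (!ε) y c + fn (!ε) y' c)).trans
        (Nat.mul_le_mul_right _ (hNear y))
  calc #(lowDual C) ≤ #S1 + #S2 + #S3 :=
        hcount.trans ((card_union_le _ _).trans (Nat.add_le_add_right (card_union_le _ _) _))
    _ ≤ Fintype.card (Bool × κ) + Fintype.card (Bool × κ) * (2 * Dg) +
        Fintype.card (Bool × κ) * (6 * R * Dg * (2 * Dg)) :=
        Nat.add_le_add (Nat.add_le_add c1 c2) c3
    _ = _ := by ring

end Pool.Agent.P.MP_55663b_lc
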