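import Mathlib

/-!
Uniform spectral gap for groups generated by three elements of order five that pairwise generate
Heisenberg groups.
-/

open scoped RealInnerProductSpace
open Finset

namespace Pool.Agent.P.MP_55663b_lc

section rep

variable {G : Type*} [Group G] {E : Type*} [NormedAddCommGroup E] [InnerProductSpace ℝ E]
variable (ρ : G →* Module.End ℝ E)

/-- The average over the cyclic group of order five generated by `g`. -/
noncomputable def avg (g : G) : Module.End ℝ E := (1 / 5 : ℝ) • ∑ i ∈ range 5, ρ (g ^ i)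

variable {ρ}

theorem mul_avg {g : G} (hg : g ^ 5 = 1) : ρ g * avg ρ g = avg ρ g := by
  unfold avg
  rw [mul_smul_comm, Finset.mul_sum]
  congr 1
  simp only [← map_mul, ← pow_succ']
  simp only [Finset.sum_range_succ, Finset.sum_range_zero, zero_add]
  norm_num
  rw [← map_pow, ← map_pow, ← map_pow, ← map_pow, hg, map_one]
  abel

theorem pow_mul_avg {g : G} (hg : g ^ 5 = 1) (n : ℕ) : ρ (g ^ n) * avg ρ g = avg ρ g := by
  induction n with
  | zero => simp
  | succ n ih => rw [pow_succ, map_mul, mul_assoc, mul_avg hg, ih]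

theorem avg_apply_of_fixed {g : G} {v : E} (hv : ρ g v = v) : avg ρ g v = v := by
  have h : ∀ n : ℕ, ρ (g ^ n) v = v := by
    intro n
    induction n with
    | zero => simp
    | succ n ih => rw [pow_succ, map_mul, Module.End.mul_apply, hv, ih]
  unfold avg
  simp only [LinearMap.smul_apply, LinearMap.sum_apply, h, Finset.sum_const, Finset.card_range]
  rw [← Nat.cast_smul_eq_nsmul ℝ, smul_smul]
  norm_num

theorem fixed_avg {g : G} (hg : g ^ 5 = 1) (v : E) : ρ g (avg ρ g v) = avg ρ g v := by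
  rw [← Module.End.mul_apply, mul_avg hg]

theorem avg_avg {g : G} (hg : g ^ 5 = 1) (v : E) : avg ρ g (avg ρ g v) = avg ρ g v :=
  avg_apply_of_fixed (fixed_avg hg v)

theorem commute_avg {g h : G} (hc : Commute h g) : Commute (ρ h) (avg ρ g) := by
  unfold avg
  refine Commute.smul_right (Commute.sum_right _ _ _ fun i _ => ?_) _
  exact (hc.pow_right i).map ρ

theorem commute_avg_avg {g h : G} (hc : Commute h g) : Commute (avg ρ h) (avg ρ g) := by
  conv_lhs => unfold avg
  refine Commute.smul_left (Commute.sum_left _ _ _ fun i _ => ?_) _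
  exact commute_avg (hc.pow_left i)

variable (hρ : ∀ g u v, ⟪ρ g u, ρ g v⟫ = ⟪u, v⟫)
include hρ

theorem inner_fixed_avg {g : G} {u : E} (hu : ρ g u = u) (v : E) : ⟪u, avg ρ g v⟫ = ⟪u, v⟫ := by
  have h : ∀ n : ℕ, ⟪u, ρ (g ^ n) v⟫ = ⟪u, v⟫ := by
    intro n
    induction n with
    | zero => simp
    | succ n ih =>
      rw [pow_succ', map_mul, Module.End.mul_apply, ← ih, ← hρ g u (ρ (g ^ n) v), hu]
  unfold avg
  simp only [LinearMap.smul_apply, LinearMap.sum_apply, inner_smul_right, inner_sum, h,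
    Finset.sum_const, Finset.card_range]
  simp only [nsmul_eq_mul]
  push_cast
  ring

theorem avg_symm {g : G} (hg : g ^ 5 = 1) (u v : E) : ⟪avg ρ g u, v⟫ = ⟪u, avg ρ g v⟫ := by
  rw [← inner_fixed_avg hρ (fixed_avg hg u) v, real_inner_comm,
    inner_fixed_avg hρ (fixed_avg hg v) u, real_inner_comm]

/-- The angle estimate in the Heisenberg group. -/
theorem heis_angle {x y z : G} (hz : z ^ 5 = 1)
    (hxy : x * y = y * x * z) (hxz : Commute x z) (hyz : Commute y z)
    {f : E} (hf : ρ x f = f) (hfz : avg ρ z f = 0) :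
    ⟪f, avg ρ y f⟫ = 1 / 5 * ⟪f, f⟫ := by
  -- x y^j = y^j x z^j
  have h1 : ∀ j : ℕ, x * y ^ j = y ^ j * z ^ j * x := by
    intro j
    induction j with
    | zero => simp
    | succ j ih =>
      calc x * y ^ (j + 1) = (x * y ^ j) * y := by rw [pow_succ, mul_assoc]
        _ = y ^ j * z ^ j * (x * y) := by rw [ih, mul_assoc]
        _ = y ^ j * (z ^ j * y) * (x * z) := by rw [hxy]; simp only [mul_assoc]
        _ = y ^ j * (y * z ^ j) * (z * x) := by rw [(hyz.pow_right j).eq, hxz.eq]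
        _ = y ^ (j + 1) * z ^ (j + 1) * x := by simp only [pow_succ, mul_assoc]
  have h2 : ∀ j k : ℕ, ⟪f, ρ (y ^ j * z ^ k) f⟫ = ⟪f, ρ (y ^ j * z ^ (k + j)) f⟫ := by
    intro j k
    have e : x * (y ^ j * z ^ k) = y ^ j * z ^ (k + j) * x := by
      calc x * (y ^ j * z ^ k) = y ^ j * z ^ j * (x * z ^ k) := by
            rw [← mul_assoc, h1, mul_assoc]
        _ = y ^ j * z ^ j * (z ^ k * x) := by rw [(hxz.pow_right k).eq]
        _ = y ^ j * z ^ (k + j) * x := by rw [add_comm k j, pow_add]; simp only [mul_assoc]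
    rw [← hρ x f, hf, ← Module.End.mul_apply, ← map_mul, e, map_mul, Module.End.mul_apply, hf]
  have hz' : ∀ k : ℕ, z ^ (k + 5) = z ^ k := fun k => by rw [pow_add, hz, mul_one]
  have h3 : ∀ j : ℕ, ∑ k ∈ range 5, ⟪f, ρ (y ^ j * z ^ k) f⟫ = 0 := by
    intro j
    have : ⟪f, ρ (y ^ j) (avg ρ z f)⟫ = 0 := by rw [hfz]; simp
    unfold avg at this
    simp only [LinearMap.smul_apply, LinearMap.sum_apply, map_smul, map_sum, inner_smul_right,
      inner_sum] at this
    simp only [map_mul, Module.End.mul_apply]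
    linarith
  have h4 : ∀ j : ℕ, j = 1 ∨ j = 2 ∨ j = 3 ∨ j = 4 → ⟪f, ρ (y ^ j) f⟫ = 0 := by
    intro j hj
    have h3j := h3 j
    simp only [Finset.sum_range_succ, Finset.sum_range_zero, zero_add] at h3j
    have a0 := h2 j 0
    have a1 := h2 j 1
    have a2 := h2 j 2
    have a3 := h2 j 3
    have a4 := h2 j 4
    have b0 := hz' 0
    have b1 := hz' 1
    have b2 := hz' 2
    have b3 := hz' 3
    have e0 : ⟪f, ρ (y ^ j) f⟫ = ⟪f, ρ (y ^ j * z ^ 0) f⟫ := by simp
    rw [e0]
    rcases hj with rfl | rfl | rfl | rfl <;>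
    · norm_num only at a0 a1 a2 a3 a4 b0 b1 b2 b3
      simp only [b0, b1, b2, b3] at a0 a1 a2 a3 a4
      linarith
  unfold avg
  simp only [LinearMap.smul_apply, LinearMap.sum_apply, inner_smul_right, inner_sum]
  simp only [Finset.sum_range_succ, Finset.sum_range_zero, zero_add]
  rw [h4 1 (by simp), h4 2 (by simp), h4 3 (by simp), h4 4 (by simp)]
  simp

theorem pair_core {x y : G} (hx : x ^ 5 = 1) (hy : y ^ 5 = 1) (v : E)
    (hab : ⟪avg ρ x v, avg ρ y v⟫ ≤
      9 / 40 * (⟪avg ρ x v, avg ρ x v⟫ + ⟪avg ρ y v, avg ρ y v⟫)) :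
    -(9 / 40) * (⟪v - avg ρ x v, v - avg ρ x v⟫ + ⟪v - avg ρ y v, v - avg ρ y v⟫) ≤
      ⟪v - avg ρ x v, v - avg ρ y v⟫ := by
  set a := avg ρ x v with ha
  set b := avg ρ y v with hb
  have hva : ⟪v, a⟫ = ⟪a, a⟫ := by
    rw [ha, avg_symm hρ hx v (avg ρ x v), avg_avg hx]
  have hvb : ⟪v, b⟫ = ⟪b, b⟫ := by
    rw [hb, avg_symm hρ hy v (avg ρ y v), avg_avg hy]
  have cs1 := real_inner_mul_inner_self_le v (a + b)
  have cs2 := real_inner_mul_inner_self_le ((v - a) + (v - b)) v
  simp only [inner_add_left, inner_add_right, inner_sub_left, inner_sub_right,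
    real_inner_comm v a, real_inner_comm v b, real_inner_comm a b, hva, hvb] at cs1 cs2 ⊢
  have hn : 0 ≤ ⟪v, v⟫ := real_inner_self_nonneg
  have hA : 0 ≤ ⟪a, a⟫ := real_inner_self_nonneg
  have hB : 0 ≤ ⟪b, b⟫ := real_inner_self_nonneg
  have hT : 0 ≤ ⟪(v - a) + (v - b), (v - a) + (v - b)⟫ := real_inner_self_nonneg
  simp only [inner_add_left, inner_add_right, inner_sub_left, inner_sub_right,
    real_inner_comm v a, real_inner_comm v b, real_inner_comm a b, hva, hvb] at hT
  set n := ⟪v, v⟫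
  set A := ⟪a, a⟫
  set B := ⟪b, b⟫
  set c := ⟪a, b⟫
  have hs : A + B ≤ 29 / 20 * n := by
    by_contra h
    push Not at h
    have h1 : (A + B) * (A + B) ≤ n * (29 / 20 * (A + B)) := by
      refine le_trans cs1 (mul_le_mul_of_nonneg_left (by linarith) hn)
    nlinarith
  by_contra hcon
  push Not at hcon
  have hτ : 11 / 20 * n ≤ 2 * n - (A + B) := by linarith
  have ht : 4 * n - 3 * (A + B) + 2 * c < 11 / 20 * (2 * n - (A + B)) := by linarith
  have hc2 : (2 * n - (A + B)) * (2 * n - (A + B)) ≤ (4 * n - 3 * (A + B) + 2 * c) * n := by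
    convert cs2 using 2 <;> ring
  have ht0 : 0 ≤ 4 * n - 3 * (A + B) + 2 * c := by linarith
  set τ := 2 * n - (A + B)
  set t := 4 * n - 3 * (A + B) + 2 * c
  have hτ0 : 0 < τ := by linarith
  have h5 : t * (11 / 20 * n) ≤ t * τ := mul_le_mul_of_nonneg_left hτ ht0
  have h6 : t * τ < 11 / 20 * τ * τ := mul_lt_mul_of_pos_right ht hτ0
  nlinarith

/-- The pair inequality for a Heisenberg pair. -/
theorem pair_ineq {x y z : G} (hx : x ^ 5 = 1) (hy : y ^ 5 = 1) (hz : z ^ 5 = 1)
    (hxy : x * y = y * x * z) (hxz : Commute x z) (hyz : Commute y z) (v : E) :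
    -(9 / 40) * (⟪v - avg ρ x v, v - avg ρ x v⟫ + ⟪v - avg ρ y v, v - avg ρ y v⟫) ≤
      ⟪v - avg ρ x v, v - avg ρ y v⟫ := by
  have cxz : ∀ u, avg ρ x (avg ρ z u) = avg ρ z (avg ρ x u) := fun u => by
    rw [← Module.End.mul_apply, (commute_avg_avg hxz).eq, Module.End.mul_apply]
  have cyz : ∀ u, avg ρ y (avg ρ z u) = avg ρ z (avg ρ y u) := fun u => by
    rw [← Module.End.mul_apply, (commute_avg_avg hyz).eq, Module.End.mul_apply]
  -- splitting along the centre
  have split : ∀ u w : E, ⟪u, w⟫ =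
      ⟪avg ρ z u, avg ρ z w⟫ + ⟪u - avg ρ z u, w - avg ρ z w⟫ := by
    intro u w
    simp only [inner_sub_left, inner_sub_right, avg_symm hρ hz, avg_avg hz]
    ring
  set v0 := avg ρ z v with hv0
  set v1 := v - v0 with hv1
  have ex0 : avg ρ z (v - avg ρ x v) = v0 - avg ρ x v0 := by rw [map_sub, hv0, cxz]
  have ey0 : avg ρ z (v - avg ρ y v) = v0 - avg ρ y v0 := by rw [map_sub, hv0, cyz]
  have ex1 : v - avg ρ x v - (v0 - avg ρ x v0) = v1 - avg ρ x v1 := by
    rw [hv1, map_sub]; abel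
  have ey1 : v - avg ρ y v - (v0 - avg ρ y v0) = v1 - avg ρ y v1 := by
    rw [hv1, map_sub]; abel
  rw [split (v - avg ρ x v) (v - avg ρ x v), split (v - avg ρ y v) (v - avg ρ y v),
    split (v - avg ρ x v) (v - avg ρ y v), ex0, ey0, ex1, ey1]
  -- the part on which the centre acts trivially
  have h0 : 0 ≤ ⟪v0 - avg ρ x v0, v0 - avg ρ y v0⟫ := by
    have c1 : Commute (ρ x * avg ρ z) (ρ y * avg ρ z) := by
      have e1 : ρ x * avg ρ z * (ρ y * avg ρ z) = ρ (x * y) * (avg ρ z * avg ρ z) := by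
        rw [map_mul, mul_assoc, ← mul_assoc (avg ρ z), ← (commute_avg hyz).eq]
        simp only [mul_assoc]
      have e2 : ρ y * avg ρ z * (ρ x * avg ρ z) = ρ (y * x) * (avg ρ z * avg ρ z) := by
        rw [map_mul, mul_assoc, ← mul_assoc (avg ρ z), ← (commute_avg hxz).eq]
        simp only [mul_assoc]
      unfold Commute SemiconjBy
      rw [e1, e2, hxy, map_mul ρ (y * x) z, mul_assoc, ← mul_assoc (ρ z), mul_avg hz]
    have hPz : avg ρ z * avg ρ z = avg ρ z := LinearMap.ext fun u => avg_avg hz u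
    have hpow : ∀ {g : G}, Commute g z → ∀ n : ℕ,
        ρ (g ^ n) * avg ρ z = (ρ g * avg ρ z) ^ n * avg ρ z := by
      intro g hg n
      induction n with
      | zero => simp
      | succ n ih =>
        rw [pow_succ' g, map_mul, mul_assoc, ih, pow_succ', mul_assoc, mul_assoc]
        congr 1
        rw [← ih, ← mul_assoc, ← (commute_avg (hg.pow_left n)).eq, mul_assoc, hPz]
    have c2 : ∀ i j : ℕ, Commute (ρ (x ^ i) * avg ρ z) (ρ (y ^ j) * avg ρ z) := by
      intro i j
      have cx : Commute (ρ x * avg ρ z) (avg ρ z) :=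
        Commute.mul_left (commute_avg hxz) (Commute.refl _)
      have cy : Commute (ρ y * avg ρ z) (avg ρ z) :=
        Commute.mul_left (commute_avg hyz) (Commute.refl _)
      rw [hpow hxz, hpow hyz]
      refine Commute.mul_left (Commute.mul_right (c1.pow_pow i j) (cx.pow_left i)) ?_
      exact Commute.mul_right (cy.symm.pow_right j) (Commute.refl _)
    have c3 : Commute (avg ρ x * avg ρ z) (avg ρ y * avg ρ z) := by
      have ex : avg ρ x * avg ρ z = (1 / 5 : ℝ) • ∑ i ∈ range 5, ρ (x ^ i) * avg ρ z := by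
        conv_lhs => rw [show avg ρ x = (1 / 5 : ℝ) • ∑ i ∈ range 5, ρ (x ^ i) from rfl]
        rw [smul_mul_assoc, Finset.sum_mul]
      have ey : avg ρ y * avg ρ z = (1 / 5 : ℝ) • ∑ i ∈ range 5, ρ (y ^ i) * avg ρ z := by
        conv_lhs => rw [show avg ρ y = (1 / 5 : ℝ) • ∑ i ∈ range 5, ρ (y ^ i) from rfl]
        rw [smul_mul_assoc, Finset.sum_mul]
      rw [ex, ey]
      refine Commute.smul_left (Commute.smul_right ?_ _) _
      exact Commute.sum_left _ _ _ fun i _ => Commute.sum_right _ _ _ fun j _ => c2 i j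
    have c4 : avg ρ x (avg ρ y v0) = avg ρ y (avg ρ x v0) := by
      have := congrArg (fun T : Module.End ℝ E => T v) c3.eq
      simp only [Module.End.mul_apply] at this
      rw [← cyz, ← cxz, avg_avg hz] at this
      exact this
    set w := v0 - avg ρ y v0 with hw
    set u := w - avg ρ x w with hu
    have hu2 : u = (v0 - avg ρ x v0) - avg ρ y (v0 - avg ρ x v0) := by
      rw [hu, hw, map_sub, map_sub, c4]; abel
    have k1 : ⟪v0 - avg ρ x v0, w⟫ = ⟪v0, u⟫ := by
      rw [hu, inner_sub_left, inner_sub_right v0 w, avg_symm hρ hx]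
    have k2 : ⟪avg ρ y v0, u⟫ = 0 := by
      rw [avg_symm hρ hy, hu2, map_sub, avg_avg hy, sub_self, inner_zero_right]
    have k3 : ⟪avg ρ x w, u⟫ = 0 := by
      rw [avg_symm hρ hx, hu, map_sub, avg_avg hx, sub_self, inner_zero_right]
    have k4 : ⟪u, u⟫ = ⟪v0, u⟫ := by
      conv_lhs => rw [show ⟪u, u⟫ = ⟪w - avg ρ x w, u⟫ from rfl]
      rw [inner_sub_left, k3, hw, inner_sub_left, k2]
      ring
    rw [k1, ← k4]
    exact real_inner_self_nonneg
  -- the part without vectors fixed by the centre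
  have hz1 : avg ρ z v1 = 0 := by rw [hv1, map_sub, hv0, avg_avg hz, sub_self]
  have h1 := pair_core hρ hx hy v1 (by
    set a := avg ρ x v1 with ha
    set b := avg ρ y v1 with hb
    have haz : avg ρ z a = 0 := by rw [ha, ← cxz, hz1, map_zero]
    have hang := heis_angle hρ hz hxy hxz hyz (fixed_avg hx v1) haz
    rw [← ha] at hang
    have e1 : ⟪avg ρ y a, avg ρ y a⟫ = 1 / 5 * ⟪a, a⟫ := by
      rw [avg_symm hρ hy, avg_avg hy, hang]
    have e2 : ⟪avg ρ y a, b⟫ = ⟪a, b⟫ := by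
      rw [avg_symm hρ hy, hb, avg_avg hy]
    have cs := real_inner_mul_inner_self_le (avg ρ y a) b
    rw [e1, e2] at cs
    have hA : 0 ≤ ⟪a, a⟫ := real_inner_self_nonneg
    have hB : 0 ≤ ⟪b, b⟫ := real_inner_self_nonneg
    set A := ⟪a, a⟫
    set B := ⟪b, b⟫
    set c := ⟪a, b⟫
    by_contra h
    push Not at h
    have h7 : (9 / 40 * (A + B)) * (9 / 40 * (A + B)) < c * c :=
      mul_self_lt_mul_self (by positivity) h
    nlinarith [sq_nonneg (A - B), mul_nonneg hA hB])
  have p1 : 0 ≤ ⟪v0 - avg ρ x v0, v0 - avg ρ x v0⟫ := real_inner_self_nonneg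
  have p2 : 0 ≤ ⟪v0 - avg ρ y v0, v0 - avg ρ y v0⟫ := real_inner_self_nonneg
  linarith

/-- The spectral gap. -/
theorem gap [FiniteDimensional ℝ E] {x y z a b c : G}
    (hx : x ^ 5 = 1) (hy : y ^ 5 = 1) (hz : z ^ 5 = 1)
    (ha : a ^ 5 = 1) (hb : b ^ 5 = 1) (hc : c ^ 5 = 1)
    (hxy : x * y = y * x * a) (hxa : Commute x a) (hya : Commute y a)
    (hyz : y * z = z * y * b) (hyb : Commute y b) (hzb : Commute z b)
    (hzx : z * x = x * z * c) (hzc : Commute z c) (hxc : Commute x c)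
    (hfix : ∀ v, ρ x v = v → ρ y v = v → ρ z v = v → v = 0) (v : E) :
    ⟪avg ρ x v + avg ρ y v + avg ρ z v + v + v, avg ρ x v + avg ρ y v + avg ρ z v + v + v⟫ ≤
      25 * (243 / 250) * ⟪v, v⟫ := by
  let D : Module.End ℝ E := (1 - avg ρ x) + (1 - avg ρ y) + (1 - avg ρ z)
  have hD : ∀ u, D u = (u - avg ρ x u) + (u - avg ρ y u) + (u - avg ρ z u) := fun u => by
    simp [D]
  have hQ : ∀ {g : G}, g ^ 5 = 1 → ∀ u w : E,
      ⟪u - avg ρ g u, w⟫ = ⟪u - avg ρ g u, w - avg ρ g w⟫ := by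
    intro g hg u w
    rw [inner_sub_right, ← avg_symm hρ hg, map_sub, avg_avg hg]
    simp
  have hform : ∀ u w : E, ⟪D u, w⟫ = ⟪u - avg ρ x u, w - avg ρ x w⟫ +
      ⟪u - avg ρ y u, w - avg ρ y w⟫ + ⟪u - avg ρ z u, w - avg ρ z w⟫ := by
    intro u w
    rw [hD, inner_add_left, inner_add_left, ← hQ hx, ← hQ hy, ← hQ hz]
  have hlow : ∀ u : E, 1 / 10 * ⟪D u, u⟫ ≤ ⟪D u, D u⟫ := by
    intro u
    have p1 := pair_ineq hρ hx hy ha hxy hxa hya u
    have p2 := pair_ineq hρ hy hz hb hyz hyb hzb u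
    have p3 := pair_ineq hρ hz hx hc hzx hzc hxc u
    rw [hform u u, hD]
    set q1 := u - avg ρ x u
    set q2 := u - avg ρ y u
    set q3 := u - avg ρ z u
    simp only [inner_add_left, inner_add_right, real_inner_comm q1 q2, real_inner_comm q2 q3,
      real_inner_comm q3 q1]
    linarith
  have hup : ∀ u : E, ⟪D u, D u⟫ ≤ 3 * ⟪D u, u⟫ := by
    intro u
    rw [hform u u, hD]
    set q1 := u - avg ρ x u
    set q2 := u - avg ρ y u
    set q3 := u - avg ρ z u
    have s1 : 0 ≤ ⟪q1 - q2, q1 - q2⟫ := real_inner_self_nonneg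
    have s2 : 0 ≤ ⟪q2 - q3, q2 - q3⟫ := real_inner_self_nonneg
    have s3 : 0 ≤ ⟪q3 - q1, q3 - q1⟫ := real_inner_self_nonneg
    simp only [inner_add_left, inner_add_right, inner_sub_left, inner_sub_right,
      real_inner_comm q1 q2, real_inner_comm q2 q3, real_inner_comm q3 q1] at s1 s2 s3 ⊢
    linarith
  have hinj : Function.Injective D := by
    rw [← LinearMap.ker_eq_bot, LinearMap.ker_eq_bot']
    intro u hu
    have h := hform u u
    rw [hu, inner_zero_left] at h
    have s1 : 0 ≤ ⟪u - avg ρ x u, u - avg ρ x u⟫ := real_inner_self_nonneg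
    have s2 : 0 ≤ ⟪u - avg ρ y u, u - avg ρ y u⟫ := real_inner_self_nonneg
    have s3 : 0 ≤ ⟪u - avg ρ z u, u - avg ρ z u⟫ := real_inner_self_nonneg
    have e1 : u = avg ρ x u := sub_eq_zero.1 (inner_self_eq_zero.1 (by linarith : _ = (0 : ℝ)))
    have e2 : u = avg ρ y u := sub_eq_zero.1 (inner_self_eq_zero.1 (by linarith : _ = (0 : ℝ)))
    have e3 : u = avg ρ z u := sub_eq_zero.1 (inner_self_eq_zero.1 (by linarith : _ = (0 : ℝ)))
    apply hfix u
    · rw [e1, fixed_avg hx]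
    · rw [e2, fixed_avg hy]
    · rw [e3, fixed_avg hz]
  obtain ⟨u, hu⟩ := LinearMap.injective_iff_surjective.1 hinj v
  have hgap : 1 / 10 * ⟪v, v⟫ ≤ ⟪D v, v⟫ := by
    have h1 := hlow u
    have h2 : 0 ≤ ⟪D (v - (1 / 10 : ℝ) • u), v - (1 / 10 : ℝ) • u⟫ := by
      rw [hform]
      have s1 := @real_inner_self_nonneg E _ _ (v - (1 / 10 : ℝ) • u - avg ρ x (v - (1 / 10 : ℝ) • u))
      have s2 := @real_inner_self_nonneg E _ _ (v - (1 / 10 : ℝ) • u - avg ρ y (v - (1 / 10 : ℝ) • u))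
      have s3 := @real_inner_self_nonneg E _ _ (v - (1 / 10 : ℝ) • u - avg ρ z (v - (1 / 10 : ℝ) • u))
      linarith
    have h3 : ⟪D v, u⟫ = ⟪v, v⟫ := by
      rw [hform v u, real_inner_comm (u - avg ρ x u), real_inner_comm (u - avg ρ y u),
        real_inner_comm (u - avg ρ z u), ← hform u v, hu]
    rw [hu] at h1
    simp only [map_sub, map_smul, inner_sub_left, inner_sub_right, inner_smul_left,
      inner_smul_right, hu, h3, conj_trivial] at h2
    linarith
  have e : avg ρ x v + avg ρ y v + avg ρ z v + v + v = (5 : ℝ) • v - D v := by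
    rw [hD, show (5 : ℝ) • v = v + v + v + v + v by
      rw [show (5 : ℝ) = 1 + 1 + 1 + 1 + 1 by norm_num]; simp only [add_smul, one_smul]]
    abel
  rw [e]
  simp only [inner_sub_left, inner_sub_right, inner_smul_left, inner_smul_right, conj_trivial,
    real_inner_comm (D v) v]
  have := hup v
  linarith

/-- The spectral gap on an invariant subspace without fixed vectors. -/
theorem gap_sub [FiniteDimensional ℝ E] {x y z a b c : G}
    (hx : x ^ 5 = 1) (hy : y ^ 5 = 1) (hz : z ^ 5 = 1)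
    (ha : a ^ 5 = 1) (hb : b ^ 5 = 1) (hc : c ^ 5 = 1)
    (hxy : x * y = y * x * a) (hxa : Commute x a) (hya : Commute y a)
    (hyz : y * z = z * y * b) (hyb : Commute y b) (hzb : Commute z b)
    (hzx : z * x = x * z * c) (hzc : Commute z c) (hxc : Commute x c)
    (S : Submodule ℝ E) (hS : ∀ g, ∀ v ∈ S, ρ g v ∈ S)
    (hfix : ∀ v ∈ S, ρ x v = v → ρ y v = v → ρ z v = v → v = 0) (v : E) (hv : v ∈ S) :
    ⟪avg ρ x v + avg ρ y v + avg ρ z v + v + v, avg ρ x v + avg ρ y v + avg ρ z v + v + v⟫ ≤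
      25 * (243 / 250) * ⟪v, v⟫ := by
  let ρ' : G →* Module.End ℝ S :=
    { toFun := fun g => (ρ g).restrict (hS g)
      map_one' := by ext u; simp
      map_mul' := fun g h => by ext u; simp }
  have h1 : ∀ g (u : S), (ρ' g u : E) = ρ g u := fun g u => rfl
  have h2 : ∀ g (u : S), (avg ρ' g u : E) = avg ρ g u := by
    intro g u
    unfold avg
    simp only [LinearMap.smul_apply, LinearMap.sum_apply, Submodule.coe_smul, Submodule.coe_sum,
      h1]
  have := gap (ρ := ρ') (fun g u w => by rw [Submodule.coe_inner, Submodule.coe_inner, h1, h1, hρ])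
    hx hy hz ha hb hc hxy hxa hya hyz hyb hzb hzx hzc hxc
    (fun u u1 u2 u3 => Subtype.ext (hfix u u.2 (congrArg Subtype.val u1) (congrArg Subtype.val u2)
      (congrArg Subtype.val u3))) ⟨v, hv⟩
  simpa only [Submodule.coe_inner, Submodule.coe_add, h2] using this

end rep

end Pool.Agent.P.MP_55663b_lc
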