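import Mathlib
import Pool.Agent.P.MP_55663b_lc.Gap

/-!
An infinite family of finite groups with uniformly expanding generating families.
-/

open scoped RealInnerProductSpace
open Finset

namespace Pool.Agent.P.MP_55663b_lc

section opexp

variable {G : Type} [Group G] [Fintype G]

/-- The averaging operator of the family `s` contracts mean zero functions. -/
def OpExp {A : Type} [Fintype A] (s : A → G) (μ : ℝ) : Prop :=
  ∀ h : G → ℝ, ∑ g, h g = 0 →
    ∑ g, (∑ a, h (s a * g)) ^ 2 ≤ μ * (Fintype.card A : ℝ) ^ 2 * ∑ g, (h g) ^ 2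

theorem sum_mul_left_eq (h : G → ℝ) (x : G) : ∑ g, h (x * g) = ∑ g, h g :=
  Equiv.sum_comp (Equiv.mulLeft x) h

theorem OpExp.prod {A B : Type} [Fintype A] [Fintype B] {s : A → G} {t : B → G} {μ ν : ℝ}
    (hs : OpExp s μ) (ht : OpExp t ν) (hν : 0 ≤ ν) :
    OpExp (fun p : A × B => s p.1 * t p.2) (μ * ν) := by
  intro h h0
  have e : ∀ g, ∑ p : A × B, h (s p.1 * t p.2 * g) = ∑ b, ∑ a, h (s a * (t b * g)) := by
    intro g
    rw [Fintype.sum_prod_type_right]
    simp only [mul_assoc]
  simp only [e]
  have hH : ∑ g, ∑ a, h (s a * g) = 0 := by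
    rw [Finset.sum_comm]
    simp only [sum_mul_left_eq h, h0, Finset.sum_const_zero]
  have h1 := ht (fun g => ∑ a, h (s a * g)) hH
  have h2 := hs h h0
  calc _ ≤ ν * (Fintype.card B : ℝ) ^ 2 * ∑ g, (∑ a, h (s a * g)) ^ 2 := h1
    _ ≤ ν * (Fintype.card B : ℝ) ^ 2 * (μ * (Fintype.card A : ℝ) ^ 2 * ∑ g, (h g) ^ 2) :=
        mul_le_mul_of_nonneg_left h2 (by positivity)
    _ = _ := by rw [Fintype.card_prod]; push_cast; ring

theorem OpExp.equiv {A B : Type} [Fintype A] [Fintype B] {s : A → G} {μ : ℝ}
    (hs : OpExp s μ) (e : B ≃ A) : OpExp (s ∘ e) μ := by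
  intro h h0
  have : ∀ g, ∑ b, h ((s ∘ e) b * g) = ∑ a, h (s a * g) := fun g =>
    Equiv.sum_comp e (fun a => h (s a * g))
  simp only [this, Fintype.card_congr e]
  exact hs h h0

theorem opExp_one (A : Type) [Fintype A] : OpExp (fun _ : A => (1 : G)) 1 := by
  intro h _
  simp only [one_mul, Finset.sum_const, Finset.card_univ, nsmul_eq_mul, mul_pow,
    Finset.mul_sum, le_refl]

theorem exists_opExp_pow {A : Type} [Fintype A] {s : A → G} {μ : ℝ} (hs : OpExp s μ)
    (hμ : 0 ≤ μ) (j : ℕ) : ∃ t : Fin (Fintype.card A ^ j) → G, OpExp t (μ ^ j) := by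
  induction j with
  | zero => exact ⟨fun _ => 1, by rw [pow_zero μ]; exact opExp_one _⟩
  | succ j ih =>
    obtain ⟨t, ht⟩ := ih
    have e : Fin (Fintype.card A ^ (j + 1)) ≃ Fin (Fintype.card A ^ j) × A :=
      Fintype.equivOfCardEq (by simp [pow_succ])
    exact ⟨_, by rw [pow_succ μ]; exact (ht.prod hs hμ).equiv e⟩

theorem exists_opExp_of_dvd {A : Type} [Fintype A] {s : A → G} {μ : ℝ} (hs : OpExp s μ)
    (hμ : 0 ≤ μ) (j : ℕ) (B : Type) [Fintype B] (hB : Fintype.card A ^ j ∣ Fintype.card B) :
    ∃ t : B → G, OpExp t (μ ^ j) := by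
  obtain ⟨m, hm⟩ := hB
  obtain ⟨t, ht⟩ := exists_opExp_pow hs hμ j
  have e : B ≃ Fin (Fintype.card A ^ j) × Fin m := Fintype.equivOfCardEq (by simp [hm])
  have := (ht.prod (opExp_one (Fin m)) zero_le_one).equiv e
  rw [mul_one] at this
  exact ⟨_, this⟩

/-- Mean zero functions. -/
def meanZero (G : Type) [Fintype G] : Submodule ℝ (EuclideanSpace ℝ G) where
  carrier := {f | ∑ g, f g = 0}
  add_mem' := by
    intro f h hf hh
    simp only [Set.mem_ofPred_eq, PiLp.add_apply, Finset.sum_add_distrib] at *
    rw [hf, hh, add_zero]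
  zero_mem' := by simp
  smul_mem' := by
    intro c f hf
    simp only [Set.mem_ofPred_eq, PiLp.smul_apply, smul_eq_mul, ← Finset.mul_sum] at *
    rw [hf, mul_zero]

/-- The regular representation. -/
noncomputable def reg : G →* Module.End ℝ (EuclideanSpace ℝ G) where
  toFun x :=
    { toFun := fun f => WithLp.toLp 2 fun g => f (x⁻¹ * g)
      map_add' := fun f h => by ext g; simp
      map_smul' := fun c f => by ext g; simp }
  map_one' := by
    refine LinearMap.ext fun f => ?_
    ext g; simp
  map_mul' x y := by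
    refine LinearMap.ext fun f => ?_
    ext g; simp [mul_assoc]

theorem reg_apply (x : G) (f : EuclideanSpace ℝ G) (g : G) : (reg x f) g = f (x⁻¹ * g) := rfl

omit [Group G] in
theorem inner_euc (f h : EuclideanSpace ℝ G) : ⟪f, h⟫ = ∑ g, f g * h g := by
  rw [PiLp.inner_apply]
  simp [mul_comm]

theorem reg_inner (x : G) (f h : EuclideanSpace ℝ G) : ⟪reg x f, reg x h⟫ = ⟪f, h⟫ := by
  rw [inner_euc, inner_euc]
  exact sum_mul_left_eq (fun g => f g * h g) x⁻¹

theorem exists_opExp_base {x y z a b c : G}
    (hx : x ^ 5 = 1) (hy : y ^ 5 = 1) (hz : z ^ 5 = 1)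
    (ha : a ^ 5 = 1) (hb : b ^ 5 = 1) (hc : c ^ 5 = 1)
    (hxy : x * y = y * x * a) (hxa : Commute x a) (hya : Commute y a)
    (hyz : y * z = z * y * b) (hyb : Commute y b) (hzb : Commute z b)
    (hzx : z * x = x * z * c) (hzc : Commute z c) (hxc : Commute x c)
    (hgen : Subgroup.closure {x, y, z} = ⊤) :
    ∃ s : Fin 5 × Fin 5 → G, OpExp s (243 / 250) := by
  refine ⟨fun p => ((![x, y, z, 1, 1] p.1) ^ (p.2 : ℕ))⁻¹, fun h h0 => ?_⟩
  have hS : ∀ g : G, ∀ v ∈ meanZero G, reg g v ∈ meanZero G := fun g v hv =>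
    (sum_mul_left_eq (fun g => v g) g⁻¹).trans hv
  have hfix : ∀ v ∈ meanZero G, reg x v = v → reg y v = v → reg z v = v → v = 0 := by
    intro v hv h1 h2 h3
    have hall : ∀ γ : G, reg γ v = v := by
      intro γ
      have hγ : γ ∈ Subgroup.closure {x, y, z} := by rw [hgen]; trivial
      induction hγ using Subgroup.closure_induction with
      | mem γ hγ =>
        rcases hγ with rfl | rfl | rfl
        · exact h1
        · exact h2
        · exact h3
      | one => simp
      | mul γ δ _ _ i1 i2 => rw [map_mul, Module.End.mul_apply, i2, i1]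
      | inv γ _ i1 =>
        conv_lhs => rw [← i1]
        rw [← Module.End.mul_apply, ← map_mul, inv_mul_cancel, map_one, Module.End.one_apply]
    have hconst : ∀ g, v g = v 1 := by
      intro g
      have := congrArg (fun f : EuclideanSpace ℝ G => f g) (hall g)
      simp only [reg_apply, inv_mul_cancel] at this
      exact this.symm
    have hsum : ∑ g, v g = 0 := hv
    simp only [hconst, Finset.sum_const, Finset.card_univ, nsmul_eq_mul] at hsum
    have hv1 : v 1 = 0 := by
      rcases mul_eq_zero.1 hsum with h | h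
      · exact absurd h (Nat.cast_ne_zero.2 Fintype.card_ne_zero)
      · exact h
    ext g
    rw [hconst g, hv1]
    simp
  let v : EuclideanSpace ℝ G := WithLp.toLp 2 h
  have hg := gap_sub reg_inner hx hy hz ha hb hc hxy hxa hya hyz hyb hzb hzx hzc hxc
    (meanZero G) hS hfix v h0
  rw [inner_euc, inner_euc] at hg
  set w := avg reg x v + avg reg y v + avg reg z v + v + v with hw
  have e : ∀ g, ∑ p : Fin 5 × Fin 5, h (((![x, y, z, 1, 1] p.1) ^ (p.2 : ℕ))⁻¹ * g) =
      5 * w g := by
    intro g
    have ea : ∀ u : G, (avg reg u v) g = 1 / 5 * ∑ i : Fin 5, h ((u ^ (i : ℕ))⁻¹ * g) := by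
      intro u
      unfold avg
      rw [Finset.sum_range (fun i => reg (u ^ i))]
      simp only [LinearMap.smul_apply, LinearMap.sum_apply, PiLp.smul_apply, smul_eq_mul,
        WithLp.ofLp_sum, Finset.sum_apply, reg_apply]
      rfl
    rw [Fintype.sum_prod_type, Fin.sum_univ_five, hw]
    simp only [PiLp.add_apply, ea]
    simp [v]
    ring
  simp only [e]
  have e2 : ∑ g, v g * v g = ∑ g, h g ^ 2 := by simp [v, sq]
  rw [e2] at hg
  simp only [mul_pow, ← Finset.mul_sum, Fintype.card_prod, Fintype.card_fin]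
  have e3 : ∑ g, w g ^ 2 = ∑ g, w g * w g := by simp only [sq]
  rw [e3]
  norm_num at hg ⊢
  linarith

end opexp

section family

variable {R : Type} [CommRing R]

/-- Elementary transformation adding a multiple of the second coordinate to the first. -/
def e12 (u : R) : Equiv.Perm (R × R × R) where
  toFun v := (v.1 + u * v.2.1, v.2.1, v.2.2)
  invFun v := (v.1 - u * v.2.1, v.2.1, v.2.2)
  left_inv v := by simp
  right_inv v := by simp

/-- Elementary transformation adding a multiple of the third coordinate to the second. -/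
def e23 (u : R) : Equiv.Perm (R × R × R) where
  toFun v := (v.1, v.2.1 + u * v.2.2, v.2.2)
  invFun v := (v.1, v.2.1 - u * v.2.2, v.2.2)
  left_inv v := by simp
  right_inv v := by simp

/-- Elementary transformation adding a multiple of the first coordinate to the third. -/
def e31 (u : R) : Equiv.Perm (R × R × R) where
  toFun v := (v.1, v.2.1, v.2.2 + u * v.1)
  invFun v := (v.1, v.2.1, v.2.2 - u * v.1)
  left_inv v := by simp
  right_inv v := by simp

/-- Elementary transformation adding a multiple of the third coordinate to the first. -/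
def e13 (u : R) : Equiv.Perm (R × R × R) where
  toFun v := (v.1 + u * v.2.2, v.2.1, v.2.2)
  invFun v := (v.1 - u * v.2.2, v.2.1, v.2.2)
  left_inv v := by simp
  right_inv v := by simp

/-- Elementary transformation adding a multiple of the first coordinate to the second. -/
def e21 (u : R) : Equiv.Perm (R × R × R) where
  toFun v := (v.1, v.2.1 + u * v.1, v.2.2)
  invFun v := (v.1, v.2.1 - u * v.1, v.2.2)
  left_inv v := by simp
  right_inv v := by simp

/-- Elementary transformation adding a multiple of the second coordinate to the third. -/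
def e32 (u : R) : Equiv.Perm (R × R × R) where
  toFun v := (v.1, v.2.1, v.2.2 + u * v.2.1)
  invFun v := (v.1, v.2.1, v.2.2 - u * v.2.1)
  left_inv v := by simp
  right_inv v := by simp

theorem c123 (u w : R) : e12 u * e23 w = e23 w * e12 u * e13 (u * w) := by
  ext v <;> simp [e12, e23, e13]; ring
theorem c231 (u w : R) : e23 u * e31 w = e31 w * e23 u * e21 (u * w) := by
  ext v <;> simp [e23, e31, e21]; ring
theorem c312 (u w : R) : e31 u * e12 w = e12 w * e31 u * e32 (u * w) := by
  ext v <;> simp [e12, e31, e32]; ring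
theorem c132 (u w : R) : e13 u * e32 w = e32 w * e13 u * e12 (u * w) := by
  ext v <;> simp [e12, e13, e32]; ring

theorem exists_group (k : ℕ) (hk : k ≠ 0) : ∃ (G : Type) (_ : Group G) (_ : Fintype G),
    5 ^ k ∣ Fintype.card G ∧ ∃ s : Fin 5 × Fin 5 → G, OpExp s (243 / 250) := by
  classical
  haveI : Fact (Nat.Prime 5) := ⟨by norm_num⟩
  let R := GaloisField 5 k
  have h5 : (5 : R) = 0 := by
    have := CharP.cast_eq_zero R 5
    exact_mod_cast this
  obtain ⟨t, ht⟩ := IsCyclic.exists_monoid_generator (α := Rˣ)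
  let X : Set (Equiv.Perm (R × R × R)) := {e12 1, e23 1, e31 (t : R)}
  let H := Subgroup.closure X
  have mx : e12 (1 : R) ∈ H := Subgroup.subset_closure (by simp [X])
  have my : e23 (1 : R) ∈ H := Subgroup.subset_closure (by simp [X])
  have mz : e31 (t : R) ∈ H := Subgroup.subset_closure (by simp [X])
  have hcomm : ∀ {p q r : Equiv.Perm (R × R × R)}, p * q = q * p * r → p ∈ H → q ∈ H → r ∈ H := by
    intro p q r h hp hq
    have : r = (q * p)⁻¹ * (p * q) := by rw [h]; group
    rw [this]
    exact H.mul_mem (H.inv_mem (H.mul_mem hq hp)) (H.mul_mem hp hq)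
  have ma := hcomm (c123 1 1) mx my
  have mb := hcomm (c231 1 (t : R)) my mz
  have mc := hcomm (c312 (t : R) 1) mz mx
  have hpow : ∀ j : ℕ, e12 ((t : R) ^ j) ∈ H := by
    intro j
    induction j with
    | zero => simpa using mx
    | succ j ih =>
      have h1 := hcomm (c123 _ 1) ih my
      have h2 := hcomm (c132 _ _) h1 mc
      simpa [pow_succ] using h2
  have hall : ∀ u : R, e12 u ∈ H := by
    intro u
    by_cases hu : u = 0
    · have : e12 u = 1 := by subst hu; ext v <;> simp [e12]
      rw [this]; exact H.one_mem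
    · obtain ⟨j, hj⟩ := ht (Units.mk0 u hu)
      have : u = (t : R) ^ j := by
        have := congrArg (fun w : Rˣ => (w : R)) hj
        simpa using this.symm
      rw [this]; exact hpow j
  haveI : Finite H := inferInstance
  letI : Fintype H := Fintype.ofFinite H
  refine ⟨H, inferInstance, inferInstance, ?_, ?_⟩
  · let f : Multiplicative R →* H :=
      { toFun := fun u => ⟨e12 (Multiplicative.toAdd u), hall _⟩
        map_one' := by ext v <;> simp [e12]
        map_mul' := fun u w => by ext v <;> simp [e12]; ring }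
    have hf : Function.Injective f := by
      intro u w h
      have := congrArg (fun g : H => (g.1 (0, 1, 0)).1) h
      simpa [f, e12] using this
    have := Subgroup.card_dvd_of_injective f hf
    rw [Nat.card_eq_fintype_card (α := H)] at this
    have e : Nat.card (Multiplicative R) = 5 ^ k := by
      rw [← GaloisField.card 5 k hk]; rfl
    rwa [e] at this
  · have p5 : ∀ g : Equiv.Perm (R × R × R), g ^ 5 = g * (g * (g * (g * g))) := fun g => by
      simp only [pow_succ, pow_zero, one_mul, mul_assoc]
    refine exists_opExp_base (x := ⟨_, mx⟩) (y := ⟨_, my⟩) (z := ⟨_, mz⟩) (a := ⟨_, ma⟩)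
      (b := ⟨_, mb⟩) (c := ⟨_, mc⟩) ?_ ?_ ?_ ?_ ?_ ?_ (Subtype.ext (c123 _ _)) ?_ ?_
      (Subtype.ext (c231 _ _)) ?_ ?_ (Subtype.ext (c312 _ _)) ?_ ?_ ?_
    · apply Subtype.ext
      rw [SubgroupClass.coe_pow, p5]
      ext v <;> simp [e12]
      linear_combination v.2.1 * h5
    · apply Subtype.ext
      rw [SubgroupClass.coe_pow, p5]
      ext v <;> simp [e23]
      linear_combination v.2.2 * h5
    · apply Subtype.ext
      rw [SubgroupClass.coe_pow, p5]
      ext v <;> simp [e31]
      linear_combination (t : R) * v.1 * h5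
    · apply Subtype.ext
      rw [SubgroupClass.coe_pow, p5]
      ext v <;> simp [e13]
      linear_combination v.2.2 * h5
    · apply Subtype.ext
      rw [SubgroupClass.coe_pow, p5]
      ext v <;> simp [e21]
      linear_combination (t : R) * v.1 * h5
    · apply Subtype.ext
      rw [SubgroupClass.coe_pow, p5]
      ext v <;> simp [e32]
      linear_combination (t : R) * v.2.1 * h5
    · apply Subtype.ext; ext v <;> simp [e12, e13]; ring
    · apply Subtype.ext; ext v <;> simp [e23, e13]
    · apply Subtype.ext; ext v <;> simp [e23, e21]; ring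
    · apply Subtype.ext; ext v <;> simp [e31, e21]
    · apply Subtype.ext; ext v <;> simp [e31, e32]; ring
    · apply Subtype.ext; ext v <;> simp [e12, e32]
    · have := Subgroup.closure_closure_coe_preimage (k := X)
      rw [← this]
      congr 1
      ext g
      simp only [X, Set.mem_insert_iff, Set.mem_singleton_iff, Set.mem_preimage,
        Subtype.ext_iff]

end family

end Pool.Agent.P.MP_55663b_lc
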