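import Mathlib
import Pool.Agent.P.MP_55663b_lc.Groups

/-!
Mixing inequalities for the covers used in the constructions.
-/

open Finset

namespace Pool.Agent.P.MP_55663b_lc

/-- Bilinear mixing for a family of permutations. -/
def BMix {W A : Type} [Fintype W] [Fintype A] (φ : A → W ≃ W) (l θ : ℝ) : Prop :=
  ∀ f h : W → ℝ, ∑ a, ∑ g, f g * h (φ a g) ≤
    Fintype.card A * (l / 2 * (∑ g, f g ^ 2 + ∑ g, h g ^ 2) + θ * ((∑ g, f g) * ∑ g, h g))

/-- Quadratic mixing for a family of maps. -/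
def Mix {V A : Type} [Fintype V] [Fintype A] (α : A → V → V) (l θ : ℝ) : Prop :=
  ∀ x : V → ℝ, (∀ v, 0 ≤ x v) → ∑ a, ∑ v, x v * x (α a v) ≤
    Fintype.card A * (l * ∑ v, x v ^ 2 + θ * (∑ v, x v) ^ 2)

section group

variable {G A : Type} [Group G] [Fintype G] [Fintype A]

theorem OpExp.bmix_left {s : A → G} {l : ℝ} (hs : OpExp s (l ^ 2)) (hl : 0 ≤ l) :
    BMix (fun a => Equiv.mulLeft (s a)) l (1 / Fintype.card G) := by
  intro f h
  have hG : (0 : ℝ) < Fintype.card G := Nat.cast_pos.2 Fintype.card_pos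
  set m : ℝ := (∑ g, h g) / Fintype.card G with hm
  have h0 : ∑ g, (h g - m) = 0 := by
    rw [Finset.sum_sub_distrib, Finset.sum_const, Finset.card_univ, nsmul_eq_mul, hm]
    field_simp
    ring
  have h1 := hs (fun g => h g - m) h0
  have h2 : ∑ g, (h g - m) ^ 2 ≤ ∑ g, h g ^ 2 := by
    have e : ∑ g, (h g - m) ^ 2 = ∑ g, h g ^ 2 - 2 * m * ∑ g, (h g - m) -
        Fintype.card G * m ^ 2 := by
      rw [Finset.mul_sum, ← Finset.sum_sub_distrib, ← Finset.card_univ, ← nsmul_eq_mul,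
        ← Finset.sum_const, ← Finset.sum_sub_distrib]
      exact Finset.sum_congr rfl fun g _ => by ring
    rw [e, h0]
    have : 0 ≤ (Fintype.card G : ℝ) * m ^ 2 := by positivity
    linarith
  have e1 : ∑ a, ∑ g, f g * h (Equiv.mulLeft (s a) g) =
      ∑ g, f g * (∑ a, (h (s a * g) - m)) + Fintype.card A * (m * ∑ g, f g) := by
    rw [Finset.sum_comm, Finset.mul_sum, Finset.mul_sum, ← Finset.sum_add_distrib]
    refine Finset.sum_congr rfl fun g _ => ?_
    rw [Finset.sum_sub_distrib, Finset.sum_const, Finset.card_univ, nsmul_eq_mul,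
      ← Finset.mul_sum]
    simp only [Equiv.coe_mulLeft]
    ring
  have cs := Finset.sum_mul_sq_le_sq_mul_sq Finset.univ f (fun g => ∑ a, (h (s a * g) - m))
  set F := ∑ g, f g ^ 2
  set H := ∑ g, h g ^ 2
  have hF : 0 ≤ F := Finset.sum_nonneg fun g _ => sq_nonneg _
  have hH : 0 ≤ H := Finset.sum_nonneg fun g _ => sq_nonneg _
  set n : ℝ := (Fintype.card A : ℝ)
  have hn : 0 ≤ n := Nat.cast_nonneg _
  have h3 : (∑ g, f g * ∑ a, (h (s a * g) - m)) ^ 2 ≤ (n * (l / 2 * (F + H))) ^ 2 := by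
    calc _ ≤ F * ∑ g, (∑ a, (h (s a * g) - m)) ^ 2 := cs
      _ ≤ F * (l ^ 2 * n ^ 2 * H) := by
          refine mul_le_mul_of_nonneg_left (h1.trans ?_) hF
          exact mul_le_mul_of_nonneg_left h2 (by positivity)
      _ = l ^ 2 * n ^ 2 * (F * H) := by ring
      _ ≤ l ^ 2 * n ^ 2 * ((F + H) / 2) ^ 2 :=
          mul_le_mul_of_nonneg_left (by nlinarith [sq_nonneg (F - H)]) (by positivity)
      _ = _ := by ring
  have h4 := (abs_le_of_sq_le_sq' h3 (by positivity)).2
  rw [e1]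
  have e2 : m * ∑ g, f g = 1 / Fintype.card G * ((∑ g, f g) * ∑ g, h g) := by
    rw [hm]; ring
  rw [e2, mul_add]
  linarith

theorem OpExp.bmix_right {s : A → G} {l : ℝ} (hs : OpExp s (l ^ 2)) (hl : 0 ≤ l) :
    BMix (fun a => Equiv.mulRight (s a)) l (1 / Fintype.card G) := by
  intro f h
  have := hs.bmix_left hl (fun g => h g⁻¹) (fun g => f g⁻¹)
  have e1 : ∀ u : G → ℝ, ∑ g, u g⁻¹ = ∑ g, u g := fun u => Equiv.sum_comp (Equiv.inv G) u
  rw [e1 h, e1 f, e1 (fun g => h g ^ 2), e1 (fun g => f g ^ 2)] at this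
  have e2 : ∀ a, ∑ g, h g⁻¹ * f (Equiv.mulLeft (s a) g)⁻¹ =
      ∑ g, f g * h (Equiv.mulRight (s a) g) := by
    intro a
    rw [← Equiv.sum_comp ((Equiv.mulLeft (s a)).trans (Equiv.inv G))
      (fun g => f g * h (Equiv.mulRight (s a) g))]
    refine Finset.sum_congr rfl fun g _ => ?_
    simp [mul_comm]
  simp only [e2] at this
  rw [add_comm (∑ g, f g ^ 2), mul_comm (∑ g, f g)]
  exact this

end group

/-- The bipartite double cover of a family of permutations. -/
def dc {W A : Type} (φ : A → W ≃ W) (a : A) (p : Bool × W) : Bool × W :=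
  (!p.1, cond p.1 ((φ a).symm p.2) (φ a p.2))

theorem dc_dc {W A : Type} (φ : A → W ≃ W) (a : A) (p : Bool × W) : dc φ a (dc φ a p) = p := by
  rcases p with ⟨_ | _, w⟩ <;> simp [dc]

theorem BMix.mix_dc {W A : Type} [Fintype W] [Fintype A] {φ : A → W ≃ W} {l θ : ℝ}
    (h : BMix φ l θ) (hθ : 0 ≤ θ) : Mix (dc φ) l θ := by
  intro x hx
  have h1 := h (fun w => x (false, w)) (fun w => x (true, w))
  have e : ∀ a, ∑ v, x v * x (dc φ a v) = 2 * ∑ w, x (false, w) * x (true, φ a w) := by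
    intro a
    rw [Fintype.sum_prod_type, Fintype.sum_bool,
      ← Equiv.sum_comp (φ a) (fun w => x (true, w) * x (dc φ a (true, w)))]
    simp only [dc, Bool.not_true, Bool.cond_true, Equiv.symm_apply_apply, Bool.not_false,
      Bool.cond_false]
    rw [two_mul]
    congr 1
    exact Finset.sum_congr rfl fun w _ => mul_comm _ _
  simp only [e, ← Finset.mul_sum]
  rw [Fintype.sum_prod_type, Fintype.sum_bool, Fintype.sum_prod_type, Fintype.sum_bool]
  set n : ℝ := (Fintype.card A : ℝ)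
  have hn : 0 ≤ n := Nat.cast_nonneg _
  set p := ∑ w, x (false, w)
  set q := ∑ w, x (true, w)
  have h2 : 2 * (p * q) ≤ (q + p) ^ 2 := by nlinarith [sq_nonneg p, sq_nonneg q]
  have h3 := mul_le_mul_of_nonneg_left (mul_le_mul_of_nonneg_left h2 hθ) hn
  nlinarith

theorem Mix.lift {W A : Type} (J : Type) [Fintype J] [Fintype W] [Fintype A] {α : A → W → W}
    {l θ : ℝ} (h : Mix α l θ) (hθ : 0 ≤ θ) :
    Mix (fun a (p : J × W) => (p.1, α a p.2)) l θ := by
  intro x hx
  simp only [Fintype.sum_prod_type]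
  rw [Finset.sum_comm]
  have h1 : ∀ j, ∑ a, ∑ w, x (j, w) * x (j, α a w) ≤
      Fintype.card A * (l * ∑ w, x (j, w) ^ 2 + θ * (∑ w, x (j, w)) ^ 2) :=
    fun j => h (fun w => x (j, w)) fun w => hx _
  refine (Finset.sum_le_sum fun j _ => h1 j).trans ?_
  rw [← Finset.mul_sum, Finset.sum_add_distrib, ← Finset.mul_sum, ← Finset.mul_sum]
  refine mul_le_mul_of_nonneg_left ?_ (Nat.cast_nonneg _)
  have := Finset.sum_sq_le_sq_sum_of_nonneg (s := Finset.univ) (f := fun j => ∑ w, x (j, w))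
    fun j _ => Finset.sum_nonneg fun w _ => hx _
  have := mul_le_mul_of_nonneg_left this hθ
  linarith

theorem Mix.conj {V W A : Type} [Fintype V] [Fintype W] [Fintype A] {α : A → W → W}
    {l θ : ℝ} (h : Mix α l θ) (e : V ≃ W) : Mix (fun a v => e.symm (α a (e v))) l θ := by
  intro x hx
  have := h (fun w => x (e.symm w)) fun w => hx _
  rw [Equiv.sum_comp e.symm x, Equiv.sum_comp e.symm (fun v => x v ^ 2)] at this
  refine le_trans (le_of_eq ?_) this
  refine Finset.sum_congr rfl fun a _ => ?_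
  rw [← Equiv.sum_comp e (fun w => x (e.symm w) * x (e.symm (α a w)))]
  simp

/-- Mixing for indicator functions. -/
theorem Mix.card_le {V A : Type} [Fintype V] [Fintype A] [DecidableEq V] {α : A → V → V}
    {l θ : ℝ} (h : Mix α l θ) (T : Finset V) :
    ∑ v ∈ T, ((Finset.univ.filter fun a => α a v ∈ T).card : ℝ) ≤
      Fintype.card A * (l * T.card + θ * (T.card : ℝ) ^ 2) := by
  have := h (fun v => if v ∈ T then 1 else 0) fun v => by positivity
  have e1 : ∑ v, (if v ∈ T then (1 : ℝ) else 0) = T.card := by simp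
  have e2 : ∑ v, (if v ∈ T then (1 : ℝ) else 0) ^ 2 = T.card := by simp
  rw [e1, e2, Finset.sum_comm] at this
  refine le_trans (le_of_eq ?_) this
  simp only [ite_mul, one_mul, zero_mul, Finset.sum_ite_irrel, Finset.sum_const_zero,
    Finset.sum_ite_mem, Finset.univ_inter, Finset.card_filter]
  push_cast
  rfl

/-- Sets that are internally dense apart from a bad part are either large or essentially bad. -/
theorem Mix.dichotomy {V A : Type} [Fintype V] [Fintype A] [DecidableEq V] [Nonempty A]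
    {α : A → V → V} {l θ : ℝ} (h : Mix α l θ) {r : ℕ} (hl : 4 * r * l ≤ 1)
    (T Bad : Finset V)
    (hT : ∀ v ∈ T, v ∉ Bad →
      Fintype.card A ≤ r * (Finset.univ.filter fun a => α a v ∈ T).card)
    (hs : 4 * r * θ * T.card ≤ 1) : T.card ≤ 2 * Bad.card := by
  have h1 := h.card_le T
  have hA : (0 : ℝ) < Fintype.card A := Nat.cast_pos.2 Fintype.card_pos
  have h2 : ((T \ Bad).card : ℝ) * Fintype.card A ≤
      r * ∑ v ∈ T, ((Finset.univ.filter fun a => α a v ∈ T).card : ℝ) := by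
    calc ((T \ Bad).card : ℝ) * Fintype.card A = ∑ v ∈ T \ Bad, (Fintype.card A : ℝ) := by
          simp
      _ ≤ ∑ v ∈ T \ Bad, r * ((Finset.univ.filter fun a => α a v ∈ T).card : ℝ) := by
          refine Finset.sum_le_sum fun v hv => ?_
          have := hT v (Finset.mem_sdiff.1 hv).1 (Finset.mem_sdiff.1 hv).2
          exact_mod_cast this
      _ ≤ ∑ v ∈ T, r * ((Finset.univ.filter fun a => α a v ∈ T).card : ℝ) :=
          Finset.sum_le_sum_of_subset_of_nonneg Finset.sdiff_subset fun v _ _ => by positivity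
      _ = _ := by rw [Finset.mul_sum]
  have h3 : (T.card : ℝ) ≤ (T \ Bad).card + Bad.card := by
    exact_mod_cast Finset.card_le_card_sdiff_add_card
  have h4 : ((T \ Bad).card : ℝ) ≤ r * (l * T.card + θ * (T.card : ℝ) ^ 2) := by
    have := h2.trans (mul_le_mul_of_nonneg_left h1 (Nat.cast_nonneg r))
    rw [mul_left_comm, mul_comm] at this
    exact le_of_mul_le_mul_left this hA
  have ht : (0 : ℝ) ≤ T.card := Nat.cast_nonneg _
  have h5 : (T.card : ℝ) ≤ 2 * Bad.card := by
    have a1 := mul_le_mul_of_nonneg_right hl ht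
    have a2 := mul_le_mul_of_nonneg_right hs ht
    nlinarith
  exact_mod_cast h5

end Pool.Agent.P.MP_55663b_lc
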