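import Mathlib
import Pool.Agent.P.MP_55663b_lc.Mix
import Pool.Agent.P.MP_55663b_lc.Codes

/-!
Local to global analysis on a square complex given by two commuting families of involutions.
-/

open Finset Module

namespace Pool.Agent.P.MP_55663b_lc

/-- Number of labels along which the vertex disagrees with its neighbour. -/
def cnt {V A X : Type} [Fintype A] [DecidableEq X] (τ : A → V → V) (R : V → A → X) (v : V) : ℕ :=
  #{a | R v a ≠ R (τ a v) a}

theorem update_count {V X : Type} [Fintype V] [DecidableEq V] [DecidableEq X] (τ : V → V)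
    (hτ : ∀ u, τ (τ u) = u) (v : V) (hv : τ v ≠ v) (g : V → X) (x : X) :
    #{u | Function.update g v x u ≠ Function.update g v x (τ u)} +
        2 * (if g v ≠ g (τ v) then 1 else 0) =
      #{u | g u ≠ g (τ u)} + 2 * (if x ≠ g (τ v) then 1 else 0) := by
  have key : ∀ h : V → X, #{u | h u ≠ h (τ u)} =
      (∑ u ∈ (univ.erase v).erase (τ v), if h u ≠ h (τ u) then 1 else 0) +
        2 * (if h v ≠ h (τ v) then 1 else 0) := by
    intro h
    rw [card_filter, ← Finset.add_sum_erase _ _ (mem_univ v),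
      ← Finset.add_sum_erase _ _ (mem_erase.2 ⟨hv, mem_univ _⟩), hτ]
    simp only [ne_comm (a := h (τ v))]
    ring
  rw [key, key g, Function.update_self, Function.update_of_ne hv]
  have : ∑ u ∈ (univ.erase v).erase (τ v),
      (if Function.update g v x u ≠ Function.update g v x (τ u) then 1 else 0) =
      ∑ u ∈ (univ.erase v).erase (τ v), if g u ≠ g (τ u) then 1 else 0 := by
    refine Finset.sum_congr rfl fun u hu => ?_
    have h1 : u ≠ v := (mem_erase.1 (mem_erase.1 hu).2).1
    have h2 : τ u ≠ v := fun h => (mem_erase.1 hu).1 (by rw [← h, hτ])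
    rw [Function.update_of_ne h1, Function.update_of_ne h2]
  rw [this]
  ring

theorem sum_cnt {V A X : Type} [Fintype V] [Fintype A] [DecidableEq X] (τ : A → V → V)
    (R : V → A → X) : ∑ v, cnt τ R v = ∑ a, #{v | R v a ≠ R (τ a v) a} := by
  simp only [cnt, card_filter]
  exact Finset.sum_comm

theorem update_cnt {V A X : Type} [Fintype V] [Fintype A] [DecidableEq V] [DecidableEq X]
    (τ : A → V → V) (hτ : ∀ a u, τ a (τ a u) = u) (v : V) (hv : ∀ a, τ a v ≠ v)
    (R : V → A → X) (x : A → X) :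
    ∑ u, cnt τ (Function.update R v x) u + 2 * cnt τ R v =
      ∑ u, cnt τ R u + 2 * #{a | x a ≠ R (τ a v) a} := by
  rw [sum_cnt, sum_cnt, cnt, card_filter, card_filter, Finset.mul_sum, Finset.mul_sum,
    ← Finset.sum_add_distrib, ← Finset.sum_add_distrib]
  refine Finset.sum_congr rfl fun a _ => ?_
  have := update_count (τ a) (hτ a) v (hv a) (fun u => R u a) (x a)
  have e : ∀ u, Function.update R v x u a = Function.update (fun u => R u a) v (x a) u := by
    intro u
    by_cases h : u = v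
    · subst h; simp
    · simp [Function.update_of_ne h]
  simp only [e]
  exact this

section main

variable {V A B : Type} [Fintype V] [Fintype A] [Fintype B] [DecidableEq V] [DecidableEq A]
  [DecidableEq B] {α : A → V → V} {β : B → V → V}

omit [DecidableEq A] in
theorem dispute_bound (hα : ∀ a u, α a (α a u) = u)
    (hcomm : ∀ a b u, α a (β b u) = β b (α a u)) {CB : Submodule F (B → F)} {r : ℕ}
    (hB : Dist CB r) {l θ : ℝ} (hmix : Mix β l θ) (hθ : 0 ≤ θ) (R : V → A → B → F)
    (hR : ∀ v a, R v a ∈ CB) :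
    (Fintype.card B : ℝ) * ∑ v, (cnt α R v : ℝ) ≤
      r * (2 * ∑ v, (cnt α R v : ℝ) * cnt β (fun v b a => R v a b) v +
        Fintype.card B * (l * ∑ v, (cnt α R v : ℝ) + θ * (∑ v, (cnt α R v : ℝ)) ^ 2)) := by
  set nB := cnt β (fun v b a => R v a b) with hnB
  let T : A → Finset V := fun a => {v | R v a ≠ R (α a v) a}
  have h1 : ∀ a, ∀ v ∈ T a,
      Fintype.card B ≤ r * (nB v + nB (α a v) + #{b | β b v ∈ T a}) := by
    intro a v hv
    refine (hB.le_of_ne (hR v a) (hR _ a) (mem_filter.1 hv).2).trans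
      (Nat.mul_le_mul_left _ ?_)
    refine le_trans (card_le_card (t :=
      (univ.filter (fun b => (fun a => R v a b) ≠ fun a => R (β b v) a b) ∪
      univ.filter (fun b => (fun a' => R (α a v) a' b) ≠ fun a' => R (β b (α a v)) a' b)) ∪
      univ.filter (fun b => β b v ∈ T a))
      fun b hb => ?_) ((card_union_le _ _).trans (Nat.add_le_add_right (card_union_le _ _) _))
    by_contra hcon
    simp only [mem_union, mem_filter, mem_univ, true_and, not_or, not_not, T] at hcon
    obtain ⟨⟨e1, e2⟩, e3⟩ := hcon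
    apply (mem_filter.1 hb).2
    rw [congrFun e1 a, congrFun e2 a, e3, hcomm]
  have hsumT : ∑ a, (#(T a) : ℝ) = ∑ v, (cnt α R v : ℝ) := by
    exact_mod_cast (sum_cnt α R).symm
  have h2 : ∀ f : V → ℝ, ∑ a, ∑ v ∈ T a, f v = ∑ v, (cnt α R v : ℝ) * f v := by
    intro f
    simp only [T, Finset.sum_filter, cnt, card_filter]
    rw [Finset.sum_comm]
    refine Finset.sum_congr rfl fun v _ => ?_
    push_cast
    rw [Finset.sum_mul]
    refine Finset.sum_congr rfl fun a _ => ?_
    split_ifs <;> simp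
  have h3 : ∀ a, ∑ v ∈ T a, (nB (α a v) : ℝ) = ∑ v ∈ T a, (nB v : ℝ) := by
    intro a
    have hm : ∀ v ∈ T a, α a v ∈ T a := by
      intro v hv
      refine mem_filter.2 ⟨mem_univ _, ?_⟩
      rw [hα]
      exact (mem_filter.1 hv).2.symm
    exact Finset.sum_nbij' (α a) (α a) hm hm (fun v _ => hα a v) (fun v _ => hα a v)
      fun v _ => rfl
  have h4 : ∀ a, (Fintype.card B : ℝ) * #(T a) ≤ r * (2 * ∑ v ∈ T a, (nB v : ℝ) +
      Fintype.card B * (l * #(T a) + θ * (#(T a) : ℝ) ^ 2)) := by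
    intro a
    calc (Fintype.card B : ℝ) * #(T a) = ∑ v ∈ T a, (Fintype.card B : ℝ) := by
          simp [mul_comm]
      _ ≤ ∑ v ∈ T a, (r : ℝ) * (nB v + nB (α a v) + (#{b | β b v ∈ T a} : ℕ)) :=
          Finset.sum_le_sum fun v hv => by exact_mod_cast h1 a v hv
      _ = r * (2 * ∑ v ∈ T a, (nB v : ℝ) + ∑ v ∈ T a, ((#{b | β b v ∈ T a} : ℕ) : ℝ)) := by
          rw [← Finset.mul_sum, Finset.sum_add_distrib, Finset.sum_add_distrib, h3, two_mul]
      _ ≤ _ := by
          refine mul_le_mul_of_nonneg_left ?_ (Nat.cast_nonneg _)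
          have := hmix.card_le (T a)
          linarith
  have h5 := Finset.sum_le_sum fun a (_ : a ∈ Finset.univ) => h4 a
  rw [← Finset.mul_sum, ← Finset.mul_sum, Finset.sum_add_distrib, ← Finset.mul_sum,
    ← Finset.mul_sum, Finset.sum_add_distrib, ← Finset.mul_sum, ← Finset.mul_sum, hsumT,
    h2] at h5
  refine h5.trans (mul_le_mul_of_nonneg_left ?_ (Nat.cast_nonneg _))
  have h6 := Finset.sum_sq_le_sq_sum_of_nonneg (s := Finset.univ) (f := fun a => (#(T a) : ℝ))
    fun a _ => Nat.cast_nonneg _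
  rw [hsumT] at h6
  have h7 := mul_le_mul_of_nonneg_left (mul_le_mul_of_nonneg_left h6 hθ)
    (Nat.cast_nonneg (α := ℝ) (Fintype.card B))
  nlinarith

/-- The rows of a family of local views. -/
def rows (W : V → A × B → F) : V → A → B → F := fun v a b => W v (a, b)

/-- The columns of a family of local views. -/
def cols (W : V → A × B → F) : V → B → A → F := fun v b a => W v (a, b)

/-- The weighted number of disputes at a vertex. -/
def cost (α : A → V → V) (β : B → V → V) (W : V → A × B → F) (v : V) : ℕ :=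
  Fintype.card B * cnt α (rows W) v + Fintype.card A * cnt β (cols W) v

theorem expand [Nonempty A] [Nonempty B] (hα : ∀ a u, α a (α a u) = u)
    (hβ : ∀ b u, β b (β b u) = u) (hcomm : ∀ a b u, α a (β b u) = β b (α a u))
    {CA : Submodule F (A → F)} {CB : Submodule F (B → F)} {r K : ℕ}
    (hA : Dist CA r) (hB : Dist CB r) (hK : Agree CA CB K) {l θ : ℝ}
    (hmα : Mix α l θ) (hmβ : Mix β l θ) (hθ : 0 ≤ θ) (hl1 : 2 * r * l ≤ 1) (hl2 : 4 * K * l ≤ 1)
    (W : V → A × B → F) (hW : ∀ v, W v ∈ tens CA CB)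
    (hopt : ∀ v, ∀ W' ∈ tens CA CB, cost α β W v ≤
      Fintype.card B * #{a | (fun b => W' (a, b)) ≠ rows W (α a v) a} +
        Fintype.card A * #{b | (fun a => W' (a, b)) ≠ cols W (β b v) b})
    (hsmall : 2 * r * (4 * K + 1) * θ * (∑ v, cost α β W v : ℕ) < 1) :
    ∑ v, cost α β W v = 0 := by
  set nA := cnt α (rows W) with hnA
  set nB := cnt β (cols W) with hnB
  set a0 : ℝ := (Fintype.card A : ℝ) with ha0
  set b0 : ℝ := (Fintype.card B : ℝ) with hb0
  have ha1 : 1 ≤ a0 := Nat.one_le_cast.2 Fintype.card_pos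
  have hb1 : 1 ≤ b0 := Nat.one_le_cast.2 Fintype.card_pos
  let c : V → ℝ := fun v => cost α β W v
  have hc : ∀ v, c v = b0 * nA v + a0 * nB v := fun v => by simp [c, cost, hnA, hnB, ha0, hb0]
  have hc0 : ∀ v, 0 ≤ c v := fun v => Nat.cast_nonneg _
  set Φ := ∑ v, c v with hΦ
  have hΦ0 : 0 ≤ Φ := Finset.sum_nonneg fun v _ => hc0 v
  -- local optimality
  have h1 : ∀ v, c v ≤ K * (∑ a, (nB (α a v) : ℝ) + ∑ b, (nA (β b v) : ℝ)) := by
    intro v
    obtain ⟨W', hW', hle⟩ := hK (fun p => W (α p.1 v) p) (fun p => W (β p.2 v) p)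
      (fun a => (mem_tens.1 (hW (α a v))).1 a) (fun b => (mem_tens.1 (hW (β b v))).2 b)
    have h2 : #{p : A × B | W (α p.1 v) p ≠ W (β p.2 v) p} ≤
        ∑ a, nB (α a v) + ∑ b, nA (β b v) := by
      simp only [hnA, hnB, cnt, card_filter]
      rw [Finset.sum_comm (s := (Finset.univ : Finset B)), ← Finset.sum_add_distrib,
        Fintype.sum_prod_type]
      refine Finset.sum_le_sum fun a _ => ?_
      rw [← Finset.sum_add_distrib]
      refine Finset.sum_le_sum fun b _ => ?_
      by_cases e1 : cols W (α a v) b = cols W (β b (α a v)) b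
      · by_cases e2 : rows W (β b v) a = rows W (α a (β b v)) a
        · have e3 : W (α a v) (a, b) = W (β b v) (a, b) := by
            have e4 : W (α a v) (a, b) = W (β b (α a v)) (a, b) := congrFun e1 a
            have e5 : W (β b v) (a, b) = W (α a (β b v)) (a, b) := congrFun e2 b
            rw [e4, e5, hcomm]
          simp [e3]
        · split_ifs <;> simp_all
      · split_ifs <;> simp_all
    have h3 := ((hopt v W' hW').trans hle).trans (Nat.mul_le_mul_left K h2)
    simp only [c]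
    exact_mod_cast h3
  have h4 : a0 * b0 * ∑ v, c v ^ 2 ≤
      K * (b0 * ∑ a, ∑ v, c v * c (α a v) + a0 * ∑ b, ∑ v, c v * c (β b v)) := by
    rw [Finset.sum_comm (s := (Finset.univ : Finset A)),
      Finset.sum_comm (s := (Finset.univ : Finset B)), Finset.mul_sum, Finset.mul_sum,
      Finset.mul_sum, ← Finset.sum_add_distrib, Finset.mul_sum]
    refine Finset.sum_le_sum fun v _ => ?_
    rw [← Finset.mul_sum, ← Finset.mul_sum]
    have e1 : a0 * ∑ a, (nB (α a v) : ℝ) ≤ ∑ a, c (α a v) := by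
      rw [Finset.mul_sum]
      refine Finset.sum_le_sum fun a _ => ?_
      rw [hc]
      have : 0 ≤ b0 * nA (α a v) := by positivity
      linarith
    have e2 : b0 * ∑ b, (nA (β b v) : ℝ) ≤ ∑ b, c (β b v) := by
      rw [Finset.mul_sum]
      refine Finset.sum_le_sum fun b _ => ?_
      rw [hc]
      have : 0 ≤ a0 * nB (β b v) := by positivity
      linarith
    have e3 : a0 * b0 * c v ≤ K * (b0 * ∑ a, c (α a v) + a0 * ∑ b, c (β b v)) := by
      calc a0 * b0 * c v ≤ a0 * b0 * (K * (∑ a, (nB (α a v) : ℝ) + ∑ b, (nA (β b v) : ℝ))) :=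
            mul_le_mul_of_nonneg_left (h1 v) (by positivity)
        _ = K * (b0 * (a0 * ∑ a, (nB (α a v) : ℝ)) + a0 * (b0 * ∑ b, (nA (β b v) : ℝ))) := by
            ring
        _ ≤ _ := by gcongr
    have := mul_le_mul_of_nonneg_left e3 (hc0 v)
    nlinarith
  have h5 : ∑ v, c v ^ 2 ≤ 4 * K * θ * Φ ^ 2 := by
    have m1 := hmα c hc0
    have m2 := hmβ c hc0
    rw [← ha0, ← hΦ] at m1
    rw [← hb0, ← hΦ] at m2
    set S := ∑ v, c v ^ 2
    have hS : 0 ≤ S := Finset.sum_nonneg fun v _ => sq_nonneg _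
    have h6 : a0 * b0 * S ≤ a0 * b0 * (2 * K * (l * S + θ * Φ ^ 2)) := by
      calc _ ≤ _ := h4
        _ ≤ K * (b0 * (a0 * (l * S + θ * Φ ^ 2)) + a0 * (b0 * (l * S + θ * Φ ^ 2))) := by gcongr
        _ = _ := by ring
    have h7 := le_of_mul_le_mul_left h6 (by positivity)
    have h8 := mul_le_mul_of_nonneg_right hl2 hS
    nlinarith
  have d1 := dispute_bound hα hcomm hB hmβ hθ (rows W) fun v a => (mem_tens.1 (hW v)).1 a
  have d2 := dispute_bound hβ (fun b a u => (hcomm a b u).symm) hA hmα hθ (cols W)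
    fun v b => (mem_tens.1 (hW v)).2 b
  change b0 * ∑ v, (nA v : ℝ) ≤ r * (2 * ∑ v, (nA v : ℝ) * nB v +
    b0 * (l * ∑ v, (nA v : ℝ) + θ * (∑ v, (nA v : ℝ)) ^ 2)) at d1
  change a0 * ∑ v, (nB v : ℝ) ≤ r * (2 * ∑ v, (nB v : ℝ) * nA v +
    a0 * (l * ∑ v, (nB v : ℝ) + θ * (∑ v, (nB v : ℝ)) ^ 2)) at d2
  simp only [mul_comm (nB _ : ℝ)] at d2
  set X := ∑ v, (nA v : ℝ) with hX
  set Y := ∑ v, (nB v : ℝ) with hY
  set P := ∑ v, (nA v : ℝ) * nB v with hP
  have hX0 : 0 ≤ X := Finset.sum_nonneg fun v _ => Nat.cast_nonneg _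
  have hY0 : 0 ≤ Y := Finset.sum_nonneg fun v _ => Nat.cast_nonneg _
  have hΦe : Φ = b0 * X + a0 * Y := by
    rw [hΦ, hX, hY, Finset.mul_sum, Finset.mul_sum, ← Finset.sum_add_distrib]
    exact Finset.sum_congr rfl fun v _ => hc v
  have h9 : 4 * P ≤ ∑ v, c v ^ 2 := by
    rw [hP, Finset.mul_sum]
    refine Finset.sum_le_sum fun v _ => ?_
    rw [hc]
    have e0 : (0 : ℝ) ≤ nA v * nB v := by positivity
    have e1 : 1 ≤ a0 * b0 := one_le_mul_of_one_le_of_one_le ha1 hb1
    have e2 := mul_le_mul_of_nonneg_right e1 e0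
    nlinarith [sq_nonneg (b0 * nA v - a0 * nB v)]
  have h10 : b0 * X ^ 2 + a0 * Y ^ 2 ≤ Φ ^ 2 := by
    rw [hΦe]
    have e1 : b0 * X ^ 2 ≤ (b0 * X) ^ 2 := by
      have := mul_le_mul_of_nonneg_left hb1 (show 0 ≤ b0 * X ^ 2 by positivity)
      nlinarith
    have e2 : a0 * Y ^ 2 ≤ (a0 * Y) ^ 2 := by
      have := mul_le_mul_of_nonneg_left ha1 (show 0 ≤ a0 * Y ^ 2 by positivity)
      nlinarith
    have e3 : 0 ≤ b0 * X * (a0 * Y) := by positivity
    nlinarith
  have hr0 : (0 : ℝ) ≤ r := Nat.cast_nonneg _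
  have h11 : Φ ≤ r * l * Φ + r * (4 * K + 1) * θ * Φ ^ 2 := by
    have e1 : Φ ≤ r * (4 * P + l * Φ + θ * (b0 * X ^ 2 + a0 * Y ^ 2)) := by
      rw [hΦe]; nlinarith
    refine e1.trans ?_
    have e2 : 4 * P + l * Φ + θ * (b0 * X ^ 2 + a0 * Y ^ 2) ≤
        4 * K * θ * Φ ^ 2 + l * Φ + θ * Φ ^ 2 := by
      have := mul_le_mul_of_nonneg_left h10 hθ
      linarith
    refine (mul_le_mul_of_nonneg_left e2 hr0).trans (le_of_eq ?_)
    ring
  have hΦc : ((∑ v, cost α β W v : ℕ) : ℝ) = Φ := by push_cast; rfl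
  rw [hΦc] at hsmall
  have h12 : Φ = 0 := by
    by_contra hne
    have hpos : 0 < Φ := lt_of_le_of_ne hΦ0 (Ne.symm hne)
    have e1 := mul_lt_mul_of_pos_right hsmall hpos
    have e2 := mul_le_mul_of_nonneg_right hl1 hΦ0
    nlinarith
  rw [← hΦc] at h12
  exact_mod_cast h12

theorem square_decode [Nonempty A] [Nonempty B] (hα : ∀ a u, α a (α a u) = u)
    (hβ : ∀ b u, β b (β b u) = u) (hcomm : ∀ a b u, α a (β b u) = β b (α a u))
    (hα' : ∀ a u, α a u ≠ u) (hβ' : ∀ b u, β b u ≠ u)
    {CA : Submodule F (A → F)} {CB : Submodule F (B → F)} {r K : ℕ}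
    (hA : Dist CA r) (hB : Dist CB r) (hK : Agree CA CB K) {l θ : ℝ}
    (hmα : Mix α l θ) (hmβ : Mix β l θ) (hθ : 0 ≤ θ) (hl1 : 2 * r * l ≤ 1) (hl2 : 4 * K * l ≤ 1)
    (W0 : V → A × B → F) (hW0 : ∀ v, W0 v ∈ tens CA CB)
    (hsmall : 2 * r * (4 * K + 1) * θ * (∑ v, cost α β W0 v : ℕ) < 1) :
    ∃ W : V → A × B → F, (∀ v, W v ∈ tens CA CB) ∧ (∀ v a b, W v (a, b) = W (α a v) (a, b)) ∧
      (∀ v a b, W v (a, b) = W (β b v) (a, b)) ∧ #{v | W v ≠ W0 v} ≤ ∑ v, cost α β W0 v := by
  obtain ⟨W, hW, hmin⟩ := Set.exists_min_image {W : V → A × B → F | ∀ v, W v ∈ tens CA CB}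
    (fun W => ∑ v, cost α β W v + #{v | W v ≠ W0 v}) (Set.toFinite _) ⟨W0, hW0⟩
  have h0 : ∑ v, cost α β W v + #{v | W v ≠ W0 v} ≤ ∑ v, cost α β W0 v := by
    simpa using hmin W0 hW0
  have hz : ∑ v, cost α β W v = 0 := by
    refine expand hα hβ hcomm hA hB hK hmα hmβ hθ hl1 hl2 W hW (fun v W' hW' => ?_) ?_
    · have h1 := hmin (Function.update W v W') (fun u => by
        by_cases h : u = v
        · subst h; simpa using hW'
        · rw [Function.update_of_ne h]; exact hW u)
      have h2 : #{u | Function.update W v W' u ≠ W0 u} ≤ #{u | W u ≠ W0 u} + 1 := by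
        refine le_trans (card_le_card (t := insert v (univ.filter fun u => W u ≠ W0 u)) fun u hu => ?_)
          (card_insert_le _ _)
        by_cases h : u = v
        · exact mem_insert.2 (Or.inl h)
        · refine mem_insert_of_mem (mem_filter.2 ⟨mem_univ _, ?_⟩)
          have := (mem_filter.1 hu).2
          rwa [Function.update_of_ne h] at this
      have e1 : rows (Function.update W v W') =
          Function.update (rows W) v (fun a b => W' (a, b)) := by
        ext u a b
        by_cases h : u = v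
        · subst h; simp [rows]
        · simp [rows, Function.update_of_ne h]
      have e2 : cols (Function.update W v W') =
          Function.update (cols W) v (fun b a => W' (a, b)) := by
        ext u b a
        by_cases h : u = v
        · subst h; simp [cols]
        · simp [cols, Function.update_of_ne h]
      have u1 := congrArg (Fintype.card B * ·)
        (update_cnt α hα v (fun a => hα' a v) (rows W) (fun a b => W' (a, b)))
      have u2 := congrArg (Fintype.card A * ·)
        (update_cnt β hβ v (fun b => hβ' b v) (cols W) (fun b a => W' (a, b)))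
      simp only [cost, Finset.sum_add_distrib, ← Finset.mul_sum, e1, e2] at h1 ⊢
      simp only [mul_add, mul_left_comm _ 2] at u1 u2
      omega
    · refine lt_of_le_of_lt (mul_le_mul_of_nonneg_left ?_ (by positivity)) hsmall
      exact_mod_cast le_trans (Nat.le_add_right _ _) h0
  have hz' : ∀ v, cnt α (rows W) v = 0 ∧ cnt β (cols W) v = 0 := by
    intro v
    have := (Finset.sum_eq_zero_iff.1 hz) v (mem_univ v)
    simp only [cost, Nat.add_eq_zero_iff, mul_eq_zero, Fintype.card_ne_zero, false_or] at this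
    exact this
  refine ⟨W, hW, fun v a b => ?_, fun v a b => ?_, le_trans (Nat.le_add_left _ _) h0⟩
  · have := filter_eq_empty_iff.1 (card_eq_zero.1 (hz' v).1) (mem_univ a)
    exact congrFun (not_not.1 this) b
  · have := filter_eq_empty_iff.1 (card_eq_zero.1 (hz' v).2) (mem_univ b)
    exact congrFun (not_not.1 this) a

end main

end Pool.Agent.P.MP_55663b_lc
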