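import Mathlib
import Pool.Agent.P.MP_55663b_lc.Mix
import Pool.Agent.P.MP_55663b_lc.Codes

/-!
Tanner codes on bipartite expanders: distance and agreement testability of tensor products.
-/

open Finset Module

namespace Pool.Agent.P.MP_55663b_lc

variable {U D : Type} [Fintype U] [Fintype D] [DecidableEq U] [DecidableEq D]

/-- The edge with label `i` at the vertex `y`. -/
def edge (φ : D → U ≃ U) (y : Bool × U) (i : D) : U × D :=
  (cond y.1 ((φ i).symm y.2) y.2, i)

omit [Fintype U] [Fintype D] [DecidableEq U] [DecidableEq D] in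
theorem edge_dc (φ : D → U ≃ U) (y : Bool × U) (i : D) : edge φ (dc φ i y) i = edge φ y i := by
  rcases y with ⟨_ | _, u⟩ <;> simp [edge, dc]

theorem card_touch_le (φ : D → U ≃ U) (S : Finset (U × D)) :
    #{y | ∃ i, edge φ y i ∈ S} ≤ 2 * #S := by
  have : ({y | ∃ i, edge φ y i ∈ S} : Finset (Bool × U)) ⊆
      ((Finset.univ : Finset Bool) ×ˢ S).image
        (fun p => (p.1, cond p.1 (φ p.2.2 p.2.1) p.2.1)) := by
    intro y hy
    obtain ⟨i, hi⟩ := (mem_filter.1 hy).2
    refine mem_image.2 ⟨(y.1, edge φ y i), mem_product.2 ⟨mem_univ _, hi⟩, ?_⟩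
    rcases y with ⟨_ | _, u⟩ <;> simp [edge]
  refine (card_le_card this).trans (card_image_le.trans ?_)
  simp

theorem card_view_le (φ : D → U ≃ U) (z : U × D → F) :
    #{y | (fun i => z (edge φ y i)) ≠ 0} ≤ 2 * hammingNorm z := by
  refine le_trans (card_le_card fun y hy => ?_) (card_touch_le φ {a | z a ≠ 0})
  obtain ⟨i, hi⟩ := Function.ne_iff.1 (mem_filter.1 hy).2
  exact mem_filter.2 ⟨mem_univ _, i, mem_filter.2 ⟨mem_univ _, hi⟩⟩

omit [DecidableEq D] in
theorem dense_of_view {φ : D → U ≃ U} {Cin : Submodule F (D → F)} {r : ℕ} (hC : Dist Cin r)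
    {z : U × D → F} {y : Bool × U} (hy : (fun i => z (edge φ y i)) ∈ Cin)
    (h0 : (fun i => z (edge φ y i)) ≠ 0) {T : Finset (Bool × U)}
    (hT : ∀ y', (fun i => z (edge φ y' i)) ≠ 0 → y' ∈ T) :
    Fintype.card D ≤ r * #{i | dc φ i y ∈ T} := by
  refine (hC _ hy h0).trans (Nat.mul_le_mul_left _ (card_le_card fun i hi => ?_))
  refine mem_filter.2 ⟨mem_univ _, hT _ (Function.ne_iff.2 ⟨i, ?_⟩)⟩
  rw [edge_dc]
  exact (mem_filter.1 hi).2

theorem tanner_dist [Nonempty U] [Nonempty D] {φ : D → U ≃ U} {l : ℝ}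
    (hmix : Mix (dc φ) l (1 / Fintype.card U)) {Cin : Submodule F (D → F)} {r : ℕ}
    (hC : Dist Cin r) (hl : 4 * r * l ≤ 1) :
    Dist (localCode (edge φ) Cin) (8 * r * Fintype.card D) := by
  intro x hx h0
  set T : Finset (Bool × U) := {y | (fun i => x (edge φ y i)) ≠ 0} with hT
  have hN : (0 : ℝ) < Fintype.card U := Nat.cast_pos.2 Fintype.card_pos
  have hbig : Fintype.card U < 4 * r * #T := by
    by_contra hcon
    push Not at hcon
    have h1 := hmix.dichotomy hl T ∅ (fun y hy _ =>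
      dense_of_view hC (mem_localCode.1 hx y) (mem_filter.1 hy).2
        fun y' hy' => mem_filter.2 ⟨mem_univ _, hy'⟩) (by
      have : (4 * r * #T : ℝ) ≤ Fintype.card U := by exact_mod_cast hcon
      rw [mul_right_comm, mul_one_div, div_le_one hN]
      exact this)
    obtain ⟨a, ha⟩ := Function.ne_iff.1 h0
    have : (false, a.1) ∈ T := mem_filter.2 ⟨mem_univ _, Function.ne_iff.2 ⟨a.2, ha⟩⟩
    have := card_pos.2 ⟨_, this⟩
    simp only [card_empty] at h1
    omega
  have h2 := card_view_le φ x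
  rw [Fintype.card_prod]
  calc Fintype.card U * Fintype.card D ≤ 4 * r * (2 * hammingNorm x) * Fintype.card D :=
        Nat.mul_le_mul_right _ (hbig.le.trans (Nat.mul_le_mul_left _ h2))
    _ = _ := by ring

/-- Extension of a partial tensor codeword. -/
theorem extend_tens {A B : Type} [Fintype A] [Fintype B] [DecidableEq A] [DecidableEq B]
    {CA : Submodule F (A → F)} {CB : Submodule F (B → F)} {rA rB : ℕ}
    (hA : Dist CA rA) (hB : Dist CB rB) (X Y : A × B → F)
    (hX : ∀ a, (fun b => X (a, b)) ∈ CB) (hY : ∀ b, (fun a => Y (a, b)) ∈ CA)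
    (A' : Finset A) (B' : Finset B) (hA' : rA * #A' < Fintype.card A)
    (hB' : rB * #B' < Fintype.card B) (hXY : ∀ a ∉ A', ∀ b ∉ B', X (a, b) = Y (a, b)) :
    ∃ W ∈ tens CA CB, (∀ a ∉ A', (fun b => W (a, b)) = fun b => X (a, b)) ∧
      ∀ b ∉ B', (fun a => W (a, b)) = fun a => Y (a, b) := by
  let res : CA →ₗ[F] ({a // a ∉ A'} → F) := LinearMap.funLeft F F Subtype.val ∘ₗ CA.subtype
  have hres : LinearMap.ker res = ⊥ := by
    rw [LinearMap.ker_eq_bot']
    intro c hc
    by_contra h0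
    have h1 := hA c c.2 (fun h => h0 (Subtype.ext h))
    have h2 : hammingNorm (c : A → F) ≤ #A' := by
      refine card_le_card fun a ha => ?_
      by_contra haA
      exact (mem_filter.1 ha).2 (congrFun hc ⟨a, haA⟩)
    have := Nat.mul_le_mul_left rA h2
    omega
  obtain ⟨ψ, hψ⟩ := LinearMap.exists_leftInverse_of_injective res hres
  let W : A × B → F := fun p => (ψ (fun a' => X (a'.1, p.2)) : A → F) p.1
  have hcol : ∀ b ∉ B', (fun a => W (a, b)) = fun a => Y (a, b) := by
    intro b hb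
    have e : (fun a' : {a // a ∉ A'} => X (a'.1, b)) = res ⟨_, hY b⟩ := by
      ext a'
      exact hXY _ a'.2 b hb
    have := congrArg (fun f : CA →ₗ[F] CA => (f ⟨_, hY b⟩ : A → F)) hψ
    simp only [LinearMap.comp_apply, LinearMap.id_apply] at this
    simp only [W, e]
    exact this
  have hrow : ∀ a, (fun b => W (a, b)) ∈ CB := by
    intro a
    let g : ({a // a ∉ A'} → F) →ₗ[F] F := LinearMap.proj a ∘ₗ CA.subtype ∘ₗ ψ
    have e : (fun b => W (a, b)) = ∑ a' : {a // a ∉ A'},
        (g fun j => if a' = j then 1 else 0) • fun b => X (a'.1, b) := by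
      ext b
      have : W (a, b) = g (fun a' => X (a'.1, b)) := rfl
      rw [this, LinearMap.pi_apply_eq_sum_univ, Finset.sum_apply]
      exact Finset.sum_congr rfl fun a' _ => by simp [mul_comm]
    rw [e]
    exact CB.sum_mem fun a' _ => CB.smul_mem _ (hX _)
  refine ⟨W, mem_tens.2 ⟨hrow, fun b => (ψ fun a' => X (a'.1, b)).2⟩, fun a ha => ?_, hcol⟩
  by_contra hne
  have h1 := hB.le_of_ne (hrow a) (hX a) hne
  have h2 : #{b | W (a, b) ≠ X (a, b)} ≤ #B' := by
    refine card_le_card fun b hb => ?_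
    by_contra hbB
    apply (mem_filter.1 hb).2
    rw [hXY a ha b hbB]
    exact congrFun (hcol b hbB) a
  have := Nat.mul_le_mul_left rB h2
  omega

theorem tanner_agree [Nonempty U] [Nonempty D] {φ : D → U ≃ U} {l : ℝ}
    (hmix : Mix (dc φ) l (1 / Fintype.card U)) {Cin : Submodule F (D → F)} {r : ℕ} (hr : 1 ≤ r)
    (hC : Dist Cin r) (hl : 4 * r * l ≤ 1) {B : Type} [Fintype B] [DecidableEq B]
    {CB : Submodule F (B → F)} (hB : Dist CB r) :
    Agree (localCode (edge φ) Cin) CB (64 * r ^ 2 * Fintype.card D ^ 3) := by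
  intro X Y hX hY
  set N := Fintype.card U with hN
  set d := Fintype.card D with hd
  set n := Fintype.card B with hn
  set m := #{p | X p ≠ Y p} with hm
  have hd1 : 1 ≤ d := Fintype.card_pos
  have hN1 : 1 ≤ N := Fintype.card_pos
  have hcardA : Fintype.card (U × D) = N * d := Fintype.card_prod _ _
  by_cases hbig : N * n ≤ 32 * r ^ 2 * d ^ 2 * m
  · refine ⟨0, Submodule.zero_mem _, ?_⟩
    have h1 : #{a | (fun b => (0 : (U × D) × B → F) (a, b)) ≠ fun b => X (a, b)} ≤ N * d :=
      hcardA ▸ card_le_univ _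
    have h2 : #{b | (fun a => (0 : (U × D) × B → F) (a, b)) ≠ fun a => Y (a, b)} ≤ n :=
      card_le_univ _
    rw [hcardA]
    calc _ ≤ n * (N * d) + N * d * n :=
          Nat.add_le_add (Nat.mul_le_mul_left _ h1) (Nat.mul_le_mul_left _ h2)
      _ = 2 * d * (N * n) := by ring
      _ ≤ 2 * d * (32 * r ^ 2 * d ^ 2 * m) := Nat.mul_le_mul_left _ hbig
      _ = _ := by ring
  push Not at hbig
  have hn1 : 0 < n := Nat.pos_of_ne_zero fun h => by rw [h] at hbig; omega
  -- rows and columns with many disagreements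
  have hrows : ∑ a, #{b | X (a, b) ≠ Y (a, b)} = m := by
    rw [hm, card_filter, Fintype.sum_prod_type (α₁ := U × D)]
    exact Finset.sum_congr rfl fun a _ => card_filter _ _
  have hcols : ∑ b, #{a | X (a, b) ≠ Y (a, b)} = m := by
    rw [hm, card_filter, Fintype.sum_prod_type_right]
    exact Finset.sum_congr rfl fun a _ => card_filter _ _
  set Abad : Finset (U × D) := {a | n ≤ r * d * #{b | X (a, b) ≠ Y (a, b)}} with hAbad
  set Bbad : Finset B := {b | N < 16 * r * #{a | X (a, b) ≠ Y (a, b)}} with hBbad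
  have hAb : #Abad * n ≤ r * d * m := by
    rw [← hrows, Finset.mul_sum, ← smul_eq_mul, ← Finset.sum_const]
    exact (Finset.sum_le_sum fun a ha => (mem_filter.1 ha).2).trans
      (Finset.sum_le_sum_of_subset (subset_univ _))
  have hBb : #Bbad * N ≤ 16 * r * m := by
    rw [← hcols, Finset.mul_sum, ← smul_eq_mul, ← Finset.sum_const]
    exact (Finset.sum_le_sum fun b hb => (mem_filter.1 hb).2.le).trans
      (Finset.sum_le_sum_of_subset (subset_univ _))
  have hAsmall : 32 * r * d * #Abad < N := by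
    refine Nat.lt_of_mul_lt_mul_right (a := n) ?_
    calc 32 * r * d * #Abad * n = 32 * r * d * (#Abad * n) := by ring
      _ ≤ 32 * r * d * (r * d * m) := Nat.mul_le_mul_left _ hAb
      _ = 32 * r ^ 2 * d ^ 2 * m := by ring
      _ < _ := hbig
  have hBsmall : r * #Bbad < n := by
    refine Nat.lt_of_mul_lt_mul_left (a := N) ?_
    calc N * (r * #Bbad) = r * (#Bbad * N) := by ring
      _ ≤ r * (16 * r * m) := Nat.mul_le_mul_left _ hBb
      _ = 16 * r ^ 2 * 1 * m := by ring
      _ ≤ 32 * r ^ 2 * d ^ 2 * m :=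
          Nat.mul_le_mul_right _ (Nat.mul_le_mul (Nat.mul_le_mul_right _ (by norm_num))
            (Nat.one_le_pow _ _ hd1))
      _ < _ := hbig
  set Bad : Finset (Bool × U) := {y | ∃ i, edge φ y i ∈ Abad} with hBad
  have hBadc : #Bad ≤ 2 * #Abad := card_touch_le φ Abad
  -- at good vertices all columns of X satisfy the local constraint
  have hgood : ∀ y ∉ Bad, ∀ b, (fun i => X (edge φ y i, b)) ∈ Cin := by
    intro y hy b0
    by_contra hnot
    obtain ⟨h, hh0, hh1⟩ := exists_dual_check hnot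
    let ρ : B → F := ∑ i, h i • fun b => X (edge φ y i, b)
    have hρ : ∀ b, ρ b = ∑ i, h i * X (edge φ y i, b) := fun b => by simp [ρ, Finset.sum_apply]
    have hρB : ρ ∈ CB := CB.sum_mem fun i _ => CB.smul_mem _ (hX _)
    have hρ0 : ρ ≠ 0 := Function.ne_iff.2 ⟨b0, by rw [hρ]; exact hh1⟩
    have h1 := hB ρ hρB hρ0
    have h2 : hammingNorm ρ ≤ ∑ i, #{b | X (edge φ y i, b) ≠ Y (edge φ y i, b)} := by
      refine le_trans (card_le_card fun b hb => ?_) card_biUnion_le
      by_contra hcon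
      simp only [mem_biUnion, mem_univ, mem_filter, true_and, not_exists, not_not] at hcon
      apply (mem_filter.1 hb).2
      rw [hρ]
      simp only [hcon]
      exact hh0 _ (mem_localCode.1 (hY b) y)
    have h3 : ∀ i, r * d * #{b | X (edge φ y i, b) ≠ Y (edge φ y i, b)} < n := by
      intro i
      by_contra hcon
      exact hy (mem_filter.2 ⟨mem_univ _, i, mem_filter.2 ⟨mem_univ _, not_lt.1 hcon⟩⟩)
    have h4 := Finset.sum_lt_sum_of_nonempty Finset.univ_nonempty fun i _ => h3 i
    rw [← Finset.mul_sum, Finset.sum_const, card_univ, smul_eq_mul, ← hd] at h4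
    have h5 : d * n ≤ d * (r * ∑ i, #{b | X (edge φ y i, b) ≠ Y (edge φ y i, b)}) :=
      Nat.mul_le_mul_left _ (h1.trans (Nat.mul_le_mul_left _ h2))
    rw [← mul_assoc, mul_comm d r] at h5
    omega
  -- the union of the supports of the differences of good columns is small
  let S : B → Finset (Bool × U) := fun b =>
    {y | (fun i => X (edge φ y i, b) - Y (edge φ y i, b)) ≠ 0}
  have hS : ∀ b ∉ Bbad, 8 * r * #(S b) ≤ N := by
    intro b hb
    have h1 := card_view_le φ (fun a => X (a, b) - Y (a, b))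
    have h2 : hammingNorm (fun a => X (a, b) - Y (a, b)) = #{a | X (a, b) ≠ Y (a, b)} := by
      simp only [hammingNorm, sub_ne_zero]
    have h3 : 16 * r * #{a | X (a, b) ≠ Y (a, b)} ≤ N := by
      by_contra hcon
      exact hb (mem_filter.2 ⟨mem_univ _, not_le.1 hcon⟩)
    rw [h2] at h1
    calc 8 * r * #(S b) ≤ 8 * r * (2 * #{a | X (a, b) ≠ Y (a, b)}) := Nat.mul_le_mul_left _ h1
      _ = 16 * r * #{a | X (a, b) ≠ Y (a, b)} := by ring
      _ ≤ N := h3
  have hind : ∀ B0 : Finset B, (∀ b ∈ B0, b ∉ Bbad) → #(B0.biUnion S) ≤ 2 * #Bad := by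
    intro B0
    induction B0 using Finset.induction_on with
    | empty => simp
    | insert b B0 hb ih =>
      intro hall
      have ih' := ih fun b' hb' => hall b' (mem_insert_of_mem hb')
      have hsz : 4 * r * #((insert b B0).biUnion S) ≤ N := by
        rw [biUnion_insert]
        have h1 := card_union_le (S b) (B0.biUnion S)
        have h2 := hS b (hall b (mem_insert_self _ _))
        have h3 : 32 * r * #Abad ≤ N := by
          refine le_trans ?_ hAsmall.le
          exact Nat.mul_le_mul_right _ (Nat.le_mul_of_pos_right _ hd1)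
        have h4 : #(S b ∪ B0.biUnion S) ≤ #(S b) + 4 * #Abad := by omega
        have h5 := Nat.mul_le_mul_left (8 * r) h4
        have h6 : 8 * r * (#(S b) + 4 * #Abad) = 8 * r * #(S b) + 32 * r * #Abad := by ring
        have h7 : 8 * r * #(S b ∪ B0.biUnion S) = 2 * (4 * r * #(S b ∪ B0.biUnion S)) := by ring
        omega
      refine hmix.dichotomy hl _ Bad (fun y hy hyB => ?_) ?_
      · obtain ⟨b', hb', hyb'⟩ := mem_biUnion.1 hy
        refine dense_of_view (z := fun a => X (a, b') - Y (a, b')) hC ?_ (mem_filter.1 hyb').2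
          fun y' hy' => mem_biUnion.2 ⟨b', hb', mem_filter.2 ⟨mem_univ _, hy'⟩⟩
        exact Cin.sub_mem (hgood y hyB b') (mem_localCode.1 (hY b') y)
      · have hNr : (0 : ℝ) < N := Nat.cast_pos.2 hN1
        have : (4 * r * #((insert b B0).biUnion S) : ℝ) ≤ N := by exact_mod_cast hsz
        rw [mul_right_comm, mul_one_div, div_le_one hNr]
        exact this
  set Ust := (Finset.univ \ Bbad).biUnion S with hUst
  have hUc : #Ust ≤ 4 * #Abad := by
    have : #Ust ≤ 2 * #Bad := hind (Finset.univ \ Bbad) fun b hb => (mem_sdiff.1 hb).2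
    omega
  set A' : Finset (U × D) := {a | (false, a.1) ∈ Ust} with hA'
  have hA'c : #A' ≤ d * #Ust := by
    refine card_preimage_le (fun a : U × D => (false, a.1)) d (fun y => ?_) Ust
    rw [hd, ← card_univ]
    refine card_le_card_of_injOn Prod.snd (fun _ _ => mem_univ _) fun a ha a' ha' h => ?_
    have e1 := (mem_filter.1 (mem_coe.1 ha)).2
    have e2 := (mem_filter.1 (mem_coe.1 ha')).2
    exact Prod.ext (congrArg Prod.snd (e1.trans e2.symm)) h
  have hA'4 : #A' ≤ 4 * d * #Abad := by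
    calc #A' ≤ d * (4 * #Abad) := hA'c.trans (Nat.mul_le_mul_left _ hUc)
      _ = _ := by ring
  obtain ⟨W, hW, hWr, hWc⟩ := extend_tens (tanner_dist hmix hC hl) hB X Y hX hY A' Bbad
    (by
      rw [hcardA]
      calc 8 * r * d * #A' ≤ 8 * r * d * (4 * d * #Abad) := Nat.mul_le_mul_left _ hA'4
        _ = 32 * r * d * #Abad * d := by ring
        _ < N * d := Nat.mul_lt_mul_of_pos_right hAsmall hd1)
    hBsmall (by
      intro a ha b hb
      by_contra hne
      apply ha
      refine mem_filter.2 ⟨mem_univ _, mem_biUnion.2 ⟨b, mem_sdiff.2 ⟨mem_univ _, hb⟩,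
        mem_filter.2 ⟨mem_univ _, Function.ne_iff.2 ⟨a.2, ?_⟩⟩⟩⟩
      exact sub_ne_zero.2 hne)
  refine ⟨W, hW, ?_⟩
  have h1 : #{a | (fun b => W (a, b)) ≠ fun b => X (a, b)} ≤ #A' :=
    card_le_card fun a ha => by_contra fun h => (mem_filter.1 ha).2 (hWr a h)
  have h2 : #{b | (fun a => W (a, b)) ≠ fun a => Y (a, b)} ≤ #Bbad :=
    card_le_card fun b hb => by_contra fun h => (mem_filter.1 hb).2 (hWc b h)
  rw [hcardA]
  have e1 : r * d ^ 2 ≤ r ^ 2 * d ^ 3 :=
    Nat.mul_le_mul (Nat.le_self_pow (by norm_num) r) (Nat.pow_le_pow_right hd1 (by norm_num))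
  have e2 : r * d ≤ r ^ 2 * d ^ 3 :=
    Nat.mul_le_mul (Nat.le_self_pow (by norm_num) r) (Nat.le_self_pow (by norm_num) d)
  calc _ ≤ n * (4 * d * #Abad) + N * d * #Bbad :=
        Nat.add_le_add (Nat.mul_le_mul_left _ (h1.trans hA'4)) (Nat.mul_le_mul_left _ h2)
    _ = 4 * d * (#Abad * n) + d * (#Bbad * N) := by ring
    _ ≤ 4 * d * (r * d * m) + d * (16 * r * m) :=
        Nat.add_le_add (Nat.mul_le_mul_left _ hAb) (Nat.mul_le_mul_left _ hBb)
    _ = (4 * (r * d ^ 2) + 16 * (r * d)) * m := by ring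
    _ ≤ (64 * (r ^ 2 * d ^ 3)) * m := Nat.mul_le_mul_right _ (by omega)
    _ = _ := by ring

end Pool.Agent.P.MP_55663b_lc
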