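import Mathlib
import Pool.Agent.P.MP_55663b_lc.Tanner
import Pool.Agent.P.MP_55663b_lc.Square

/-!
Locally testable codes of constant rate, distance and locality on left-right Cayley complexes.
-/

open Finset Module

namespace Pool.Agent.P.MP_55663b_lc

/-- A good strong locally testable code with bounded degree checks. -/
def IsLTC {ι : Type} [Fintype ι] [DecidableEq ι] (C : Submodule F (ι → F)) (q D K r : ℕ) : Prop :=
  (∃ (τ : Type) (_ : Fintype τ) (_ : DecidableEq τ) (sup : τ → Fin q → ι) (co : τ → Fin q → F),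
    Fintype.card τ ≤ D * Fintype.card ι ∧
    (∀ c ∈ C, ∀ t, ∑ k, co t k * c (sup t k) = 0) ∧
    (∀ i, #{p : τ × Fin q | sup p.1 p.2 = i} ≤ D) ∧
    ∀ w, ∃ c ∈ C, hammingDist w c ≤ K * #{t | ∑ k, co t k * w (sup t k) ≠ 0}) ∧
  Fintype.card ι ≤ r * finrank F C ∧ Dist C r

section cayley

variable {G A B : Type} [Group G]

/-- Left neighbours. -/
def lft (s : A → G) (a : A) (v : Bool × Bool × G) : Bool × Bool × G :=
  (!v.1, v.2.1, cond v.1 (s a)⁻¹ (s a) * v.2.2)

/-- Right neighbours. -/
def rgt (t : B → G) (b : B) (v : Bool × Bool × G) : Bool × Bool × G :=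
  (v.1, !v.2.1, v.2.2 * cond v.2.1 (t b)⁻¹ (t b))

/-- The square with labels `p` at the vertex `v`. -/
def sqr (s : A → G) (t : B → G) (v : Bool × Bool × G) (p : A × B) : G × A × B :=
  (cond v.1 (s p.1)⁻¹ 1 * v.2.2 * cond v.2.1 (t p.2)⁻¹ 1, p)

theorem sqr_lft (s : A → G) (t : B → G) (v : Bool × Bool × G) (a : A) (b : B) :
    sqr s t (lft s a v) (a, b) = sqr s t v (a, b) := by
  rcases v with ⟨_ | _, j, g⟩ <;> simp [sqr, lft]

theorem sqr_rgt (s : A → G) (t : B → G) (v : Bool × Bool × G) (a : A) (b : B) :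
    sqr s t (rgt t b v) (a, b) = sqr s t v (a, b) := by
  rcases v with ⟨i, _ | _, g⟩ <;> simp [sqr, rgt, mul_assoc]

theorem lft_lft (s : A → G) (a : A) (v : Bool × Bool × G) : lft s a (lft s a v) = v := by
  rcases v with ⟨_ | _, j, g⟩ <;> simp [lft]

theorem rgt_rgt (t : B → G) (b : B) (v : Bool × Bool × G) : rgt t b (rgt t b v) = v := by
  rcases v with ⟨i, _ | _, g⟩ <;> simp [rgt]

theorem lft_rgt (s : A → G) (t : B → G) (a : A) (b : B) (v : Bool × Bool × G) :
    lft s a (rgt t b v) = rgt t b (lft s a v) := by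
  simp [lft, rgt, mul_assoc]

theorem lft_ne (s : A → G) (a : A) (v : Bool × Bool × G) : lft s a v ≠ v := by
  intro h
  have := congrArg Prod.fst h
  simp [lft] at this

theorem rgt_ne (t : B → G) (b : B) (v : Bool × Bool × G) : rgt t b v ≠ v := by
  intro h
  have := congrArg (fun u => u.2.1) h
  simp [rgt] at this

variable [Fintype G] [Fintype A] [Fintype B]

theorem mix_rgt {t : B → G} {l : ℝ} (ht : OpExp t (l ^ 2)) (hl : 0 ≤ l) :
    Mix (rgt t) l (1 / Fintype.card G) := by
  have := ((ht.bmix_right hl).mix_dc (by positivity)).lift Bool (by positivity)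
  convert this using 1
  ext b ⟨i, _ | _, g⟩ <;> simp [rgt, dc]

theorem mix_lft {s : A → G} {l : ℝ} (hs : OpExp s (l ^ 2)) (hl : 0 ≤ l) :
    Mix (lft s) l (1 / Fintype.card G) := by
  let e : Bool × Bool × G ≃ Bool × Bool × G :=
    { toFun := fun v => (v.2.1, v.1, v.2.2)
      invFun := fun v => (v.2.1, v.1, v.2.2)
      left_inv := fun v => rfl
      right_inv := fun v => rfl }
  have := (((hs.bmix_left hl).mix_dc (by positivity)).lift Bool (by positivity)).conj e
  convert this using 1
  ext a ⟨_ | _, j, g⟩ <;> simp [lft, dc, e]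

theorem cnt_le_bad {V A X : Type} [Fintype V] [Fintype A] [DecidableEq V] [DecidableEq X]
    (τ : A → V → V) (hτ : ∀ a u, τ a (τ a u) = u) (R : V → A → X) (bad : Finset V)
    (h : ∀ v a, v ∉ bad → τ a v ∉ bad → R v a = R (τ a v) a) :
    ∑ v, cnt τ R v ≤ Fintype.card A * (2 * bad.card) := by
  rw [sum_cnt, ← card_univ, ← smul_eq_mul, ← Finset.sum_const]
  refine Finset.sum_le_sum fun a _ => ?_
  refine le_trans (card_le_card (t := bad ∪ bad.image (τ a)) fun v hv => ?_)
    ((card_union_le _ _).trans (by have := card_image_le (s := bad) (f := τ a); omega))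
  by_contra hcon
  rw [mem_union, not_or] at hcon
  exact (mem_filter.1 hv).2 (h v a hcon.1 fun h' => hcon.2 (mem_image.2 ⟨_, h', hτ a v⟩))

theorem cayley_ltc [DecidableEq G] [DecidableEq A] [DecidableEq B] [Nonempty A] [Nonempty B]
    {s : A → G} {t : B → G} {l : ℝ} (hs : OpExp s (l ^ 2)) (ht : OpExp t (l ^ 2)) (hl : 0 ≤ l)
    {CA : Submodule F (A → F)} {CB : Submodule F (B → F)} {r K kA kB : ℕ}
    (hA : Dist CA r) (hB : Dist CB r) (hK : Agree CA CB K)
    (hl1 : 4 * r * l ≤ 1) (hl2 : 4 * K * l ≤ 1)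
    (hcA : Cod CA kA) (hcB : Cod CB kB) (hkA : 16 * kA ≤ Fintype.card A)
    (hkB : 16 * kB ≤ Fintype.card B) :
    IsLTC (localCode (sqr s t) (tens CA CB)) (Fintype.card (A × B))
      (4 * Fintype.card (A × B → F))
      (Fintype.card (A × B) * (4 * Fintype.card (A × B) + 1) +
        8 * r * (4 * K + 1) * Fintype.card (A × B) ^ 2)
      (16 * r * Fintype.card (A × B) + 2) := by
  classical
  set q := Fintype.card (A × B) with hq
  have hq' : q = Fintype.card A * Fintype.card B := Fintype.card_prod _ _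
  have hq1 : 1 ≤ q := Fintype.card_pos
  set N := Fintype.card G with hN
  have hN1 : 1 ≤ N := Fintype.card_pos
  have hNr : (0 : ℝ) < N := Nat.cast_pos.2 hN1
  have hι : Fintype.card (G × A × B) = N * q := Fintype.card_prod _ _
  have hV : Fintype.card (Bool × Bool × G) = 4 * N := by
    simp only [Fintype.card_prod, Fintype.card_bool, hN]; ring
  have hr0 : (0 : ℝ) ≤ r := Nat.cast_nonneg _
  refine ⟨?_, ?_, ?_⟩
  · let e : Fin q ≃ A × B := (Fintype.equivFin _).symm
    let dual : (A × B → F) → Prop := fun h => ∀ c ∈ tens CA CB, ∑ p, h p * c p = 0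
    have hsum : ∀ (v : Bool × Bool × G) (h : A × B → F) (w : G × A × B → F),
        ∑ k, (if dual h then h (e k) else 0) * w (sqr s t v (e k)) =
          if dual h then ∑ p, h p * w (sqr s t v p) else 0 := by
      intro v h w
      split_ifs
      · exact Equiv.sum_comp e (fun p => h p * w (sqr s t v p))
      · simp
    refine ⟨(Bool × Bool × G) × (A × B → F), inferInstance, inferInstance,
      fun τ k => sqr s t τ.1 (e k), fun τ k => if dual τ.2 then τ.2 (e k) else 0, ?_, ?_, ?_, ?_⟩
    · rw [Fintype.card_prod, hV, hι]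
      calc 4 * N * Fintype.card (A × B → F) = 4 * Fintype.card (A × B → F) * (N * 1) := by ring
        _ ≤ _ := Nat.mul_le_mul_left _ (Nat.mul_le_mul_left _ hq1)
    · intro c hc τ
      rw [hsum]
      split_ifs with h
      · exact h _ (mem_localCode.1 hc τ.1)
      · rfl
    · intro i
      have : 4 * Fintype.card (A × B → F) = #(univ : Finset (Bool × Bool × (A × B → F))) := by
        simp only [card_univ, Fintype.card_prod (Bool), Fintype.card_bool]; ring
      rw [this]
      refine card_le_card_of_injOn (fun p => (p.1.1.1, p.1.1.2.1, p.1.2)) (fun _ _ => mem_univ _) ?_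
      rintro ⟨⟨⟨i1, j1, g1⟩, h1⟩, k1⟩ hp ⟨⟨⟨i2, j2, g2⟩, h2⟩, k2⟩ hp' heq
      have e1 := (mem_filter.1 (mem_coe.1 hp)).2
      have e2 := (mem_filter.1 (mem_coe.1 hp')).2
      simp only [Prod.mk.injEq] at heq
      obtain ⟨rfl, rfl, rfl⟩ := heq
      have e3 := e1.trans e2.symm
      simp only [sqr, Prod.mk.injEq, EmbeddingLike.apply_eq_iff_eq] at e3
      obtain ⟨e4, rfl⟩ := e3
      simp only [mul_left_inj, mul_right_inj] at e4
      rw [e4]
    · intro w
      let view : Bool × Bool × G → A × B → F := fun v p => w (sqr s t v p)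
      set bad : Finset (Bool × Bool × G) := {v | view v ∉ tens CA CB} with hbad
      set viol := #{τ : (Bool × Bool × G) × (A × B → F) |
        ∑ k, (if dual τ.2 then τ.2 (e k) else 0) * w (sqr s t τ.1 (e k)) ≠ 0} with hviol
      have hbv : bad.card ≤ viol := by
        refine le_trans (card_le_card fun v hv => ?_) (card_image_le (f := Prod.fst))
        obtain ⟨h, h1, h2⟩ := exists_dual_check (mem_filter.1 hv).2
        refine mem_image.2 ⟨(v, h), mem_filter.2 ⟨mem_univ _, ?_⟩, rfl⟩
        rw [hsum, if_pos h1]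
        exact h2
      let W0 : Bool × Bool × G → A × B → F := fun v => if v ∈ bad then 0 else view v
      have hW0 : ∀ v, W0 v ∈ tens CA CB := by
        intro v
        simp only [W0]
        split_ifs with h
        · exact Submodule.zero_mem _
        · exact not_not.1 fun h' => h (mem_filter.2 ⟨mem_univ _, h'⟩)
      have hΦ : ∑ v, cost (lft s) (rgt t) W0 v ≤ 4 * q * bad.card := by
        have h1 := cnt_le_bad (lft s) (lft_lft s) (rows W0) bad fun v a h1 h2 => by
          ext b
          simp only [rows, W0, if_neg h1, if_neg h2, view, sqr_lft]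
        have h2 := cnt_le_bad (rgt t) (rgt_rgt t) (cols W0) bad fun v b h1 h2 => by
          ext a
          simp only [cols, W0, if_neg h1, if_neg h2, view, sqr_rgt]
        simp only [cost, Finset.sum_add_distrib, ← Finset.mul_sum]
        calc _ ≤ Fintype.card B * (Fintype.card A * (2 * bad.card)) +
              Fintype.card A * (Fintype.card B * (2 * bad.card)) :=
              Nat.add_le_add (Nat.mul_le_mul_left _ h1) (Nat.mul_le_mul_left _ h2)
          _ = _ := by rw [hq']; ring
      by_cases hsmall : 2 * r * (4 * K + 1) * (1 / (N : ℝ)) *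
          (∑ v, cost (lft s) (rgt t) W0 v : ℕ) < 1
      · obtain ⟨W, hW, hWl, hWr, hWc⟩ := square_decode (lft_lft s) (rgt_rgt t) (lft_rgt s t)
          (lft_ne s) (rgt_ne t) hA hB hK (mix_lft hs hl) (mix_rgt ht hl) (by positivity)
          (by nlinarith [mul_nonneg hr0 hl]) hl2 W0 hW0 hsmall
        let c : G × A × B → F := fun i => W (false, false, i.1) i.2
        have hc : ∀ v p, c (sqr s t v p) = W v p := by
          rintro ⟨_ | _, _ | _, g⟩ ⟨a, b⟩
          · simp [c, sqr]
          · rw [hWr]; simp [c, sqr, rgt]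
          · rw [hWl]; simp [c, sqr, lft]
          · rw [hWl, hWr]; simp [c, sqr, lft, rgt]
        refine ⟨c, mem_localCode.2 fun v => by simp only [hc]; exact hW v, ?_⟩
        have h1 : hammingDist w c ≤ q * #{v | W v ≠ view v} := by
          refine le_trans (card_le_card fun i hi => ?_)
            (card_preimage_le (fun i : G × A × B => (false, false, i.1)) q (fun v => ?_) _)
          · refine mem_filter.2 ⟨mem_univ _, mem_filter.2 ⟨mem_univ _, fun h => ?_⟩⟩
            apply (mem_filter.1 hi).2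
            have := congrFun h i.2
            simp only [view, sqr, Bool.cond_false, one_mul, mul_one] at this
            exact this.symm
          · rw [hq, ← card_univ]
            refine card_le_card_of_injOn Prod.snd (fun _ _ => mem_univ _) fun a ha a' ha' h => ?_
            have e1 := (mem_filter.1 (mem_coe.1 ha)).2
            have e2 := (mem_filter.1 (mem_coe.1 ha')).2
            exact Prod.ext (congrArg (fun u => u.2.2) (e1.trans e2.symm)) h
        have h2 : #{v | W v ≠ view v} ≤ #{v | W v ≠ W0 v} + bad.card := by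
          refine le_trans (card_le_card fun v hv => ?_) (card_union_le _ _)
          by_cases h : v ∈ bad
          · exact mem_union_right _ h
          · refine mem_union_left _ (mem_filter.2 ⟨mem_univ _, ?_⟩)
            simp only [W0, if_neg h]
            exact (mem_filter.1 hv).2
        calc hammingDist w c ≤ q * (4 * q * bad.card + bad.card) :=
              h1.trans (Nat.mul_le_mul_left _ (h2.trans (Nat.add_le_add_right (hWc.trans hΦ) _)))
          _ = q * (4 * q + 1) * bad.card := by ring
          _ ≤ _ := Nat.mul_le_mul (Nat.le_add_right _ _) hbv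
      · refine ⟨0, Submodule.zero_mem _, ?_⟩
        rw [not_lt, mul_right_comm, mul_one_div, le_div_iff₀ hNr, one_mul] at hsmall
        have h1 : N ≤ 2 * r * (4 * K + 1) * ∑ v, cost (lft s) (rgt t) W0 v := by
          exact_mod_cast hsmall
        calc hammingDist w 0 ≤ N * q := hι ▸ hammingDist_le_card_fintype
          _ ≤ 2 * r * (4 * K + 1) * (4 * q * bad.card) * q :=
              Nat.mul_le_mul_right _ (h1.trans (Nat.mul_le_mul_left _ hΦ))
          _ = 8 * r * (4 * K + 1) * q ^ 2 * bad.card := by ring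
          _ ≤ _ := Nat.mul_le_mul (Nat.le_add_left _ _) hbv
  · have h1 : Cod (tens CA CB) (Fintype.card A * kB + Fintype.card B * kA) :=
      (hcB.localCode _).inf (hcA.localCode _)
    have h2 := h1.localCode (sqr s t)
    unfold Cod at h2
    rw [hV, hι] at h2
    rw [hι]
    have h3 : 8 * (Fintype.card A * kB + Fintype.card B * kA) ≤ q := by
      have a1 := Nat.mul_le_mul_left (Fintype.card A) hkB
      have a2 := Nat.mul_le_mul_left (Fintype.card B) hkA
      rw [hq']
      nlinarith
    have h4 := Nat.mul_le_mul_left N h3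
    have h5 : N * q ≤ 2 * finrank F (localCode (sqr s t) (tens CA CB)) := by nlinarith
    exact h5.trans (Nat.mul_le_mul_right _ (Nat.le_add_left _ _))
  · intro x hx h0
    set T : Finset (Bool × Bool × G) := {v | (fun p => x (sqr s t v p)) ≠ 0} with hT
    have hbig : N < 4 * r * #T := by
      by_contra hcon
      push Not at hcon
      have h1 := (mix_lft hs hl).dichotomy hl1 T ∅ (fun v hv _ => by
        obtain ⟨⟨a, b⟩, hab⟩ := Function.ne_iff.1 (mem_filter.1 hv).2
        refine (hA _ ((mem_tens.1 (mem_localCode.1 hx v)).2 b)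
          (Function.ne_iff.2 ⟨a, hab⟩)).trans (Nat.mul_le_mul_left _ (card_le_card fun a' ha' => ?_))
        refine mem_filter.2 ⟨mem_univ _, mem_filter.2 ⟨mem_univ _,
          Function.ne_iff.2 ⟨(a', b), ?_⟩⟩⟩
        rw [sqr_lft]
        exact (mem_filter.1 ha').2) (by
        have : (4 * r * #T : ℝ) ≤ N := by exact_mod_cast hcon
        rw [mul_right_comm, mul_one_div, div_le_one hNr]
        exact this)
      obtain ⟨i, hi⟩ := Function.ne_iff.1 h0
      have : (false, false, i.1) ∈ T := mem_filter.2 ⟨mem_univ _, Function.ne_iff.2 ⟨i.2, by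
        simpa [sqr] using hi⟩⟩
      have := card_pos.2 ⟨_, this⟩
      simp only [card_empty] at h1
      omega
    have h2 : #T ≤ 4 * hammingNorm x := by
      have : T ⊆ ((univ : Finset (Bool × Bool)) ×ˢ (univ.filter fun i => x i ≠ 0)).image
          (fun p => (p.1.1, p.1.2,
            cond p.1.1 (s p.2.2.1) 1 * p.2.1 * cond p.1.2 (t p.2.2.2) 1)) := by
        intro v hv
        obtain ⟨p, hp⟩ := Function.ne_iff.1 (mem_filter.1 hv).2
        refine mem_image.2 ⟨((v.1, v.2.1), sqr s t v p),
          mem_product.2 ⟨mem_univ _, mem_filter.2 ⟨mem_univ _, hp⟩⟩, ?_⟩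
        rcases v with ⟨_ | _, _ | _, g⟩ <;> simp [sqr, mul_assoc]
      refine (card_le_card this).trans (card_image_le.trans ?_)
      simp [hammingNorm]
    rw [hι]
    calc N * q ≤ 4 * r * (4 * hammingNorm x) * q :=
          Nat.mul_le_mul_right _ (hbig.le.trans (Nat.mul_le_mul_left _ h2))
      _ = 16 * r * q * hammingNorm x := by ring
      _ ≤ _ := Nat.mul_le_mul_right _ (Nat.le_add_right _ _)

end cayley

theorem exists_pow_le (m : ℕ) (hm : 0 < m) : ∃ j : ℕ, j ≠ 0 ∧
    (243 / 250 : ℝ) ^ j ≤ (1 / (m : ℝ)) ^ 2 := by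
  obtain ⟨j, hj⟩ := exists_pow_lt_of_lt_one (show (0 : ℝ) < (1 / (m : ℝ)) ^ 2 by positivity)
    (show (243 / 250 : ℝ) < 1 by norm_num)
  refine ⟨j + 1, Nat.succ_ne_zero _, le_trans ?_ hj.le⟩
  exact pow_le_pow_of_le_one (by norm_num) (by norm_num) (Nat.le_succ _)

theorem OpExp.mono {G A : Type} [Group G] [Fintype G] [Fintype A] {s : A → G} {μ ν : ℝ}
    (hs : OpExp s μ) (h : μ ≤ ν) : OpExp s ν := fun f hf =>
  (hs f hf).trans (mul_le_mul_of_nonneg_right (mul_le_mul_of_nonneg_right h (sq_nonneg _))
    (Finset.sum_nonneg fun _ _ => sq_nonneg _))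

/-- Good strong locally testable codes of unbounded length with uniform constants. -/
theorem exists_ltc : ∃ q D K r : ℕ, ∀ n : ℕ, ∃ (ι : Type) (_ : Fintype ι) (_ : DecidableEq ι)
    (C : Submodule F (ι → F)), n ≤ Fintype.card ι ∧ IsLTC C q D K r := by
  classical
  obtain ⟨j0, -, hj0⟩ := exists_pow_le (4 * 448) (by norm_num)
  let Din := Fin (25 ^ j0)
  haveI : Nonempty Din := ⟨⟨0, by positivity⟩⟩
  set d := Fintype.card Din with hd
  have hd1 : 1 ≤ d := Fintype.card_pos
  obtain ⟨Cin, kin, hcin, hkin, hdin⟩ := exists_gv Din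
  set K := 64 * 448 ^ 2 * d ^ 3 with hK
  have hK0 : 0 < K := by positivity
  obtain ⟨j1, hj1', hj1⟩ := exists_pow_le (4 * K) (by positivity)
  obtain ⟨U, _, _, hU, sU, hsU⟩ := exists_group (2 * j1) (by omega)
  obtain ⟨φ, hφ⟩ := exists_opExp_of_dvd hsU (by norm_num) j0 Din (by simp [Din])
  have hmix := ((hφ.mono hj0).bmix_left (by positivity)).mix_dc (by positivity)
  have hl0 : 4 * (448 : ℕ) * (1 / ((4 * 448 : ℕ) : ℝ)) ≤ 1 := by norm_num
  let B := Fin (25 ^ j1)
  haveI : Nonempty B := ⟨⟨0, by positivity⟩⟩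
  obtain ⟨CB, kB, hcB, hkB, hdB⟩ := exists_gv B
  have hdA := tanner_dist hmix hdin hl0
  have hag := tanner_agree hmix (by norm_num) hdin hl0 hdB
  have hcA := hcin.localCode (edge fun a => Equiv.mulLeft (φ a))
  refine ⟨Fintype.card ((U × Din) × B), 4 * Fintype.card ((U × Din) × B → F),
    Fintype.card ((U × Din) × B) * (4 * Fintype.card ((U × Din) × B) + 1) +
        8 * (8 * 448 * d) * (4 * K + 1) * Fintype.card ((U × Din) × B) ^ 2,
    16 * (8 * 448 * d) * Fintype.card ((U × Din) × B) + 2, fun n => ?_⟩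
  · obtain ⟨G, _, _, hG, sG, hsG⟩ := exists_group (n + 1) (by omega)
    obtain ⟨s, hs⟩ := exists_opExp_of_dvd hsG (by norm_num) j1 (U × Din) (by
      rw [Fintype.card_prod (U), Fintype.card_prod, Fintype.card_fin, ← sq, ← pow_mul]
      exact Dvd.dvd.mul_right hU _)
    obtain ⟨t, ht⟩ := exists_opExp_of_dvd hsG (by norm_num) j1 B (by simp [B])
    have hrK : 8 * 448 * d ≤ K := by
      rw [hK]
      exact Nat.mul_le_mul (by norm_num) (Nat.le_self_pow (by norm_num) d)
    have hKr : (0 : ℝ) < K := Nat.cast_pos.2 hK0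
    have hl2 : 4 * (K : ℝ) * (1 / ((4 * K : ℕ) : ℝ)) ≤ 1 := by
      push_cast
      field_simp
      exact le_rfl
    refine ⟨G × (U × Din) × B, inferInstance, inferInstance, _, ?_,
      cayley_ltc (hs.mono hj1) (ht.mono hj1) (by positivity) hdA
        (hdB.mono (le_trans (by norm_num) (Nat.mul_le_mul_left _ hd1))) hag ?_ hl2 hcA hcB ?_
        (by omega)⟩
    · have h1 : n < 5 ^ (n + 1) := lt_of_lt_of_le (Nat.lt_pow_self (by norm_num))
        (Nat.pow_le_pow_right (by norm_num) (Nat.le_succ n))
      have h2 := Nat.le_of_dvd Fintype.card_pos hG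
      rw [Fintype.card_prod]
      exact le_trans (by omega) (Nat.le_mul_of_pos_right _ Fintype.card_pos)
    · refine le_trans (mul_le_mul_of_nonneg_right ?_ (by positivity)) hl2
      have : ((8 * 448 * d : ℕ) : ℝ) ≤ K := by exact_mod_cast hrK
      linarith
    · rw [Fintype.card_prod, Fintype.card_prod, Fintype.card_bool]
      have := Nat.mul_le_mul_left (Fintype.card U) hkin
      nlinarith

end Pool.Agent.P.MP_55663b_lc
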