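import Mathlib
import Pool.Agent.P.MP_55663b_lc.Count
import Pool.Agent.P.MP_55663b_lc.LTC

/-!
Query reduction with masks: a three query code with linearly many dual words of weight at most
three.
-/

open Finset Module

namespace Pool.Agent.P.MP_55663b_lc

/-- Sums of initial segments. -/
def ps {q : ℕ} (f : Fin q → F) (k : Fin (q + 1)) : F := ∑ j : Fin q, if (j : ℕ) < k then f j else 0

theorem ps_zero {q : ℕ} (f : Fin q → F) : ps f 0 = 0 := by simp [ps]

theorem ps_last {q : ℕ} (f : Fin q → F) : ps f (Fin.last q) = ∑ j, f j := by simp [ps]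

theorem ps_succ {q : ℕ} (f : Fin q → F) (k : Fin q) : ps f k.succ = ps f k.castSucc + f k := by
  have : f k = ∑ j : Fin q, if j = k then f j else 0 := by simp
  rw [this, ps, ps, ← Finset.sum_add_distrib]
  refine Finset.sum_congr rfl fun j _ => ?_
  simp only [Fin.val_succ, Fin.val_castSucc]
  by_cases h1 : (j : ℕ) < k
  · have h2 : j ≠ k := fun h => by rw [h] at h1; exact lt_irrefl _ h1
    simp [h1, h2, Nat.lt_succ_of_lt h1]
  · by_cases h2 : j = k
    · simp [h2]
    · have h3 : ¬ (j : ℕ) < k + 1 := fun h => h2 (Fin.ext (by omega))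
      simp [h1, h2, h3]

theorem ps_add {q : ℕ} (f g : Fin q → F) (k : Fin (q + 1)) :
    ps (fun j => f j + g j) k = ps f k + ps g k := by
  rw [ps, ps, ps, ← Finset.sum_add_distrib]
  exact Finset.sum_congr rfl fun j _ => by split_ifs <;> simp

theorem ps_mul {q : ℕ} (a : F) (f : Fin q → F) (k : Fin (q + 1)) :
    ps (fun j => a * f j) k = a * ps f k := by
  rw [ps, ps, Finset.mul_sum]
  exact Finset.sum_congr rfl fun j _ => by split_ifs <;> simp

section mask

variable {ι τ H : Type} {q : ℕ}

/-- Coordinates of one half of the masked code. -/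
abbrev Crd (ι τ H : Type) (q : ℕ) : Type := (H × Bool) ⊕ ι ⊕ (Bool × τ × Fin (q + 1))

variable (sup : τ → Fin q → ι) (co : τ → Fin q → F) (inf : H × Bool → ι) (φ : ι → H) (ψ : τ → H)

/-- The coordinate used at step `j` of a chain. -/
def item (b : Bool) (t : τ) (j : Fin q) : Crd ι τ H q :=
  cond b (.inr (.inl (sup t j))) (.inl (φ (sup t j), false))

/-- Values of the coordinates of one half, for own word `c` and masking word `d`. -/
def val (c d : ι → F) : Crd ι τ H q → F
  | .inl a => d (inf a)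
  | .inr (.inl i) => c i + d (inf (φ i, false))
  | .inr (.inr p) => d (inf (ψ p.2.1, true)) +
      ps (fun j => co p.2.1 j * (cond p.1 (c (sup p.2.1 j)) 0 + d (inf (φ (sup p.2.1 j), false))))
        p.2.2

theorem val_item (c d : ι → F) (b : Bool) (t : τ) (j : Fin q) :
    val sup co inf φ ψ c d (item sup φ b t j) =
      cond b (c (sup t j)) 0 + d (inf (φ (sup t j), false)) := by
  cases b <;> simp [val, item]

/-- The encoding of a pair of words. -/
def enc : (Bool → ι → F) →ₗ[F] (Bool × Crd ι τ H q → F) where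
  toFun c y := val sup co inf φ ψ (c y.1) (c !y.1) y.2
  map_add' c d := by
    ext ⟨ε, a | i | ⟨b, t, k⟩⟩
    · simp [val]
    · simp only [val, Pi.add_apply]; ring
    · simp only [val, Pi.add_apply]
      rw [add_add_add_comm, ← ps_add]
      congr 2
      ext j
      cases b <;> simp <;> ring
  map_smul' a c := by
    ext ⟨ε, a | i | ⟨b, t, k⟩⟩
    · simp [val]
    · simp only [val, Pi.smul_apply, smul_eq_mul, RingHom.id_apply]; ring
    · simp only [val, Pi.smul_apply, smul_eq_mul, RingHom.id_apply]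
      rw [mul_add, ← ps_mul]
      congr 2
      ext j
      cases b <;> simp <;> ring

theorem enc_apply (c : Bool → ι → F) (y : Bool × Crd ι τ H q) :
    enc sup co inf φ ψ c y = val sup co inf φ ψ (c y.1) (c !y.1) y.2 := rfl

/-- The masked code. -/
def masked (C : Submodule F (ι → F)) : Submodule F (Bool × Crd ι τ H q → F) :=
  (Submodule.pi Set.univ fun _ => C).map (enc sup co inf φ ψ)

theorem mem_masked {C : Submodule F (ι → F)} {w : Bool × Crd ι τ H q → F} :
    w ∈ masked sup co inf φ ψ C ↔ ∃ c : Bool → ι → F, (∀ ε, c ε ∈ C) ∧ enc sup co inf φ ψ c = w := by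
  simp [masked, Submodule.mem_map, Submodule.mem_pi]

/-- The signature of a coordinate. -/
def sgn [DecidableEq H] : Crd ι τ H q → H × Bool → F
  | .inl a => Pi.single a 1
  | .inr (.inl i) => Pi.single (φ i, false) 1
  | .inr (.inr p) => Pi.single (ψ p.2.1, true) 1 +
      ∑ j : Fin q, Pi.single (φ (sup p.2.1 j), false) (if (j : ℕ) < p.2.2 then co p.2.1 j else 0)

theorem val_zero_left [Fintype H] [DecidableEq H] (d : ι → F) (x : Crd ι τ H q) :
    val sup co inf φ ψ 0 d x = ∑ a, sgn sup co φ ψ x a * d (inf a) := by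
  have h : ∀ (a : H × Bool) (e : F), ∑ a', (Pi.single a e : H × Bool → F) a' * d (inf a') =
      e * d (inf a) := by
    intro a e
    rw [Finset.sum_eq_single a]
    · simp
    · intro b _ hb; simp [Pi.single_eq_of_ne hb]
    · simp
  rcases x with a | i | ⟨b, t, k⟩
  · simp only [val, sgn, h, one_mul]
  · simp only [val, sgn, h, one_mul, Pi.zero_apply, zero_add]
  · simp only [val, sgn, Pi.add_apply, Finset.sum_apply, add_mul, Finset.sum_add_distrib, h,
      one_mul, Finset.sum_mul]
    rw [Finset.sum_comm]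
    simp only [h, ps]
    congr 1
    refine Finset.sum_congr rfl fun j _ => ?_
    cases b <;> split_ifs <;> simp

theorem sgn_support [DecidableEq H] (b : Bool) (t : τ) (k : Fin (q + 1)) (a : H × Bool)
    (h : sgn sup co φ ψ (.inr (.inr (b, t, k))) a ≠ 0) :
    a = (ψ t, true) ∨ ∃ j, a = (φ (sup t j), false) := by
  by_contra hcon
  push Not at hcon
  apply h
  simp only [sgn, Pi.add_apply, Finset.sum_apply, Pi.single_eq_of_ne hcon.1, zero_add]
  exact Finset.sum_eq_zero fun j _ => Pi.single_eq_of_ne (hcon.2 j) _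

variable [Fintype ι] [Fintype τ] [Fintype H] [DecidableEq ι] [DecidableEq τ] [DecidableEq H]

theorem masked_count {C : Submodule F (ι → F)} {D L : ℕ}
    (hind : ∀ s : H × Bool → F, (∀ c : C, ∑ a, s a * (c : ι → F) (inf a) = 0) → s = 0)
    (hD : ∀ i, #{p : τ × Fin q | sup p.1 p.2 = i} ≤ D)
    (hφ : ∀ h, #{i | φ i = h} ≤ L) (hψ : ∀ h, #{t | ψ t = h} ≤ L) :
    #(lowDual (masked sup co inf φ ψ C)) ≤
      (1 + 2 * (1 + L + 2 * (q + 1) * (L + D * L)) + 6 * (q + 1) *
        (1 + L + 2 * (q + 1) * (L + D * L)) * (2 * (1 + L + 2 * (q + 1) * (L + D * L)))) *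
        Fintype.card (Bool × Crd ι τ H q) := by
  refine count_lowDual (E := C) _ (fun a c => (c : ι → F) (inf a)) hind
    (fun x c => val sup co inf φ ψ c 0 x) (sgn sup co φ ψ) ?_ ?_ ?_ ?_
  · rintro (a | i | ⟨b, t, k⟩)
    · exact Function.ne_iff.2 ⟨a, by simp [sgn]⟩
    · exact Function.ne_iff.2 ⟨(φ i, false), by simp [sgn]⟩
    · refine Function.ne_iff.2 ⟨(ψ t, true), ?_⟩
      simp [sgn, Finset.sum_apply]
  · intro a
    let T : Finset τ := (univ.filter fun t => ψ t = a.1) ∪
      (univ.filter fun p : τ × Fin q => sup p.1 p.2 ∈ univ.filter fun i => φ i = a.1).image Prod.fst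
    have hT : #T ≤ L + D * L := by
      refine (card_union_le _ _).trans (Nat.add_le_add (hψ _) (card_image_le.trans ?_))
      exact (card_preimage_le (fun p : τ × Fin q => sup p.1 p.2) D hD _).trans
        (Nat.mul_le_mul_left _ (hφ _))
    refine le_trans (card_le_card (t := ({.inl a} ∪
      (univ.filter fun i => φ i = a.1).image (fun i => .inr (.inl i))) ∪
      ((univ : Finset Bool) ×ˢ T ×ˢ (univ : Finset (Fin (q + 1)))).image
        (fun p => .inr (.inr p))) ?_) ?_
    · rintro (a' | i | ⟨b, t, k⟩) hx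
      · have h := (mem_filter.1 hx).2
        have : a = a' := by
          by_contra hne
          exact h (Pi.single_eq_of_ne hne _)
        simp [this]
      · have h := (mem_filter.1 hx).2
        have : a = (φ i, false) := by
          by_contra hne
          exact h (Pi.single_eq_of_ne hne _)
        simp [this]
      · refine mem_union_right _ (mem_image.2 ⟨(b, t, k), ?_, rfl⟩)
        simp only [mem_product, mem_univ, true_and, and_true]
        rcases sgn_support sup co φ ψ b t k a (mem_filter.1 hx).2 with h | ⟨j, h⟩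
        · exact mem_union_left _ (by simp [h])
        · exact mem_union_right _ (mem_image.2 ⟨(t, j), by simp [h], rfl⟩)
    · refine (card_union_le _ _).trans (Nat.add_le_add ((card_union_le _ _).trans
        (Nat.add_le_add (by simp) (card_image_le.trans (hφ _)))) (card_image_le.trans ?_))
      simp only [card_product, card_univ, Fintype.card_bool, Fintype.card_fin]
      calc 2 * (#T * (q + 1)) ≤ 2 * ((L + D * L) * (q + 1)) :=
            Nat.mul_le_mul_left _ (Nat.mul_le_mul_right _ hT)
        _ = _ := by ring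
  · rintro (a | i | ⟨b, t, k⟩)
    · refine le_trans (card_le_card (t := {a}) fun a' ha' => ?_) (by simp)
      by_contra hne
      exact (mem_filter.1 ha').2 (Pi.single_eq_of_ne (by simpa using hne) _)
    · refine le_trans (card_le_card (t := {(φ i, false)}) fun a' ha' => ?_) (by simp)
      by_contra hne
      exact (mem_filter.1 ha').2 (Pi.single_eq_of_ne (by simpa using hne) _)
    · refine le_trans (card_le_card (t := insert (ψ t, true)
        (univ.image fun j => (φ (sup t j), false))) fun a' ha' => ?_)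
        ((card_insert_le _ _).trans (Nat.add_le_add_right (card_image_le.trans (by simp)) _))
      rcases sgn_support sup co φ ψ b t k a' (mem_filter.1 ha').2 with h | ⟨j, h⟩
      · simp [h]
      · exact mem_insert_of_mem (mem_image.2 ⟨j, mem_univ _, h.symm⟩)
  · intro ε c
    refine (mem_masked sup co inf φ ψ).2 ⟨fun ε' => if ε' = ε then c else 0, fun ε' => ?_, ?_⟩
    · dsimp only
      split_ifs
      · exact c.2
      · exact C.zero_mem
    · ext ⟨ε', x⟩
      rw [enc_apply, ← val_zero_left]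
      cases ε <;> cases ε' <;> simp

omit [Fintype τ] [DecidableEq ι] [DecidableEq τ] in
theorem masked_weight {L : ℕ} (hφ : ∀ h, #{i | φ i = h} ≤ L) [Fintype τ]
    (c : Bool → ι → F) (ε : Bool) :
    hammingNorm (c ε) ≤ (L + 1) * hammingNorm (enc sup co inf φ ψ c) := by
  classical
  set w := enc sup co inf φ ψ c with hw
  have h1 : #{i | w (ε, .inr (.inl i)) ≠ 0} ≤ hammingNorm w :=
    card_le_card_of_injOn (fun i => (ε, .inr (.inl i)))
      (fun i hi => mem_coe.2 (mem_filter.2 ⟨mem_univ _, (mem_filter.1 (mem_coe.1 hi)).2⟩))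
      fun i _ i' _ h => by simpa using h
  have h2 : #{h | w (ε, .inl (h, false)) ≠ 0} ≤ hammingNorm w :=
    card_le_card_of_injOn (fun h => (ε, .inl (h, false)))
      (fun i hi => mem_coe.2 (mem_filter.2 ⟨mem_univ _, (mem_filter.1 (mem_coe.1 hi)).2⟩))
      fun i _ i' _ h => by simpa using h
  have h3 := card_preimage_le φ L hφ {h | w (ε, .inl (h, false)) ≠ 0}
  have h4 : hammingNorm (c ε) ≤ #{i | w (ε, .inr (.inl i)) ≠ 0} +
      #{i | φ i ∈ (univ.filter fun h => w (ε, .inl (h, false)) ≠ 0)} := by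
    refine le_trans (card_le_card fun i hi => ?_) (card_union_le _ _)
    by_contra hcon
    simp only [mem_union, mem_filter, mem_univ, true_and, not_or, not_not, hw, enc_apply,
      val] at hcon
    apply (mem_filter.1 hi).2
    have := hcon.1
    rwa [hcon.2, add_zero] at this
  have h5 := Nat.mul_le_mul_left L h2
  calc _ ≤ hammingNorm w + L * hammingNorm w := by omega
    _ = _ := by ring

theorem masked_sound {C : Submodule F (ι → F)} {D K L : ℕ} (hinf : Function.Injective inf)
    (hC : ∀ c ∈ C, ∀ t, ∑ k, co t k * c (sup t k) = 0)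
    (hD : ∀ i, #{p : τ × Fin q | sup p.1 p.2 = i} ≤ D)
    (hK : ∀ w, ∃ c ∈ C, hammingDist w c ≤ K * #{t | ∑ k, co t k * w (sup t k) ≠ 0})
    (hφ : ∀ h, #{i | φ i = h} ≤ L) (hψ : ∀ h, #{t | ψ t = h} ≤ L)
    (w : Bool × Crd ι τ H q → F) :
    ∃ c ∈ masked sup co inf φ ψ C, hammingDist w c ≤
      ((3 + 18 * K) + (18 * K + L * (3 + 18 * K)) + 2 * (q + 1) *
        (9 + L * (3 + 18 * K) + D * (18 * K + L * (3 + 18 * K)))) *
        #(violDual (masked sup co inf φ ψ C) w) := by
  set V := #(violDual (masked sup co inf φ ψ C) w) with hV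
  have two : ∀ a : F, a + a = 0 := CharTwo.add_self_eq_zero
  have Fa : ∀ a b c : F, a + (b + c) + (a + b) + c = 0 := by decide
  have Fb : ∀ a b : F, a + b + b + a = 0 := by decide
  have Fc : ∀ a b c : F, a + b + (a + c) = 0 → b + c = 0 := by decide
  -- the four families of tests
  have k1 := key_le (X := Bool × Bool × τ × Fin q) (masked sup co inf φ ψ C)
    (fun x => (x.1, .inr (.inr (x.2.1, x.2.2.1, x.2.2.2.succ))))
    (fun x => (x.1, .inr (.inr (x.2.1, x.2.2.1, x.2.2.2.castSucc))))
    (fun x => (x.1, item sup φ x.2.1 x.2.2.1 x.2.2.2)) (fun x => co x.2.2.1 x.2.2.2)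
    (fun ⟨_, _, _, _⟩ ⟨_, _, _, _⟩ h => by simpa using h)
    (fun ⟨_, _, _, j⟩ h => by
      simp only [Prod.mk.injEq, Sum.inr.injEq, true_and] at h
      exact absurd h (Fin.castSucc_lt_succ (i := j)).ne')
    (fun ⟨_, b, _, _⟩ => by cases b <;> simp [item])
    (fun c hc x => by
      obtain ⟨c, -, rfl⟩ := (mem_masked sup co inf φ ψ).1 hc
      simp only [enc_apply, val_item]
      simp only [val, ps_succ]
      exact Fa _ _ _) w
  have k2 := key_le (X := Bool × Bool × τ) (masked sup co inf φ ψ C)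
    (fun x => (x.1, .inr (.inr (x.2.1, x.2.2, 0))))
    (fun x => (x.1, .inl (ψ x.2.2, true))) (fun x => (x.1, .inl (ψ x.2.2, true))) (fun _ => 0)
    (fun ⟨_, _, _⟩ ⟨_, _, _⟩ h => by simpa using h) (fun _ => by simp) (fun _ => by simp)
    (fun c hc x => by
      obtain ⟨c, -, rfl⟩ := (mem_masked sup co inf φ ψ).1 hc
      simp only [enc_apply, val, ps_zero, add_zero, zero_mul, two]) w
  have k3 := key_le (X := Bool × τ) (masked sup co inf φ ψ C)
    (fun x => (x.1, .inr (.inr (true, x.2, Fin.last q))))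
    (fun x => (x.1, .inr (.inr (false, x.2, Fin.last q))))
    (fun x => (x.1, .inr (.inr (false, x.2, Fin.last q)))) (fun _ => 0)
    (fun ⟨_, _⟩ ⟨_, _⟩ h => by simpa using h) (fun _ => by simp) (fun _ => by simp)
    (fun c hc x => by
      obtain ⟨c, hc', rfl⟩ := (mem_masked sup co inf φ ψ).1 hc
      simp only [enc_apply, val, ps_last, zero_mul, Bool.cond_true, Bool.cond_false,
        zero_add, mul_add, Finset.sum_add_distrib, hC _ (hc' _), two]) w
  have k4 := key_le (X := Bool × H × Bool) (masked sup co inf φ ψ C)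
    (fun x => (x.1, .inr (.inl (inf x.2)))) (fun x => (x.1, .inl (φ (inf x.2), false)))
    (fun x => (!x.1, .inl x.2)) (fun _ => 1)
    (fun ⟨_, _⟩ ⟨_, _⟩ h => by simpa [hinf.eq_iff] using h) (fun _ => by simp) (fun _ => by simp)
    (fun c hc x => by
      obtain ⟨c, -, rfl⟩ := (mem_masked sup co inf φ ψ).1 hc
      simp only [enc_apply, val, Bool.not_not, one_mul]
      exact Fb _ _) w
  rw [← hV] at k1 k2 k3 k4
  set B1 : Finset (Bool × Bool × τ × Fin q) :=
    {x | w (x.1, .inr (.inr (x.2.1, x.2.2.1, x.2.2.2.succ))) +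
      w (x.1, .inr (.inr (x.2.1, x.2.2.1, x.2.2.2.castSucc))) +
      co x.2.2.1 x.2.2.2 * w (x.1, item sup φ x.2.1 x.2.2.1 x.2.2.2) ≠ 0} with hB1
  set B2 : Finset (Bool × Bool × τ) :=
    {x | w (x.1, .inr (.inr (x.2.1, x.2.2, 0))) + w (x.1, .inl (ψ x.2.2, true)) +
      0 * w (x.1, .inl (ψ x.2.2, true)) ≠ 0} with hB2
  set B3 : Finset (Bool × τ) :=
    {x | w (x.1, .inr (.inr (true, x.2, Fin.last q))) +
      w (x.1, .inr (.inr (false, x.2, Fin.last q))) +
      0 * w (x.1, .inr (.inr (false, x.2, Fin.last q))) ≠ 0} with hB3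
  set B4 : Finset (Bool × H × Bool) :=
    {x | w (x.1, .inr (.inl (inf x.2))) + w (x.1, .inl (φ (inf x.2), false)) +
      1 * w (!x.1, .inl x.2) ≠ 0} with hB4
  let T1 : Finset (Bool × τ) :=
    B1.image (fun x => (x.1, x.2.2.1)) ∪ B2.image (fun x => (x.1, x.2.2)) ∪ B3
  have hT1 : #T1 ≤ 9 * V := by
    have a1 := card_union_le (B1.image (fun x => (x.1, x.2.2.1)) ∪ B2.image (fun x => (x.1, x.2.2))) B3
    have a2 := card_union_le (B1.image (fun x => (x.1, x.2.2.1))) (B2.image (fun x => (x.1, x.2.2)))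
    have a3 := card_image_le (s := B1) (f := fun x => (x.1, x.2.2.1))
    have a4 := card_image_le (s := B2) (f := fun x => (x.1, x.2.2))
    simp only [T1]
    omega
  have hchain : ∀ ε t, (ε, t) ∉ T1 → ∀ b k, w (ε, .inr (.inr (b, t, k))) =
      w (ε, .inl (ψ t, true)) + ps (fun j => co t j * w (ε, item sup φ b t j)) k := by
    intro ε t ht b k
    simp only [T1, mem_union, not_or] at ht
    induction k using Fin.induction with
    | zero =>
      have : (ε, b, t) ∉ B2 := fun h => ht.1.2 (mem_image.2 ⟨_, h, rfl⟩)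
      simp only [hB2, mem_filter, mem_univ, true_and, not_not, zero_mul, add_zero] at this
      rw [ps_zero, add_zero]
      exact F_add_eq_zero.1 this
    | succ j ih =>
      have : (ε, b, t, j) ∉ B1 := fun h => ht.1.1 (mem_image.2 ⟨_, h, rfl⟩)
      simp only [hB1, mem_filter, mem_univ, true_and, not_not] at this
      rw [ps_succ, ← add_assoc, ← ih]
      rw [add_assoc] at this
      exact F_add_eq_zero.1 this
  let c0 : Bool → ι → F := fun ε i => w (ε, .inr (.inl i)) + w (ε, .inl (φ i, false))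
  have hviol : ∀ ε, #{t | ∑ k, co t k * c0 ε (sup t k) ≠ 0} ≤ 9 * V := by
    intro ε
    refine le_trans (card_le_card_of_injOn (fun t => (ε, t)) (fun t ht => ?_)
      fun t _ t' _ h => by simpa using h) hT1
    by_contra hcon
    apply (mem_filter.1 (mem_coe.1 ht)).2
    have h3 : (ε, t) ∉ B3 := fun h => hcon (mem_coe.2 (mem_union_right _ h))
    simp only [hB3, mem_filter, mem_univ, true_and, not_not, zero_mul, add_zero] at h3
    rw [hchain ε t hcon, hchain ε t hcon, ps_last, ps_last] at h3
    simp only [c0, mul_add, Finset.sum_add_distrib]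
    simp only [item, Bool.cond_true, Bool.cond_false] at h3
    exact Fc _ _ _ h3
  choose cs hcs hcsd using fun ε => hK (c0 ε)
  refine ⟨enc sup co inf φ ψ cs, (mem_masked sup co inf φ ψ).2 ⟨cs, hcs, rfl⟩, ?_⟩
  let Ib : Finset (Bool × ι) := {x | c0 x.1 x.2 ≠ cs x.1 x.2}
  have hIb : #Ib ≤ 18 * K * V := by
    have e : #Ib = ∑ ε, hammingDist (c0 ε) (cs ε) := by
      simp only [Ib, hammingDist, card_filter, Fintype.sum_prod_type]
    rw [e, Fintype.sum_bool]
    have a1 := (hcsd true).trans (Nat.mul_le_mul_left K (hviol true))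
    have a2 := (hcsd false).trans (Nat.mul_le_mul_left K (hviol false))
    calc _ ≤ K * (9 * V) + K * (9 * V) := Nat.add_le_add a1 a2
      _ = _ := by ring
  let Pb : Finset (Bool × H × Bool) := {x | w (x.1, .inl x.2) ≠ cs (!x.1) (inf x.2)}
  have hPb : #Pb ≤ (3 + 18 * K) * V := by
    have a1 : #Pb ≤ #{x : Bool × H × Bool | (!x.1, x.2) ∈ B4} +
        #{x : Bool × H × Bool | (!x.1, inf x.2) ∈ Ib} := by
      refine le_trans (card_le_card fun x hx => ?_) (card_union_le _ _)
      by_contra hcon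
      simp only [mem_union, mem_filter, mem_univ, true_and, not_or, not_not, hB4, Ib, c0,
        Bool.not_not, one_mul] at hcon
      apply (mem_filter.1 hx).2
      rw [← hcon.2]
      exact (F_add_eq_zero.1 hcon.1).symm
    have a2 : #{x : Bool × H × Bool | (!x.1, x.2) ∈ B4} ≤ #B4 :=
      card_le_card_of_injOn (fun x => (!x.1, x.2))
        (fun x hx => (mem_filter.1 (mem_coe.1 hx)).2) fun ⟨_, _⟩ _ ⟨_, _⟩ _ h => by simpa using h
    have a3 : #{x : Bool × H × Bool | (!x.1, inf x.2) ∈ Ib} ≤ #Ib :=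
      card_le_card_of_injOn (fun x => (!x.1, inf x.2))
        (fun x hx => (mem_filter.1 (mem_coe.1 hx)).2)
        fun ⟨_, _⟩ _ ⟨_, _⟩ _ h => by simpa [hinf.eq_iff] using h
    calc #Pb ≤ 3 * V + 18 * K * V := by omega
      _ = _ := by ring
  have hfib : ∀ {X : Type} [Fintype X] (f : X → H) (b : Bool), (∀ h, #{i | f i = h} ≤ L) →
      #{x : Bool × X | (x.1, f x.2, b) ∈ Pb} ≤ L * ((3 + 18 * K) * V) := by
    intro X _ f b hf
    refine (card_preimage_le (fun x : Bool × X => (x.1, f x.2, b)) L (fun y => ?_) Pb).trans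
      (Nat.mul_le_mul_left _ hPb)
    refine le_trans (card_le_card_of_injOn Prod.snd (fun x hx => ?_) fun x hx x' hx' h => ?_)
      (hf y.2.1)
    · have := (mem_filter.1 (mem_coe.1 hx)).2
      exact mem_coe.2 (mem_filter.2 ⟨mem_univ _, congrArg (fun u => u.2.1) this⟩)
    · have e1 := (mem_filter.1 (mem_coe.1 hx)).2
      have e2 := (mem_filter.1 (mem_coe.1 hx')).2
      exact Prod.ext (Prod.ext_iff.1 (e1.trans e2.symm)).1 h
  let Jb : Finset (Bool × ι) := Ib ∪ univ.filter fun x => (x.1, φ x.2, false) ∈ Pb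
  have hJb : #Jb ≤ (18 * K + L * (3 + 18 * K)) * V := by
    calc #Jb ≤ 18 * K * V + L * ((3 + 18 * K) * V) :=
          (card_union_le _ _).trans (Nat.add_le_add hIb (hfib φ false hφ))
      _ = _ := by ring
  have hJgood : ∀ ε i, (ε, i) ∉ Jb → w (ε, .inl (φ i, false)) = cs (!ε) (inf (φ i, false)) ∧
      w (ε, .inr (.inl i)) = cs ε i + cs (!ε) (inf (φ i, false)) := by
    intro ε i h
    simp only [Jb, Ib, Pb, c0, mem_union, mem_filter, mem_univ, true_and, not_or, not_not] at h
    refine ⟨h.2, ?_⟩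
    rw [← h.1, ← h.2, add_assoc, two, add_zero]
  let T2 : Finset (Bool × τ) := T1 ∪ (univ.filter fun x => (x.1, ψ x.2, true) ∈ Pb) ∪
    (univ.filter fun x : Bool × τ × Fin q => (x.1, sup x.2.1 x.2.2) ∈ Jb).image
      fun x => (x.1, x.2.1)
  have hT2 : #T2 ≤ (9 + L * (3 + 18 * K) + D * (18 * K + L * (3 + 18 * K))) * V := by
    have a1 : #{x : Bool × τ × Fin q | (x.1, sup x.2.1 x.2.2) ∈ Jb} ≤ D * #Jb := by
      refine card_preimage_le (fun x : Bool × τ × Fin q => (x.1, sup x.2.1 x.2.2)) D
        (fun y => ?_) Jb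
      refine le_trans (card_le_card_of_injOn Prod.snd (fun x hx => ?_) fun x hx x' hx' h => ?_)
        (hD y.2)
      · have := (mem_filter.1 (mem_coe.1 hx)).2
        exact mem_coe.2 (mem_filter.2 ⟨mem_univ _, congrArg Prod.snd this⟩)
      · have e1 := (mem_filter.1 (mem_coe.1 hx)).2
        have e2 := (mem_filter.1 (mem_coe.1 hx')).2
        exact Prod.ext (Prod.ext_iff.1 (e1.trans e2.symm)).1 h
    calc #T2 ≤ 9 * V + L * ((3 + 18 * K) * V) + D * ((18 * K + L * (3 + 18 * K)) * V) :=
          (card_union_le _ _).trans (Nat.add_le_add ((card_union_le _ _).trans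
            (Nat.add_le_add hT1 (hfib ψ true hψ)))
            (card_image_le.trans (a1.trans (Nat.mul_le_mul_left _ hJb))))
      _ = _ := by ring
  letI : DecidableEq (Bool × Crd ι τ H q) := Classical.decEq _
  have hsub : (univ.filter fun y => w y ≠ enc sup co inf φ ψ cs y) ⊆
      Pb.image (fun x => (x.1, .inl x.2)) ∪ Jb.image (fun x => (x.1, .inr (.inl x.2))) ∪
      (T2 ×ˢ (univ : Finset (Bool × Fin (q + 1)))).image
        (fun x => (x.1.1, .inr (.inr (x.2.1, x.1.2, x.2.2)))) := by
    rintro ⟨ε, a | i | ⟨b, t, k⟩⟩ hy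
    · exact mem_union_left _ (mem_union_left _ (mem_image.2 ⟨(ε, a),
        mem_filter.2 ⟨mem_univ _, (mem_filter.1 hy).2⟩, rfl⟩))
    · refine mem_union_left _ (mem_union_right _ (mem_image.2 ⟨(ε, i), ?_, rfl⟩))
      by_contra hcon
      exact (mem_filter.1 hy).2 (hJgood ε i hcon).2
    · refine mem_union_right _ (mem_image.2 ⟨((ε, t), (b, k)),
        mem_product.2 ⟨?_, mem_univ _⟩, rfl⟩)
      by_contra hcon
      simp only [T2, mem_union, not_or] at hcon
      obtain ⟨⟨h1, h2⟩, h3⟩ := hcon
      apply (mem_filter.1 hy).2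
      have h4 : ∀ j, (ε, sup t j) ∉ Jb := fun j h =>
        h3 (mem_image.2 ⟨(ε, t, j), mem_filter.2 ⟨mem_univ _, h⟩, rfl⟩)
      simp only [Pb, mem_filter, mem_univ, true_and, not_not] at h2
      rw [hchain ε t h1, h2, enc_apply]
      simp only [val]
      congr 2
      ext j
      cases b
      · simp [item, (hJgood ε _ (h4 j)).1]
      · simp [item, (hJgood ε _ (h4 j)).2]
  refine le_trans (card_le_card hsub) ?_
  refine le_trans ((card_union_le _ _).trans (Nat.add_le_add ((card_union_le _ _).trans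
    (Nat.add_le_add (card_image_le.trans hPb) (card_image_le.trans hJb))) card_image_le)) ?_
  rw [card_product, card_univ, Fintype.card_prod, Fintype.card_bool, Fintype.card_fin]
  have := Nat.mul_le_mul_right (2 * (q + 1)) hT2
  calc _ ≤ (3 + 18 * K) * V + (18 * K + L * (3 + 18 * K)) * V +
        (9 + L * (3 + 18 * K) + D * (18 * K + L * (3 + 18 * K))) * V * (2 * (q + 1)) :=
        Nat.add_le_add_left this _
    _ = _ := by ring

end mask

end Pool.Agent.P.MP_55663b_lc
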