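import Mathlib
import Pool.Agent.P.MP_55663b_lc.Mask

/-!
Assembly: good codes tested by all their dual words of weight at most three, which are linearly
many.
-/

open Finset Module

namespace Pool.Agent.P.MP_55663b_lc

/-- The properties of the final codes. -/
def Final {κ : Type} [Fintype κ] (C : Submodule F (κ → F)) (r K M : ℕ) : Prop :=
  Fintype.card κ ≤ r * finrank F C ∧ Dist C r ∧
    (∀ w, ∃ c ∈ C, hammingDist w c ≤ K * #(violDual C w)) ∧ #(lowDual C) ≤ M * Fintype.card κ

theorem exists_info {ι : Type} [Fintype ι] (C : Submodule F (ι → F)) :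
    ∃ inf : Fin (finrank F C / 2) × Bool → ι, Function.Injective inf ∧
      ∀ s : Fin (finrank F C / 2) × Bool → F,
        (∀ c : C, ∑ a, s a * (c : ι → F) (inf a) = 0) → s = 0 := by
  classical
  let v : ι → Module.Dual F C := fun i => LinearMap.proj i ∘ₗ C.subtype
  obtain ⟨κ, a, ha, hspan, hli⟩ := exists_linearIndependent' F v
  have htop : Submodule.span F (Set.range v) = ⊤ := by
    apply Submodule.span_eq_top_of_ne_zero
    intro z hz
    obtain ⟨i, hi⟩ := Function.ne_iff.1 (fun h => hz (Subtype.ext h) : (z : ι → F) ≠ 0)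
    exact ⟨v i, ⟨i, rfl⟩, hi⟩
  haveI : Finite κ := Finite.of_injective a ha
  letI : Fintype κ := Fintype.ofFinite κ
  have hcard : finrank F C ≤ Fintype.card κ := by
    have := finrank_range_le_card (R := F) (v ∘ a)
    unfold Set.finrank at this
    rwa [hspan, htop, finrank_top, Subspace.dual_finrank_eq] at this
  obtain ⟨e⟩ : Nonempty (Fin (finrank F C / 2) × Bool ↪ κ) := by
    apply Function.Embedding.nonempty_of_card_le
    simp only [Fintype.card_prod, Fintype.card_fin, Fintype.card_bool]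
    omega
  refine ⟨a ∘ e, ha.comp e.injective, fun s hs => ?_⟩
  have hli' := hli.comp e e.injective
  rw [Fintype.linearIndependent_iff] at hli'
  ext i
  refine hli' s ?_ i
  ext c
  simpa [v] using hs c

theorem exists_fiber_le (X Y : Type) [Fintype X] [Fintype Y] [DecidableEq Y] (L : ℕ)
    (h : Fintype.card X ≤ L * Fintype.card Y) : ∃ f : X → Y, ∀ y, #{x | f x = y} ≤ L := by
  obtain ⟨e⟩ : Nonempty (X ↪ Fin L × Y) := by
    apply Function.Embedding.nonempty_of_card_le
    simpa using h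
  refine ⟨fun x => (e x).2, fun y => ?_⟩
  have : #(univ : Finset (Fin L)) = L := by simp
  refine le_trans ?_ this.le
  refine card_le_card_of_injOn (fun x => (e x).1) (fun _ _ => mem_univ _) fun x hx x' hx' h => ?_
  have e1 := (mem_filter.1 (mem_coe.1 hx)).2
  have e2 := (mem_filter.1 (mem_coe.1 hx')).2
  exact e.injective (Prod.ext h (e1.trans e2.symm))

theorem final_of_ltc (q D K r : ℕ) : ∃ r' K' M : ℕ, ∀ (ι : Type) [Fintype ι] [DecidableEq ι]
    (C : Submodule F (ι → F)), r < Fintype.card ι → IsLTC C q D K r →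
    ∃ (κ : Type) (_ : Fintype κ) (C' : Submodule F (κ → F)),
      Fintype.card ι ≤ Fintype.card κ ∧ Final C' r' K' M := by
  let L := (D + 1) * (3 * r)
  refine ⟨2 * (2 + 2 * D * (q + 1)) * r * (L + 1),
    ((3 + 18 * K) + (18 * K + L * (3 + 18 * K)) + 2 * (q + 1) *
        (9 + L * (3 + 18 * K) + D * (18 * K + L * (3 + 18 * K)))),
    (1 + 2 * (1 + L + 2 * (q + 1) * (L + D * L)) + 6 * (q + 1) *
        (1 + L + 2 * (q + 1) * (L + D * L)) * (2 * (1 + L + 2 * (q + 1) * (L + D * L)))), ?_⟩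
  rintro ι _ _ C hr ⟨⟨τ, _, _, sup, co, hτ, hC, hD, hK⟩, hrate, hdist⟩
  have hex := exists_info C
  set k := finrank F C with hk
  obtain ⟨inf, hinf, hind⟩ := hex
  have hk2 : 2 ≤ k := by
    by_contra h
    have : r * k ≤ r * 1 := Nat.mul_le_mul_left _ (by omega)
    omega
  have hι : Fintype.card ι ≤ 3 * r * (k / 2) := by
    calc _ ≤ r * k := hrate
      _ ≤ r * (3 * (k / 2)) := Nat.mul_le_mul_left _ (by omega)
      _ = _ := by ring
  obtain ⟨φ, hφ⟩ := exists_fiber_le ι (Fin (k / 2)) L (by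
    rw [Fintype.card_fin]
    exact hι.trans (Nat.mul_le_mul_right _ (Nat.le_mul_of_pos_left _ (Nat.succ_pos _))))
  obtain ⟨ψ, hψ⟩ := exists_fiber_le τ (Fin (k / 2)) L (by
    rw [Fintype.card_fin]
    calc _ ≤ D * (3 * r * (k / 2)) := hτ.trans (Nat.mul_le_mul_left _ hι)
      _ ≤ (D + 1) * (3 * r * (k / 2)) := Nat.mul_le_mul_right _ (Nat.le_succ _)
      _ = _ := by simp only [L]; ring)
  have hI := Fintype.card_le_of_injective inf hinf
  have hcard : Fintype.card (Bool × Crd ι τ (Fin (k / 2)) q) =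
      2 * (Fintype.card (Fin (k / 2) × Bool) + (Fintype.card ι + 2 * (Fintype.card τ * (q + 1)))) := by
    simp only [Fintype.card_prod, Fintype.card_sum, Fintype.card_bool, Fintype.card_fin]
  have hlen : Fintype.card (Bool × Crd ι τ (Fin (k / 2)) q) ≤
      2 * (2 + 2 * D * (q + 1)) * Fintype.card ι := by
    rw [hcard]
    have := Nat.mul_le_mul_right (q + 1) hτ
    calc _ ≤ 2 * (Fintype.card ι + (Fintype.card ι + 2 * (D * Fintype.card ι * (q + 1)))) := by
          omega
      _ = _ := by ring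
  refine ⟨Bool × Crd ι τ (Fin (k / 2)) q, inferInstance, masked sup co inf φ ψ C,
    by rw [hcard]; omega, ?_, ?_, masked_sound sup co inf φ ψ hinf hC hD hK hφ hψ,
    masked_count sup co inf φ ψ hind hD hφ hψ⟩
  · let f : C →ₗ[F] masked sup co inf φ ψ C :=
      LinearMap.codRestrict _ (enc sup co inf φ ψ ∘ₗ LinearMap.pi fun _ => C.subtype)
        fun c => (mem_masked sup co inf φ ψ).2 ⟨fun _ => c, fun _ => c.2, rfl⟩
    have hf : Function.Injective f := by
      rw [← LinearMap.ker_eq_bot, LinearMap.ker_eq_bot']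
      intro c hc
      have h1 := masked_weight sup co inf φ ψ hφ (fun _ => c) true
      have h2 : enc sup co inf φ ψ (fun _ => (c : ι → F)) = 0 := congrArg Subtype.val hc
      rw [h2, hammingNorm_zero, mul_zero, Nat.le_zero, hammingNorm_eq_zero] at h1
      exact Subtype.ext h1
    have h3 := LinearMap.finrank_le_finrank_of_injective hf
    calc _ ≤ 2 * (2 + 2 * D * (q + 1)) * (r * finrank F (masked sup co inf φ ψ C)) :=
          hlen.trans (Nat.mul_le_mul_left _ (hrate.trans (Nat.mul_le_mul_left _ h3)))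
      _ = 2 * (2 + 2 * D * (q + 1)) * r * 1 * finrank F (masked sup co inf φ ψ C) := by ring
      _ ≤ _ := Nat.mul_le_mul_right _ (Nat.mul_le_mul_left _ (Nat.le_add_left _ _))
  · intro w hw h0
    obtain ⟨c, hc, rfl⟩ := (mem_masked sup co inf φ ψ).1 hw
    have : c ≠ 0 := fun h => h0 (by rw [h, map_zero])
    obtain ⟨ε, hε⟩ := Function.ne_iff.1 this
    calc _ ≤ 2 * (2 + 2 * D * (q + 1)) * (r * ((L + 1) * hammingNorm (enc sup co inf φ ψ c))) :=
          hlen.trans (Nat.mul_le_mul_left _ ((hdist _ (hc ε) hε).trans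
            (Nat.mul_le_mul_left _ (masked_weight sup co inf φ ψ hφ c ε))))
      _ = _ := by ring

theorem hammingNorm_comp_equiv {κ κ' : Type} [Fintype κ] [Fintype κ'] (e : κ' ≃ κ) (u : κ → F) :
    hammingNorm (u ∘ e) = hammingNorm u :=
  Finset.card_equiv e fun i => by simp

theorem hammingDist_comp_equiv {κ κ' : Type} [Fintype κ] [Fintype κ'] (e : κ' ≃ κ)
    (u v : κ → F) : hammingDist (u ∘ e) (v ∘ e) = hammingDist u v :=
  Finset.card_equiv e fun i => by simp

theorem Final.transport {κ κ' : Type} [Fintype κ] [Fintype κ'] (e : κ' ≃ κ)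
    {C : Submodule F (κ → F)} {r K M : ℕ} (h : Final C r K M) :
    ∃ C' : Submodule F (κ' → F), Final C' r K M := by
  classical
  let E : (κ → F) ≃ₗ[F] (κ' → F) := LinearEquiv.funCongrLeft F F e
  have hE : ∀ u, E u = u ∘ e := fun u => rfl
  have hsum : ∀ u v : κ → F, ∑ i, (u ∘ e) i * (v ∘ e) i = ∑ i, u i * v i := fun u v =>
    Equiv.sum_comp e fun i => u i * v i
  have hdual : ∀ u : κ → F, (∀ c ∈ C.map (E : (κ → F) →ₗ[F] (κ' → F)), ∑ i, (u ∘ e) i * c i = 0) ↔
      ∀ c ∈ C, ∑ i, u i * c i = 0 := by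
    intro u
    constructor
    · intro h1 c hc
      rw [← hsum]
      exact h1 _ ⟨c, hc, rfl⟩
    · rintro h1 _ ⟨c, hc, rfl⟩
      exact (hsum u c).trans (h1 c hc)
  obtain ⟨h1, h2, h3, h4⟩ := h
  refine ⟨C.map (E : (κ → F) →ₗ[F] (κ' → F)), ?_, ?_, fun w => ?_, ?_⟩
  · rw [LinearEquiv.finrank_map_eq, Fintype.card_congr e]
    exact h1
  · rintro _ ⟨c, hc, rfl⟩ h0
    rw [Fintype.card_congr e]
    have := h2 c hc fun h => h0 (by rw [h, map_zero])
    rwa [← hammingNorm_comp_equiv e] at this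
  · obtain ⟨w, rfl⟩ := E.surjective w
    obtain ⟨c, hc, hd⟩ := h3 w
    refine ⟨E c, ⟨c, hc, rfl⟩, ?_⟩
    rw [hE, hE, hammingDist_comp_equiv]
    refine hd.trans (le_of_eq ?_)
    congr 1
    refine Finset.card_equiv E.toEquiv fun u => ?_
    simp only [violDual, mem_filter, mem_univ, true_and, LinearEquiv.coe_toEquiv, hE, hdual, hsum,
      hammingNorm_comp_equiv]
  · rw [Fintype.card_congr e]
    refine le_trans (le_of_eq ?_) h4
    symm
    refine Finset.card_equiv E.toEquiv fun u => ?_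
    simp only [lowDual, mem_filter, mem_univ, true_and, LinearEquiv.coe_toEquiv, hE, hdual,
      hammingNorm_comp_equiv]

theorem exists_final : ∃ r K M : ℕ, ∀ N : ℕ, ∃ n, N ≤ n ∧
    ∃ C : Submodule F (Fin n → F), Final C r K M := by
  obtain ⟨q, D, K, r, h⟩ := exists_ltc
  obtain ⟨r', K', M, h'⟩ := final_of_ltc q D K r
  refine ⟨r', K', M, fun N => ?_⟩
  obtain ⟨ι, _, _, C, hN, hC⟩ := h (N + r + 1)
  obtain ⟨κ, _, C', hκ, hC'⟩ := h' ι C (by omega) hC
  exact ⟨Fintype.card κ, by omega, hC'.transport (Fintype.equivFin κ).symm⟩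

end Pool.Agent.P.MP_55663b_lc
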